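import Pool.Agent.H29Str.Defs2
set_option autoImplicit false
set_option linter.unusedSectionVars false
namespace H29Str
open Finset
variable {n : ℕ}

/-- near-pair kernel -/
noncomputable def kk (ρ : ℝ) (u u' : Q n) : ℝ := ∑ v, W ρ u v * W ρ u' v

lemma P_eq (ρ : ℝ) (h : Q n → ℝ) (x : Q n) : P ρ h x = ∑ v, h v * W ρ v x := by
  unfold P
  exact Finset.sum_congr rfl (fun v _ => by rw [W_symm ρ x v]; ring)

lemma P_nonneg {ρ : ℝ} (h0 : 0 ≤ ρ) (h1 : ρ ≤ 1) {h : Q n → ℝ} (hh : ∀ v, 0 ≤ h v) (v : Q n) :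
    0 ≤ P ρ h v := Finset.sum_nonneg (fun u _ => mul_nonneg (W_nonneg h0 h1 _ _) (hh _))

lemma P_le {ρ C : ℝ} (h0 : 0 ≤ ρ) (h1 : ρ ≤ 1) {h : Q n → ℝ} (hh : ∀ v, h v ≤ C) (v : Q n) :
    P ρ h v ≤ C := by
  unfold P
  calc _ ≤ ∑ u, W ρ v u * C := Finset.sum_le_sum (fun u _ => mul_le_mul_of_nonneg_left (hh u) (W_nonneg h0 h1 _ _))
    _ = C := by rw [← Finset.sum_mul, W_sum, one_mul]

lemma P_sum (ρ : ℝ) (h : Q n → ℝ) : ∑ v, P ρ h v = ∑ v, h v := by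
  simp_rw [P_eq]
  rw [Finset.sum_comm]
  apply Finset.sum_congr rfl
  intro v _
  rw [← Finset.mul_sum, W_sum, mul_one]

lemma kk_nonneg {ρ : ℝ} (h0 : 0 ≤ ρ) (h1 : ρ ≤ 1) (u u' : Q n) : 0 ≤ kk ρ u u' :=
  Finset.sum_nonneg (fun v _ => mul_nonneg (W_nonneg h0 h1 _ _) (W_nonneg h0 h1 _ _))

lemma kk_le {ρ : ℝ} (h0 : 0 ≤ ρ) (h1 : ρ ≤ 1) (u u' : Q n) : kk ρ u u' ≤ ((1 + ρ) / 2) ^ n := by
  unfold kk
  calc _ ≤ ∑ v, ((1 + ρ) / 2) ^ n * W ρ u' v :=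
        Finset.sum_le_sum (fun v _ => mul_le_mul_of_nonneg_right (W_le h0 h1 _ _) (W_nonneg h0 h1 _ _))
    _ = _ := by rw [← Finset.mul_sum, W_sum, mul_one]

lemma sum_dd_kk (ρ : ℝ) (d : Q n → ℝ) :
    ∑ v, ∑ v', d v * d v' * kk ρ v v' = ∑ x, (P ρ d x) ^ 2 := by
  have h1 : ∀ x, (P ρ d x) ^ 2 = ∑ v, ∑ v', d v * d v' * (W ρ v x * W ρ v' x) := by
    intro x
    rw [P_eq, sq, Finset.sum_mul_sum]
    exact Finset.sum_congr rfl (fun v _ => Finset.sum_congr rfl (fun v' _ => by ring))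
  simp_rw [h1]
  unfold kk
  simp_rw [Finset.mul_sum]
  conv_rhs => rw [Finset.sum_comm]
  apply Finset.sum_congr rfl
  intro v _
  conv_rhs => rw [Finset.sum_comm]

/-- the load functional -/
noncomputable def Load (ρ : ℝ) (d : Q n → ℝ) (ψ : Q n → Q n) : ℝ :=
  ∑ x, (∑ z, W ρ (ψ z) x - P ρ d x) ^ 2

noncomputable def ff (ρ : ℝ) (d : Q n → ℝ) (u : Q n) : ℝ := ∑ x, W ρ u x * P ρ d x

lemma Load_expand (ρ : ℝ) (d : Q n → ℝ) (ψ : Q n → Q n) :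
    Load ρ d ψ = (∑ z1, ∑ z2, kk ρ (ψ z1) (ψ z2)) - 2 * (∑ z, ff ρ d (ψ z)) + ∑ x, (P ρ d x) ^ 2 := by
  have h1 : ∀ x, (∑ z, W ρ (ψ z) x - P ρ d x) ^ 2 = (∑ z1, ∑ z2, W ρ (ψ z1) x * W ρ (ψ z2) x) -
      2 * (∑ z, W ρ (ψ z) x * P ρ d x) + (P ρ d x) ^ 2 := by
    intro x
    rw [← Finset.sum_mul_sum, ← Finset.sum_mul]
    ring
  unfold Load
  simp_rw [h1]
  rw [Finset.sum_add_distrib, Finset.sum_sub_distrib, ← Finset.mul_sum]
  congr 2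
  · unfold kk
    rw [Finset.sum_comm]
    apply Finset.sum_congr rfl
    intro z1 _
    rw [Finset.sum_comm]
  · unfold ff
    rw [Finset.sum_comm]

lemma sum_d_ff (ρ : ℝ) (d : Q n → ℝ) : ∑ u, d u * ff ρ d u = ∑ x, (P ρ d x) ^ 2 := by
  unfold ff
  simp_rw [Finset.mul_sum]
  rw [Finset.sum_comm]
  apply Finset.sum_congr rfl
  intro x _
  rw [sq]
  conv_rhs => rw [P_eq]
  rw [P_eq, Finset.sum_mul]
  exact Finset.sum_congr rfl (fun v _ => by ring)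

lemma ff_nonneg {ρ : ℝ} (h0 : 0 ≤ ρ) (h1 : ρ ≤ 1) {d : Q n → ℝ} (hd : ∀ v, 0 ≤ d v) (u : Q n) :
    0 ≤ ff ρ d u := Finset.sum_nonneg (fun v _ => mul_nonneg (W_nonneg h0 h1 _ _) (P_nonneg h0 h1 hd _))

lemma ff_le {ρ : ℝ} (h0 : 0 ≤ ρ) (h1 : ρ ≤ 1) {d : Q n → ℝ} (hd : ∀ v, d v ≤ 2) (u : Q n) :
    ff ρ d u ≤ 2 := P_le h0 h1 (P_le h0 h1 hd) u

section loadbound
variable {Ω : Type} [Fintype Ω] [DecidableEq Ω] [Nonempty Ω]

lemma load_bound (g : ℕ → Ω → Q n → Q n) (d : ℕ → Q n → ℝ) {η δ B ρ Nr : ℝ} (hη : 0 < η) (hδ : 0 ≤ δ)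
    (hd : ∀ t v, η ≤ d t v) (hd2 : ∀ t v, d t v ≤ 2) (hs : ∑ v, d 0 v = 2 ^ n)
    (hp : Push g d δ) (hg : ∀ t ω v, (univ.filter (fun u => g t ω u = v)).card ≤ 2)
    (T : ℕ) (hB : 1 ≤ B) (hBd : ∀ v, 1 ≤ B * d T v) (h0 : 0 ≤ ρ) (h1 : ρ ≤ 1) (r m : ℕ)
    (hN : ∀ z1 : Q n, ((univ.filter (fun z2 : Q n => hammingDist z1 z2 < m)).card : ℝ) ≤ Nr) :
    (∑ z1, ∑ z2, It g (lamf r z1 z2) T (kk ρ) z1 z2) - 2 * (∑ z, Ks g T (ff ρ (d 0)) z) +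
      ∑ x, (P ρ (d 0) x) ^ 2 ≤
    2 ^ n * (Nr * ((1 + ρ) / 2) ^ n +
      4 * (B ^ 2 * ((1 + δ) ^ 2 + ((r : ℝ) / (r + 1)) ^ m * (16 / η ^ 2)) ^ T - 1) +
      4 * (B * (1 + δ) ^ T - 1)) := by
  have hd0 : ∀ t v, 0 ≤ d t v := fun t v => hη.le.trans (hd t v)
  have hcube : ∑ _v : Q n, (1:ℝ) = 2 ^ n := by simp
  set ls : ℝ := ((r : ℝ) / (r + 1)) ^ m with hls
  have hls0 : 0 ≤ ls := by positivity
  set c : ℝ := (1 + δ) ^ 2 + ls * (16 / η ^ 2) with hc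
  have hc0 : 0 ≤ c := by positivity
  have hc1 : 1 ≤ c := by
    have : 1 ≤ (1 + δ) ^ 2 := one_le_pow₀ (by linarith)
    have h2 : 0 ≤ ls * (16 / η ^ 2) := by positivity
    linarith
  set E2 : ℝ := ∑ x, (P ρ (d 0) x) ^ 2 with hE2
  have hPnn : ∀ x, 0 ≤ P ρ (d 0) x := P_nonneg h0 h1 (hd0 0)
  have hP2 : ∀ x, P ρ (d 0) x ≤ 2 := P_le h0 h1 (hd2 0)
  have hE2le : E2 ≤ 4 * 2 ^ n := by
    rw [hE2, ← hcube, Finset.mul_sum]
    apply Finset.sum_le_sum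
    intro x _
    nlinarith [hPnn x, hP2 x]
  have hE2nn : 0 ≤ E2 := Finset.sum_nonneg (fun x _ => sq_nonneg _)
  -- pair part
  have hpair : ∑ z1, ∑ z2, It g (lamf r z1 z2) T (kk ρ) z1 z2 ≤
      2 ^ n * (Nr * ((1 + ρ) / 2) ^ n) + B ^ 2 * (c ^ T * E2) := by
    have a1 : ∀ z1 z2, It g (lamf r z1 z2) T (kk ρ) z1 z2 ≤
        (if hammingDist z1 z2 < m then ((1 + ρ) / 2) ^ n else 0) + ItS g ls T (kk ρ) z1 z2 := by
      intro z1 z2
      have b1 := ItS_nonneg g hls0 (kk_nonneg h0 h1) T z1 z2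
      split_ifs with hm
      · have := It_le_const g (lamf_nonneg r z1 z2) (lamf_le_one r z1 z2) (kk_le h0 h1) T z1 z2
        linarith
      · have hle : lamf r z1 z2 ≤ ls := by
          unfold lamf
          apply pow_le_pow_of_le_one (by positivity) _ (by omega)
          rw [div_le_one (by positivity)]; linarith
        have := It_le_ItS g (lamf_nonneg r z1 z2) (lamf_le_one r z1 z2) hle (kk_nonneg h0 h1) T z1 z2
        linarith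
    have a2 : ∑ z1, ∑ z2, ItS g ls T (kk ρ) z1 z2 ≤ B ^ 2 * (c ^ T * E2) := by
      have b1 : ∑ z1, ∑ z2, ItS g ls T (kk ρ) z1 z2 ≤
          B ^ 2 * ∑ u, ∑ u', d T u * d T u' * ItS g ls T (kk ρ) u u' := by
        rw [Finset.mul_sum]
        apply Finset.sum_le_sum
        intro u _
        rw [Finset.mul_sum]
        apply Finset.sum_le_sum
        intro u' _
        have b2 := ItS_nonneg g hls0 (kk_nonneg h0 h1) T u u'
        have b3 : 1 ≤ (B * d T u) * (B * d T u') := by nlinarith [hBd u, hBd u']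
        calc ItS g ls T (kk ρ) u u' = 1 * ItS g ls T (kk ρ) u u' := (one_mul _).symm
          _ ≤ ((B * d T u) * (B * d T u')) * ItS g ls T (kk ρ) u u' := mul_le_mul_of_nonneg_right b3 b2
          _ = _ := by ring
      have b2 := ItS_push g d hls0 hη hδ hd hd2 hp hg (kk_nonneg h0 h1 (n := n)) T
      rw [sum_dd_kk] at b2
      exact b1.trans (mul_le_mul_of_nonneg_left b2 (by positivity))
    calc _ ≤ ∑ z1, ∑ z2, ((if hammingDist z1 z2 < m then ((1 + ρ) / 2) ^ n else 0) + ItS g ls T (kk ρ) z1 z2) :=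
          Finset.sum_le_sum (fun z1 _ => Finset.sum_le_sum (fun z2 _ => a1 z1 z2))
      _ = (∑ z1 : Q n, ∑ z2 : Q n, (if hammingDist z1 z2 < m then ((1 + ρ) / 2) ^ n else 0)) +
          ∑ z1, ∑ z2, ItS g ls T (kk ρ) z1 z2 := by
          simp_rw [Finset.sum_add_distrib]
      _ ≤ 2 ^ n * (Nr * ((1 + ρ) / 2) ^ n) + B ^ 2 * (c ^ T * E2) := by
          apply add_le_add _ a2
          rw [← hcube, Finset.sum_mul]
          apply Finset.sum_le_sum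
          intro z1 _
          rw [← Finset.sum_filter, Finset.sum_const, nsmul_eq_mul, one_mul]
          exact mul_le_mul_of_nonneg_right (hN z1) (by positivity)
  -- single part
  have hsingle : E2 - 2 * (B * (1 + δ) ^ T - 1) * 2 ^ n ≤ ∑ z, Ks g T (ff ρ (d 0)) z := by
    have b1 : ∑ u, d T u * Ks g T (fun x => 2 - ff ρ (d 0) x) u ≤
        (1 + δ) ^ T * ∑ v, d 0 v * (2 - ff ρ (d 0) v) :=
      Ks_push g d hδ hp (fun u => by linarith [ff_le h0 h1 (hd2 0) u]) T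
    have b2 : ∑ u, Ks g T (fun x => 2 - ff ρ (d 0) x) u ≤ B * ∑ u, d T u * Ks g T (fun x => 2 - ff ρ (d 0) x) u := by
      rw [Finset.mul_sum]
      apply Finset.sum_le_sum
      intro u _
      have b3 := Ks_nonneg g (f := fun x => 2 - ff ρ (d 0) x) (fun u => by linarith [ff_le h0 h1 (hd2 0) u]) T u
      nlinarith [hBd u]
    have b3 : ∑ v, d 0 v * (2 - ff ρ (d 0) v) = 2 * 2 ^ n - E2 := by
      have : ∀ v, d 0 v * (2 - ff ρ (d 0) v) = 2 * d 0 v - d 0 v * ff ρ (d 0) v := by intro v; ring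
      simp_rw [this]
      rw [Finset.sum_sub_distrib, ← Finset.mul_sum, hs, sum_d_ff]
    have b4 : ∑ u, Ks g T (fun x => 2 - ff ρ (d 0) x) u = 2 * 2 ^ n - ∑ z, Ks g T (ff ρ (d 0)) z := by
      simp_rw [Ks_const_sub]
      rw [Finset.sum_sub_distrib, Finset.sum_const, Finset.card_univ, nsmul_eq_mul]
      simp
      ring
    rw [b3] at b1
    rw [b4] at b2
    have b5 : 2 * 2 ^ n - ∑ z, Ks g T (ff ρ (d 0)) z ≤ B * ((1 + δ) ^ T * (2 * 2 ^ n - E2)) :=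
      b2.trans (mul_le_mul_of_nonneg_left b1 (by linarith))
    have b6 : 1 ≤ B * (1 + δ) ^ T := by
      have : 1 ≤ (1 + δ) ^ T := one_le_pow₀ (by linarith)
      nlinarith
    nlinarith [mul_nonneg (sub_nonneg.2 b6) hE2nn]
  have hBc : 1 ≤ B ^ 2 * c ^ T := by
    have h2 : 1 ≤ c ^ T := one_le_pow₀ hc1
    have h3 : 1 ≤ B ^ 2 := one_le_pow₀ hB
    nlinarith
  have hfin : (B ^ 2 * c ^ T - 1) * E2 ≤ (B ^ 2 * c ^ T - 1) * (4 * 2 ^ n) :=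
    mul_le_mul_of_nonneg_left hE2le (by linarith)
  nlinarith [hpair, hsingle, hfin]

end loadbound

end H29Str
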