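import Pool.Agent.H29Str.Params
set_option autoImplicit false
set_option linter.unusedSectionVars false
namespace H29Str
open Finset Filter Topology

lemma ev_pow_exp (k : ℕ) {lam c : ℝ} (hlam : 0 < lam) (hc : 0 < c) :
    ∀ᶠ x : ℝ in atTop, x ^ k * Real.exp (-(lam * x)) ≤ c := by
  have h1 := Real.tendsto_pow_mul_exp_neg_atTop_nhds_zero k
  have h2 : Tendsto (fun x : ℝ => lam * x) atTop atTop := tendsto_id.const_mul_atTop hlam
  have h3 := h1.comp h2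
  have h4 : Tendsto (fun x : ℝ => (1 / lam ^ k) * ((lam * x) ^ k * Real.exp (-(lam * x)))) atTop (𝓝 ((1 / lam ^ k) * 0)) :=
    Tendsto.const_mul _ h3
  rw [mul_zero] at h4
  have h5 := h4.eventually (gt_mem_nhds hc)
  filter_upwards [h5] with x hx
  have : (1 / lam ^ k) * ((lam * x) ^ k * Real.exp (-(lam * x))) = x ^ k * Real.exp (-(lam * x)) := by
    rw [mul_pow]; field_simp
  rw [this] at hx
  exact hx.le

lemma tendsto_x : Tendsto (fun n : ℕ => (n : ℝ) ^ ((1:ℝ) / 8)) atTop atTop :=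
  (tendsto_rpow_atTop (by norm_num)).comp tendsto_natCast_atTop_atTop

lemma x_pow8 (n : ℕ) : ((n : ℝ) ^ ((1:ℝ) / 8)) ^ 8 = n := by
  rw [← Real.rpow_natCast, ← Real.rpow_mul (Nat.cast_nonneg n)]
  norm_num

lemma x_pow4 (n : ℕ) : ((n : ℝ) ^ ((1:ℝ) / 8)) ^ 4 = Real.sqrt n := by
  rw [← Real.rpow_natCast, ← Real.rpow_mul (Nat.cast_nonneg n), Real.sqrt_eq_rpow]
  norm_num

/-- near part: n * 3 n^m ((1+ρ)/2)^n is small -/
lemma near_small {ε c : ℝ} (hε : 0 < ε) (hc : 0 < c) :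
    ∀ᶠ n : ℕ in atTop, (n : ℝ) * (3 * (n : ℝ) ^ (⌈(n : ℝ) ^ ((1:ℝ) / 8)⌉₊) *
      ((1 + (1 - ε / (16 * Real.sqrt n))) / 2) ^ n) ≤ c := by
  have h1 : ∀ᶠ x : ℝ in atTop, x ^ 8 * Real.exp (-(1 * x)) ≤ c / 3 := ev_pow_exp 8 one_pos (by positivity)
  have h2 : ∀ᶠ x : ℝ in atTop, 1 ≤ x ∧ 32 * 17 / ε ≤ x ∧ ε ≤ x :=
    (eventually_ge_atTop 1).and ((eventually_ge_atTop _).and (eventually_ge_atTop _))
  filter_upwards [tendsto_x.eventually h1, tendsto_x.eventually h2] with n hn1 hn2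
  obtain ⟨hx1, hx2, hx3⟩ := hn2
  set x : ℝ := (n : ℝ) ^ ((1:ℝ) / 8) with hx
  have hx8 : x ^ 8 = n := x_pow8 n
  have hx4 : x ^ 4 = Real.sqrt n := x_pow4 n
  have hxpos : 0 < x := by linarith
  have hnpos : (0:ℝ) < n := by rw [← hx8]; positivity
  have hsq : 0 < Real.sqrt n := by rw [← hx4]; positivity
  -- factor 1
  have a1 : (n : ℝ) ^ (⌈x⌉₊) ≤ Real.exp (8 * x * (x + 1)) := by
    have b1 : (⌈x⌉₊ : ℝ) ≤ x + 1 := (Nat.ceil_lt_add_one hxpos.le).le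
    have b2 : (n : ℝ) ≤ Real.exp (8 * x) := by
      rw [← hx8]
      have : x ≤ Real.exp x := by linarith [Real.add_one_le_exp x]
      calc x ^ 8 ≤ (Real.exp x) ^ 8 := pow_le_pow_left₀ hxpos.le this 8
        _ = Real.exp (8 * x) := by rw [← Real.exp_nat_mul]; norm_num
    calc (n : ℝ) ^ (⌈x⌉₊) ≤ (Real.exp (8 * x)) ^ (⌈x⌉₊) := pow_le_pow_left₀ hnpos.le b2 _
      _ = Real.exp (⌈x⌉₊ * (8 * x)) := by rw [← Real.exp_nat_mul]
      _ ≤ Real.exp (8 * x * (x + 1)) := by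
          apply Real.exp_le_exp.2
          nlinarith
  have hx14 : x ≤ x ^ 4 := by
    calc x = x ^ 1 := (pow_one x).symm
      _ ≤ x ^ 4 := pow_le_pow_right₀ hx1 (by norm_num)
  have hfrac : ε / (16 * Real.sqrt n) ≤ 1 := by
    rw [div_le_one (by positivity), ← hx4]
    linarith
  have hfrac0 : 0 ≤ ε / (16 * Real.sqrt n) := by positivity
  have a2 : ((1 + (1 - ε / (16 * Real.sqrt n))) / 2) ^ n ≤ Real.exp (-(ε * x ^ 4 / 32)) := by
    have b1 : (1 + (1 - ε / (16 * Real.sqrt n))) / 2 = 1 - ε / (32 * Real.sqrt n) := by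
      field_simp; ring
    have b2 : 1 - ε / (32 * Real.sqrt n) ≤ Real.exp (-(ε / (32 * Real.sqrt n))) := by
      have := Real.add_one_le_exp (-(ε / (32 * Real.sqrt n)))
      linarith
    calc ((1 + (1 - ε / (16 * Real.sqrt n))) / 2) ^ n ≤ (Real.exp (-(ε / (32 * Real.sqrt n)))) ^ n := by
          apply pow_le_pow_left₀
          · linarith
          · rw [b1]; exact b2
      _ = Real.exp (n * (-(ε / (32 * Real.sqrt n)))) := by rw [← Real.exp_nat_mul]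
      _ = Real.exp (-(ε * x ^ 4 / 32)) := by
          congr 1
          rw [hx4]
          have : (n:ℝ) = Real.sqrt n * Real.sqrt n := (Real.mul_self_sqrt hnpos.le).symm
          field_simp
          nlinarith
  have a3 : 8 * x * (x + 1) + -(ε * x ^ 4 / 32) ≤ -(1 * x) := by
    have b0 : 32 * 17 ≤ x * ε := (div_le_iff₀ hε).1 hx2
    have b1 : 17 * x ^ 2 ≤ ε * x ^ 4 / 32 := by
      have : ε * x ^ 4 = (x * ε) * (x * x ^ 2) := by ring
      rw [this]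
      have b2 : 32 * 17 * (1 * x ^ 2) ≤ (x * ε) * (x * x ^ 2) := by
        apply mul_le_mul b0 _ (by positivity) (by positivity)
        exact mul_le_mul_of_nonneg_right hx1 (by positivity)
      linarith
    nlinarith
  calc (n : ℝ) * (3 * (n : ℝ) ^ (⌈x⌉₊) * ((1 + (1 - ε / (16 * Real.sqrt n))) / 2) ^ n)
      ≤ (n:ℝ) * (3 * Real.exp (8 * x * (x + 1)) * Real.exp (-(ε * x ^ 4 / 32))) := by
        apply mul_le_mul_of_nonneg_left _ hnpos.le
        apply mul_le_mul _ a2 _ (by positivity)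
        · linarith
        · apply pow_nonneg; linarith
    _ = 3 * (x ^ 8 * Real.exp (8 * x * (x + 1) + -(ε * x ^ 4 / 32))) := by
        rw [Real.exp_add, hx8]; ring
    _ ≤ 3 * (x ^ 8 * Real.exp (-(1 * x))) := by
        apply mul_le_mul_of_nonneg_left _ (by norm_num)
        apply mul_le_mul_of_nonneg_left _ (by positivity)
        exact Real.exp_le_exp.2 a3
    _ ≤ 3 * (c / 3) := mul_le_mul_of_nonneg_left hn1 (by norm_num)
    _ = c := by ring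

/-- far part -/
lemma far_small {c η : ℝ} (hc : 0 < c) (hη : 0 < η) (D r : ℕ) (hD : 1 ≤ D) :
    ∀ᶠ n : ℕ in atTop, (n : ℝ) * (4 * n * Real.exp (-(n:ℝ)) + 15 * D / (η * n ^ 7) +
      (D * n ^ 11) * ((r : ℝ) / (r + 1)) ^ (⌈(n : ℝ) ^ ((1:ℝ) / 8)⌉₊) * (16 / η ^ 2)) ≤ c := by
  have hD0 : (0:ℝ) < D := by exact_mod_cast hD
  have h1 : ∀ᶠ n : ℕ in atTop, (n:ℝ) ^ 2 * Real.exp (-(1 * (n:ℝ))) ≤ c / 12 :=
    tendsto_natCast_atTop_atTop.eventually (ev_pow_exp 2 one_pos (by positivity))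
  have h2 : ∀ᶠ n : ℕ in atTop, 15 * D / η * (3 / c) ≤ (n:ℝ) ∧ (1:ℝ) ≤ n :=
    tendsto_natCast_atTop_atTop.eventually ((eventually_ge_atTop _).and (eventually_ge_atTop _))
  have h3 : ∀ᶠ x : ℝ in atTop, x ^ 96 * Real.exp (-((1 / ((r:ℝ) + 1)) * x)) ≤ c / 3 / (D * (16 / η ^ 2)) :=
    ev_pow_exp 96 (by positivity) (by positivity)
  filter_upwards [h1, h2, tendsto_x.eventually h3] with n hn1 hn2 hn3
  obtain ⟨hn2, hn1'⟩ := hn2
  set x : ℝ := (n : ℝ) ^ ((1:ℝ) / 8) with hx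
  have hx8 : x ^ 8 = n := x_pow8 n
  have hnpos : (0:ℝ) < n := by linarith
  have hxpos : 0 < x := Real.rpow_pos_of_pos hnpos _
  have a1 : (n:ℝ) * (4 * n * Real.exp (-(n:ℝ))) ≤ c / 3 := by
    rw [one_mul] at hn1
    nlinarith
  have a2 : (n:ℝ) * (15 * D / (η * n ^ 7)) ≤ c / 3 := by
    have b1 : (n:ℝ) * (15 * D / (η * n ^ 7)) = 15 * D / η * (1 / n ^ 6) := by field_simp
    have b2 : 1 / (n:ℝ) ^ 6 ≤ 1 / n := by
      apply one_div_le_one_div_of_le hnpos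
      calc (n:ℝ) = n ^ 1 := (pow_one _).symm
        _ ≤ n ^ 6 := pow_le_pow_right₀ hn1' (by norm_num)
    rw [b1]
    calc 15 * D / η * (1 / (n:ℝ) ^ 6) ≤ 15 * D / η * (1 / n) := mul_le_mul_of_nonneg_left b2 (by positivity)
      _ ≤ c / 3 := by
        rw [mul_one_div, div_le_iff₀ hnpos]
        have : 15 * D / η = (c / 3) * (15 * D / η * (3 / c)) := by field_simp
        rw [this]
        exact mul_le_mul_of_nonneg_left hn2 (by positivity)
  have a3 : (n:ℝ) * ((D * n ^ 11) * ((r : ℝ) / (r + 1)) ^ (⌈x⌉₊) * (16 / η ^ 2)) ≤ c / 3 := by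
    have b1 : ((r : ℝ) / (r + 1)) ^ (⌈x⌉₊) ≤ Real.exp (-((1 / ((r:ℝ) + 1)) * x)) := by
      have c1 : (r : ℝ) / (r + 1) ≤ Real.exp (-(1 / ((r:ℝ) + 1))) := by
        have := Real.add_one_le_exp (-(1 / ((r:ℝ) + 1)))
        have c2 : -(1 / ((r:ℝ) + 1)) + 1 = (r : ℝ) / (r + 1) := by field_simp; ring
        linarith
      calc ((r : ℝ) / (r + 1)) ^ (⌈x⌉₊) ≤ (Real.exp (-(1 / ((r:ℝ) + 1)))) ^ (⌈x⌉₊) :=
            pow_le_pow_left₀ (by positivity) c1 _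
        _ = Real.exp (⌈x⌉₊ * (-(1 / ((r:ℝ) + 1)))) := by rw [← Real.exp_nat_mul]
        _ ≤ _ := by
            apply Real.exp_le_exp.2
            have c3 : x ≤ ⌈x⌉₊ := Nat.le_ceil x
            have c4 : 0 < 1 / ((r:ℝ) + 1) := by positivity
            nlinarith
    calc (n:ℝ) * ((D * n ^ 11) * ((r : ℝ) / (r + 1)) ^ (⌈x⌉₊) * (16 / η ^ 2))
        ≤ (n:ℝ) * ((D * n ^ 11) * Real.exp (-((1 / ((r:ℝ) + 1)) * x)) * (16 / η ^ 2)) := by
          gcongr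
      _ = (D * (16 / η ^ 2)) * (x ^ 96 * Real.exp (-((1 / ((r:ℝ) + 1)) * x))) := by
          have : x ^ 96 = (n:ℝ) ^ 12 := by rw [← hx8]; ring
          rw [this]; ring
      _ ≤ (D * (16 / η ^ 2)) * (c / 3 / (D * (16 / η ^ 2))) := mul_le_mul_of_nonneg_left hn3 (by positivity)
      _ = c / 3 := by field_simp
  calc _ = (n:ℝ) * (4 * n * Real.exp (-(n:ℝ))) + (n:ℝ) * (15 * D / (η * n ^ 7)) +
        (n:ℝ) * ((D * n ^ 11) * ((r : ℝ) / (r + 1)) ^ (⌈x⌉₊) * (16 / η ^ 2)) := by ring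
    _ ≤ c / 3 + c / 3 + c / 3 := by linarith
    _ = c := by ring

end H29Str
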