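import Pool.Agent.H29Str.Flow
set_option autoImplicit false
set_option linter.unusedSectionVars false
namespace H29Str
open Finset
variable {n : ℕ} [NeZero n] {M : ℕ} [NeZero M]

/-- step map of the random-scan chain -/
def Gm (c : Q n → Fin n → ℕ) (ω : Fin n × Fin M) (u : Q n) : Q n :=
  if (ω.2 : ℕ) < c u ω.1 then flip ω.1 u else u

lemma flip_comm (i j : Fin n) (v : Q n) : flip i (flip j v) = flip j (flip i v) := by
  by_cases h : i = j
  · rw [h]
  · unfold flip
    funext k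
    by_cases hk : k = i
    · subst hk
      simp [Function.update, h]
    · by_cases hk2 : k = j
      · subst hk2
        simp [Function.update, hk]
      · simp [Function.update, hk, hk2]

lemma count_lt {c : ℕ} (hc : c ≤ M) : ((univ.filter (fun θ : Fin M => (θ : ℕ) < c)).card : ℝ) = c := by
  have : (univ.filter (fun θ : Fin M => (θ : ℕ) < c)).card = c := by
    rw [Fin.card_filter_val_lt]
    exact min_eq_right hc
  exact_mod_cast this

lemma count_diff {c c' : ℕ} (hc : c ≤ M) (hc' : c' ≤ M) :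
    ∑ θ : Fin M, (if ((θ : ℕ) < c ↔ (θ : ℕ) < c') then (0:ℝ) else 1) = |(c:ℝ) - c'| := by
  wlog h : c' ≤ c generalizing c c' with H
  · rw [abs_sub_comm, ← H hc' hc (by omega)]
    apply Finset.sum_congr rfl
    intro θ _
    congr 1
    exact propext (iff_comm)
  · have h1 : ∀ θ : Fin M, (if ((θ : ℕ) < c ↔ (θ : ℕ) < c') then (0:ℝ) else 1) =
        (if (θ:ℕ) < c then 1 else 0) - (if (θ:ℕ) < c' then 1 else 0) := by
      intro θ
      by_cases a : (θ:ℕ) < c'
      · have b : (θ:ℕ) < c := by omega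
        simp [a, b]
      · by_cases b : (θ:ℕ) < c
        · simp [a, b]
        · simp [a, b]
    simp_rw [h1]
    rw [Finset.sum_sub_distrib, ← Finset.sum_filter, ← Finset.sum_filter]
    simp only [Finset.sum_const, nsmul_eq_mul, mul_one]
    rw [count_lt hc, count_lt hc', abs_of_nonneg]
    have : (c':ℝ) ≤ c := by exact_mod_cast h
    linarith

lemma sum_Gm (c : Q n → Fin n → ℕ) (hc : ∀ u j, c u j ≤ M) (f : Q n → ℝ) (u : Q n) :
    ∑ ω : Fin n × Fin M, f (Gm c ω u) =
      ∑ j, ((c u j : ℝ) * f (flip j u) + ((M:ℝ) - c u j) * f u) := by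
  rw [Fintype.sum_prod_type]
  apply Finset.sum_congr rfl
  intro j _
  have h1 : ∀ θ : Fin M, f (Gm c (j, θ) u) = (if (θ:ℕ) < c u j then f (flip j u) else f u) := by
    intro θ
    unfold Gm
    simp only
    split_ifs <;> rfl
  simp_rw [h1]
  rw [Finset.sum_ite]
  simp only [Finset.sum_const, nsmul_eq_mul]
  rw [count_lt (hc u j)]
  congr 2
  have h2 := Finset.card_filter_add_card_filter_not (s := (univ : Finset (Fin M))) (fun θ : Fin M => (θ:ℕ) < c u j)
  rw [Finset.card_univ, Fintype.card_fin] at h2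
  have h3 : ((univ.filter (fun θ : Fin M => (θ : ℕ) < c u j)).card : ℝ) +
      ((univ.filter (fun θ : Fin M => ¬ (θ : ℕ) < c u j)).card : ℝ) = M := by exact_mod_cast h2
  rw [count_lt (hc u j)] at h3
  linarith

lemma card_Om : (Fintype.card (Fin n × Fin M) : ℝ) = n * M := by
  rw [Fintype.card_prod, Fintype.card_fin, Fintype.card_fin]; push_cast; ring

lemma npos : (0:ℝ) < n := by exact_mod_cast Nat.pos_of_ne_zero (NeZero.ne n)
lemma Mpos : (0:ℝ) < M := by exact_mod_cast Nat.pos_of_ne_zero (NeZero.ne M)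

/-- one-step path coupling -/
lemma couple (g : ℕ → (Fin n × Fin M) → Q n → Q n) (c : Q n → Fin n → ℕ) (t : ℕ)
    (u : Q n) (a : Fin n) (ω : Fin n × Fin M) :
    Dl g t (Gm c ω u) (Gm c ω (flip a u)) ≤ Dl g t (Gm c ω u) (flip a (Gm c ω u)) +
      (if ((ω.2 : ℕ) < c u ω.1 ↔ (ω.2 : ℕ) < c (flip a u) ω.1) then (0:ℝ) else 1) *
        Dl g t (flip a u) (flip ω.1 (flip a u)) := by
  unfold Gm
  by_cases h1 : (ω.2 : ℕ) < c u ω.1
  · by_cases h2 : (ω.2 : ℕ) < c (flip a u) ω.1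
    · simp only [h1, h2, if_true, zero_mul, add_zero]
      rw [flip_comm ω.1 a u]
    · simp only [h1, h2, if_true, if_false, iff_false, not_true, one_mul]
      have := Dl_triangle g t (flip ω.1 u) (flip a (flip ω.1 u)) (flip a u)
      rw [flip_comm a ω.1 u] at this
      rw [flip_comm a ω.1 u, Dl_comm g t (flip a u)]
      exact this
  · by_cases h2 : (ω.2 : ℕ) < c (flip a u) ω.1
    · simp only [h1, h2, if_true, if_false, false_iff, not_true, one_mul]
      exact Dl_triangle g t u (flip a u) (flip ω.1 (flip a u))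
    · simp only [h1, h2, if_false, if_true, zero_mul, add_zero]
      exact le_of_eq rfl

lemma growth (g : ℕ → (Fin n × Fin M) → Q n → Q n) (c : Q n → Fin n → ℕ) (t : ℕ) (hg : g t = Gm c)
    (hc : ∀ u j, c u j ≤ M) {γ S : ℝ} (hγ : 0 < γ) (hS0 : 0 ≤ S)
    (hα : ∀ u, ∑ a, ∑ j, (|(c u j : ℝ) - c (flip a u) j| / M) ^ 2 ≤ (n * γ) ^ 2)
    (hS : ∀ u, ∑ a, (Dl g t u (flip a u)) ^ 2 ≤ S) (u : Q n) :
    ∑ a, (Dl g (t + 1) u (flip a u)) ^ 2 ≤ (1 + γ) ^ 2 * S := by
  have hn : (0:ℝ) < n := npos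
  have hM : (0:ℝ) < M := Mpos
  set X : Fin n → ℝ := fun a => (∑ ω : Fin n × Fin M, Dl g t (Gm c ω u) (flip a (Gm c ω u))) / (n * M) with hX
  set Y : Fin n → ℝ := fun a => (1 / n) * ∑ j, (|(c u j : ℝ) - c (flip a u) j| / M) *
    Dl g t (flip a u) (flip j (flip a u)) with hY
  have hX0 : ∀ a, 0 ≤ X a := fun a => div_nonneg (Finset.sum_nonneg (fun ω _ => Dl_nonneg _ _ _ _)) (by positivity)
  have hY0 : ∀ a, 0 ≤ Y a := fun a => mul_nonneg (by positivity)
    (Finset.sum_nonneg (fun j _ => mul_nonneg (by positivity) (Dl_nonneg _ _ _ _)))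
  have h1 : ∀ a, Dl g (t + 1) u (flip a u) ≤ X a + Y a := by
    intro a
    have e1 : Dl g (t + 1) u (flip a u) =
        (∑ ω : Fin n × Fin M, Dl g t (Gm c ω u) (Gm c ω (flip a u))) / (n * M) := by
      show sh (g t) (Dl g t) u (flip a u) = _
      unfold sh
      rw [hg, card_Om]
    rw [e1]
    have e2 := Finset.sum_le_sum (fun (ω : Fin n × Fin M) (_ : ω ∈ univ) => couple g c t u a ω)
    rw [Finset.sum_add_distrib] at e2
    have e3 : ∑ ω : Fin n × Fin M, (if ((ω.2 : ℕ) < c u ω.1 ↔ (ω.2 : ℕ) < c (flip a u) ω.1) then (0:ℝ) else 1) *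
        Dl g t (flip a u) (flip ω.1 (flip a u)) =
        ∑ j, |(c u j : ℝ) - c (flip a u) j| * Dl g t (flip a u) (flip j (flip a u)) := by
      rw [Fintype.sum_prod_type]
      apply Finset.sum_congr rfl
      intro j _
      simp only
      rw [← Finset.sum_mul, count_diff (hc u j) (hc _ j)]
    rw [e3] at e2
    have e4 : X a + Y a = ((∑ ω : Fin n × Fin M, Dl g t (Gm c ω u) (flip a (Gm c ω u))) +
        ∑ j, |(c u j : ℝ) - c (flip a u) j| * Dl g t (flip a u) (flip j (flip a u))) / (n * M) := by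
      rw [hX, hY, add_div]
      simp only
      congr 1
      have : ∀ j, |(c u j : ℝ) - c (flip a u) j| / M * Dl g t (flip a u) (flip j (flip a u)) =
        (1 / M) * (|(c u j : ℝ) - c (flip a u) j| * Dl g t (flip a u) (flip j (flip a u))) := by
        intro j; ring
      simp_rw [this]
      rw [← Finset.mul_sum]
      field_simp
    rw [e4]
    exact div_le_div_of_nonneg_right e2 (by positivity)
  have h2 : ∀ a, (Dl g (t + 1) u (flip a u)) ^ 2 ≤ (1 + γ) * X a ^ 2 + (1 + 1 / γ) * Y a ^ 2 := by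
    intro a
    have b1 : (Dl g (t + 1) u (flip a u)) ^ 2 ≤ (X a + Y a) ^ 2 :=
      pow_le_pow_left₀ (Dl_nonneg _ _ _ _) (h1 a) 2
    have b2 : (1 + γ) * X a ^ 2 + (1 + 1 / γ) * Y a ^ 2 - (X a + Y a) ^ 2 =
        (1 / γ) * (γ * X a - Y a) ^ 2 := by
      field_simp
      ring
    have b3 : 0 ≤ (1 / γ) * (γ * X a - Y a) ^ 2 := by positivity
    linarith
  have h3 : ∑ a, X a ^ 2 ≤ S := by
    have c1 : ∀ a, X a ^ 2 ≤ (∑ ω : Fin n × Fin M, (Dl g t (Gm c ω u) (flip a (Gm c ω u))) ^ 2) / (n * M) := by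
      intro a
      have := sq_sum_le_card_mul_sum_sq (s := (univ : Finset (Fin n × Fin M)))
        (f := fun ω => Dl g t (Gm c ω u) (flip a (Gm c ω u)))
      rw [Finset.card_univ, card_Om] at this
      rw [hX]
      simp only
      rw [div_pow, div_le_div_iff₀ (by positivity) (by positivity)]
      nlinarith [mul_le_mul_of_nonneg_right this (show (0:ℝ) ≤ n * M by positivity)]
    calc ∑ a, X a ^ 2 ≤ ∑ a, (∑ ω : Fin n × Fin M, (Dl g t (Gm c ω u) (flip a (Gm c ω u))) ^ 2) / (n * M) :=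
          Finset.sum_le_sum (fun a _ => c1 a)
      _ = (∑ ω : Fin n × Fin M, ∑ a, (Dl g t (Gm c ω u) (flip a (Gm c ω u))) ^ 2) / (n * M) := by
          rw [← Finset.sum_div, Finset.sum_comm]
      _ ≤ (∑ ω : Fin n × Fin M, S) / (n * M) := by
          apply div_le_div_of_nonneg_right _ (by positivity)
          exact Finset.sum_le_sum (fun ω _ => hS _)
      _ = S := by
          rw [Finset.sum_const, Finset.card_univ, nsmul_eq_mul, card_Om]
          field_simp
  have h4 : ∑ a, Y a ^ 2 ≤ γ ^ 2 * S := by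
    have c1 : ∀ a, Y a ^ 2 ≤ (1 / n) ^ 2 * ((∑ j, (|(c u j : ℝ) - c (flip a u) j| / M) ^ 2) * S) := by
      intro a
      have cs := Finset.sum_mul_sq_le_sq_mul_sq (univ : Finset (Fin n))
        (fun j => |(c u j : ℝ) - c (flip a u) j| / M) (fun j => Dl g t (flip a u) (flip j (flip a u)))
      rw [hY]
      simp only
      rw [mul_pow]
      apply mul_le_mul_of_nonneg_left _ (by positivity)
      refine cs.trans ?_
      apply mul_le_mul_of_nonneg_left (hS _) (Finset.sum_nonneg (fun j _ => by positivity))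
    calc ∑ a, Y a ^ 2 ≤ ∑ a, (1 / (n:ℝ)) ^ 2 * ((∑ j, (|(c u j : ℝ) - c (flip a u) j| / M) ^ 2) * S) :=
          Finset.sum_le_sum (fun a _ => c1 a)
      _ = (1 / (n:ℝ)) ^ 2 * ((∑ a, ∑ j, (|(c u j : ℝ) - c (flip a u) j| / M) ^ 2) * S) := by
          rw [← Finset.mul_sum, ← Finset.sum_mul]
      _ ≤ (1 / (n:ℝ)) ^ 2 * ((n * γ) ^ 2 * S) := by
          apply mul_le_mul_of_nonneg_left _ (by positivity)
          exact mul_le_mul_of_nonneg_right (hα u) hS0
      _ = γ ^ 2 * S := by field_simp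
  calc ∑ a, (Dl g (t + 1) u (flip a u)) ^ 2 ≤ ∑ a, ((1 + γ) * X a ^ 2 + (1 + 1 / γ) * Y a ^ 2) :=
        Finset.sum_le_sum (fun a _ => h2 a)
    _ = (1 + γ) * ∑ a, X a ^ 2 + (1 + 1 / γ) * ∑ a, Y a ^ 2 := by
        rw [Finset.sum_add_distrib, Finset.mul_sum, Finset.mul_sum]
    _ ≤ (1 + γ) * S + (1 + 1 / γ) * (γ ^ 2 * S) := by
        apply add_le_add
        · exact mul_le_mul_of_nonneg_left h3 (by positivity)
        · exact mul_le_mul_of_nonneg_left h4 (by positivity)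
    _ = (1 + γ) ^ 2 * S := by
        field_simp
        ring

/-- displacement of one step measured by the flow distance -/
lemma e_bound (g : ℕ → (Fin n × Fin M) → Q n → Q n) (c : Q n → Fin n → ℕ) (t : ℕ) (hg : g t = Gm c)
    (hc : ∀ u j, c u j ≤ M) {χ S : ℝ} (hχ : 0 ≤ χ) (hS0 : 0 ≤ S)
    (hq : ∀ u, ∑ j, ((c u j : ℝ) / M) ^ 2 ≤ (n * χ) ^ 2)
    (hS : ∀ u, ∑ a, (Dl g t u (flip a u)) ^ 2 ≤ S) (u : Q n) :
    2 * ((∑ ω, Dl g t (g t ω u) u) / Fintype.card (Fin n × Fin M)) ≤ 2 * (χ * Real.sqrt S) := by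
  have hn : (0:ℝ) < n := npos
  have hM : (0:ℝ) < M := Mpos
  apply mul_le_mul_of_nonneg_left _ (by norm_num)
  rw [hg, card_Om, sum_Gm c hc (fun x => Dl g t x u) u]
  simp only [Dl_self, mul_zero, add_zero]
  have e1 : (∑ j, (c u j : ℝ) * Dl g t (flip j u) u) / (n * M) =
      (1 / n) * ∑ j, ((c u j : ℝ) / M) * Dl g t u (flip j u) := by
    have : ∀ j, ((c u j : ℝ) / M) * Dl g t u (flip j u) = (1 / M) * ((c u j : ℝ) * Dl g t (flip j u) u) := by
      intro j; rw [Dl_comm g t u]; ring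
    simp_rw [this]
    rw [← Finset.mul_sum]
    field_simp
  rw [e1]
  have cs := Finset.sum_mul_sq_le_sq_mul_sq (univ : Finset (Fin n))
        (fun j => (c u j : ℝ) / M) (fun j => Dl g t u (flip j u))
  have h2 : (∑ j, ((c u j : ℝ) / M) * Dl g t u (flip j u)) ^ 2 ≤ (n * χ * Real.sqrt S) ^ 2 := by
    refine cs.trans ?_
    rw [mul_pow (n * χ), Real.sq_sqrt hS0]
    exact mul_le_mul (hq u) (hS u) (Finset.sum_nonneg (fun j _ => by positivity)) (by positivity)
  have h3 := abs_le_of_sq_le_sq h2 (by positivity)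
  have h4 := (abs_le.1 h3).2
  calc (1 / (n:ℝ)) * ∑ j, ((c u j : ℝ) / M) * Dl g t u (flip j u) ≤ (1 / (n:ℝ)) * (n * χ * Real.sqrt S) :=
        mul_le_mul_of_nonneg_left h4 (by positivity)
    _ = χ * Real.sqrt S := by field_simp

end H29Str
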