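import Mathlib

set_option autoImplicit false

/-! Definitions for the proof of S07083 (average stretch o(√n)). -/

namespace H29Str

/-- The discrete cube. -/
abbrev Q (n : ℕ) := Fin n → Bool

/-- Flip coordinate `j`. -/
def flip {n : ℕ} (j : Fin n) (v : Q n) : Q n := Function.update v j (!v j)

/-- One-coordinate noise kernel with correlation `ρ`. -/
noncomputable def w (ρ : ℝ) (b c : Bool) : ℝ := if b = c then (1 + ρ) / 2 else (1 - ρ) / 2

/-- Noise kernel on the cube. -/
noncomputable def W {n : ℕ} (ρ : ℝ) (v u : Q n) : ℝ := ∏ i, w ρ (v i) (u i)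

/-- Noise operator. -/
noncomputable def P {n : ℕ} (ρ : ℝ) (h : Q n → ℝ) (v : Q n) : ℝ := ∑ u, W ρ v u * h u

/-- `Tr μ ν c`: the measure `μ` can be transported to `ν` with total Hamming cost at most `c`. -/
def Tr {n : ℕ} (μ ν : Q n → ℝ) (c : ℝ) : Prop :=
  ∃ π : Q n → Q n → ℝ, (∀ x y, 0 ≤ π x y) ∧ (∀ x, ∑ y, π x y = μ x) ∧ (∀ y, ∑ x, π x y = ν y) ∧
    ∑ x, ∑ y, π x y * (hammingDist x y : ℝ) ≤ c

/-- Mask of a point: coordinates with `b i ≠ 0` are forgotten. -/
def mask {n r : ℕ} (b : Fin n → Fin (r + 1)) (z : Q n) : Q n := fun i => if b i = 0 then z i else false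

end H29Str
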