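import Pool.Agent.H29Str.Flow
set_option autoImplicit false
set_option linter.unusedSectionVars false
namespace H29Str
open Finset
variable {n : ℕ} {Ω : Type} [Fintype Ω] [DecidableEq Ω] [Nonempty Ω]

/-- label independent upper bound operator -/
noncomputable def ItS (g : ℕ → Ω → Q n → Q n) (ls : ℝ) : ℕ → (Q n → Q n → ℝ) → Q n → Q n → ℝ
  | 0, h => h
  | (t + 1), h => fun u u' => ls * sh (g t) (ItS g ls t h) u u' + ind (g t) (ItS g ls t h) u u'

/-- single particle iterated operator -/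
noncomputable def Ks (g : ℕ → Ω → Q n → Q n) : ℕ → (Q n → ℝ) → Q n → ℝ
  | 0, f => f
  | (t + 1), f => fun u => (∑ ω, Ks g t f (g t ω u)) / Fintype.card Ω

lemma sh_nonneg (g : Ω → Q n → Q n) {h : Q n → Q n → ℝ} (H : ∀ u u', 0 ≤ h u u') (u u' : Q n) :
    0 ≤ sh g h u u' := div_nonneg (Finset.sum_nonneg (fun ω _ => H _ _)) (Nat.cast_nonneg _)

lemma ind_nonneg (g : Ω → Q n → Q n) {h : Q n → Q n → ℝ} (H : ∀ u u', 0 ≤ h u u') (u u' : Q n) :
    0 ≤ ind g h u u' := div_nonneg (Finset.sum_nonneg (fun ω _ => Finset.sum_nonneg (fun ω' _ => H _ _)))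
      (by positivity)

lemma It_nonneg (g : ℕ → Ω → Q n → Q n) {lam : ℝ} (h0 : 0 ≤ lam) (h1 : lam ≤ 1) {h : Q n → Q n → ℝ}
    (H : ∀ u u', 0 ≤ h u u') (t : ℕ) : ∀ u u', 0 ≤ It g lam t h u u' := by
  induction t with
  | zero => exact H
  | succ t ih =>
    intro u u'
    exact add_nonneg (mul_nonneg h0 (sh_nonneg _ ih _ _)) (mul_nonneg (by linarith) (ind_nonneg _ ih _ _))

lemma It_le_ItS (g : ℕ → Ω → Q n → Q n) {lam ls : ℝ} (h0 : 0 ≤ lam) (h1 : lam ≤ 1) (hls : lam ≤ ls)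
    {h : Q n → Q n → ℝ} (H : ∀ u u', 0 ≤ h u u') (t : ℕ) :
    ∀ u u', It g lam t h u u' ≤ ItS g ls t h u u' := by
  induction t with
  | zero => intro u u'; exact le_of_eq rfl
  | succ t ih =>
    intro u u'
    show lam * sh (g t) (It g lam t h) u u' + (1 - lam) * ind (g t) (It g lam t h) u u' ≤
      ls * sh (g t) (ItS g ls t h) u u' + ind (g t) (ItS g ls t h) u u'
    have a1 := sh_mono (g t) ih u u'
    have a2 := ind_mono (g t) ih u u'
    have a3 := sh_nonneg (g t) (It_nonneg g h0 h1 H t) u u'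
    have a4 := ind_nonneg (g t) (It_nonneg g h0 h1 H t) u u'
    have b1 : lam * sh (g t) (It g lam t h) u u' ≤ ls * sh (g t) (ItS g ls t h) u u' :=
      mul_le_mul hls a1 a3 (h0.trans hls)
    have b2 : (1 - lam) * ind (g t) (It g lam t h) u u' ≤ ind (g t) (ItS g ls t h) u u' := by nlinarith
    linarith

lemma It_le_const (g : ℕ → Ω → Q n → Q n) {lam C : ℝ} (h0 : 0 ≤ lam) (h1 : lam ≤ 1)
    {h : Q n → Q n → ℝ} (H : ∀ u u', h u u' ≤ C) (t : ℕ) :
    ∀ u u', It g lam t h u u' ≤ C := by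
  have hc := card_pos' (Ω := Ω)
  induction t with
  | zero => exact H
  | succ t ih =>
    intro u u'
    show lam * sh (g t) (It g lam t h) u u' + (1 - lam) * ind (g t) (It g lam t h) u u' ≤ C
    have a1 : sh (g t) (It g lam t h) u u' ≤ C := by
      unfold sh
      rw [div_le_iff₀ hc]
      calc _ ≤ ∑ _ω : Ω, C := Finset.sum_le_sum (fun ω _ => ih _ _)
        _ = _ := by rw [Finset.sum_const, Finset.card_univ, nsmul_eq_mul]; ring
    have a2 : ind (g t) (It g lam t h) u u' ≤ C := by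
      unfold ind
      rw [div_le_iff₀ (by positivity)]
      calc _ ≤ ∑ _ω : Ω, ∑ _ω' : Ω, C := Finset.sum_le_sum (fun ω _ => Finset.sum_le_sum (fun ω' _ => ih _ _))
        _ = _ := by simp only [Finset.sum_const, Finset.card_univ, nsmul_eq_mul]; ring
    nlinarith

lemma It_smul (g : ℕ → Ω → Q n → Q n) (lam C : ℝ) (h : Q n → Q n → ℝ) (t : ℕ) :
    ∀ u u', It g lam t (fun x y => C * h x y) u u' = C * It g lam t h u u' := by
  induction t with
  | zero => intro u u'; rfl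
  | succ t ih =>
    intro u u'
    show lam * sh (g t) (It g lam t (fun x y => C * h x y)) u u' +
      (1 - lam) * ind (g t) (It g lam t (fun x y => C * h x y)) u u' =
      C * (lam * sh (g t) (It g lam t h) u u' + (1 - lam) * ind (g t) (It g lam t h) u u')
    unfold sh ind
    simp_rw [ih]
    simp_rw [← Finset.mul_sum]
    ring

lemma It_single (g : ℕ → Ω → Q n → Q n) (lam : ℝ) (f : Q n → ℝ) (t : ℕ) :
    ∀ u u', It g lam t (fun x _ => f x) u u' = Ks g t f u := by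
  have hc := card_pos' (Ω := Ω)
  induction t with
  | zero => intro u u'; rfl
  | succ t ih =>
    intro u u'
    show lam * sh (g t) (It g lam t (fun x _ => f x)) u u' +
      (1 - lam) * ind (g t) (It g lam t (fun x _ => f x)) u u' = (∑ ω, Ks g t f (g t ω u)) / Fintype.card Ω
    unfold sh ind
    simp_rw [ih]
    simp only [Finset.sum_const, Finset.card_univ, nsmul_eq_mul]
    rw [← Finset.mul_sum]
    field_simp
    ring

lemma Ks_nonneg (g : ℕ → Ω → Q n → Q n) {f : Q n → ℝ} (H : ∀ u, 0 ≤ f u) (t : ℕ) :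
    ∀ u, 0 ≤ Ks g t f u := by
  induction t with
  | zero => exact H
  | succ t ih => intro u; exact div_nonneg (Finset.sum_nonneg (fun ω _ => ih _)) (Nat.cast_nonneg _)

lemma Ks_const_sub (g : ℕ → Ω → Q n → Q n) (f : Q n → ℝ) (C : ℝ) (t : ℕ) :
    ∀ u, Ks g t (fun x => C - f x) u = C - Ks g t f u := by
  have hc := card_pos' (Ω := Ω)
  induction t with
  | zero => intro u; rfl
  | succ t ih =>
    intro u
    show (∑ ω, Ks g t (fun x => C - f x) (g t ω u)) / Fintype.card Ω = C - (∑ ω, Ks g t f (g t ω u)) / Fintype.card Ω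
    simp_rw [ih]
    rw [Finset.sum_sub_distrib, Finset.sum_const, Finset.card_univ, nsmul_eq_mul]
    field_simp

section dens
variable (g : ℕ → Ω → Q n → Q n) (d : ℕ → Q n → ℝ) {η δ : ℝ}

/-- the one-step push bound -/
def Push (g : ℕ → Ω → Q n → Q n) (d : ℕ → Q n → ℝ) (δ : ℝ) : Prop :=
  ∀ t (f : Q n → ℝ), (∀ u, 0 ≤ f u) →
    ∑ u, d (t + 1) u * ((∑ ω, f (g t ω u)) / Fintype.card Ω) ≤ (1 + δ) * ∑ v, d t v * f v

lemma Ks_push (hδ : 0 ≤ δ) (hp : Push g d δ) {f : Q n → ℝ} (H : ∀ u, 0 ≤ f u) (t : ℕ) :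
    ∑ u, d t u * Ks g t f u ≤ (1 + δ) ^ t * ∑ v, d 0 v * f v := by
  induction t with
  | zero => simp [Ks]
  | succ t ih =>
    have := hp t (Ks g t f) (Ks_nonneg g H t)
    calc ∑ u, d (t + 1) u * Ks g (t + 1) f u ≤ (1 + δ) * ∑ v, d t v * Ks g t f v := this
      _ ≤ (1 + δ) * ((1 + δ) ^ t * ∑ v, d 0 v * f v) := mul_le_mul_of_nonneg_left ih (by linarith)
      _ = _ := by rw [pow_succ]; ring

lemma ind_push (hδ : 0 ≤ δ) (hd : ∀ t v, 0 ≤ d t v) (hp : Push g d δ) (t : ℕ) {H : Q n → Q n → ℝ}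
    (hH : ∀ u u', 0 ≤ H u u') :
    ∑ u, ∑ u', d (t + 1) u * d (t + 1) u' * ind (g t) H u u' ≤
      (1 + δ) ^ 2 * ∑ v, ∑ v', d t v * d t v' * H v v' := by
  have hc := card_pos' (Ω := Ω)
  have e1 : ∑ u, ∑ u', d (t + 1) u * d (t + 1) u' * ind (g t) H u u' =
      ∑ u, d (t + 1) u * ((∑ ω, (∑ u', d (t + 1) u' * ((∑ ω', H (g t ω u) (g t ω' u')) / Fintype.card Ω))) /
        Fintype.card Ω) := by
    apply Finset.sum_congr rfl
    intro u _
    rw [Finset.sum_comm (s := (univ : Finset Ω))]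
    rw [Finset.sum_div, Finset.mul_sum]
    apply Finset.sum_congr rfl
    intro u' _
    unfold ind
    rw [← Finset.mul_sum, ← Finset.sum_div]
    field_simp
  rw [e1]
  have e2 : ∀ x, ∑ u', d (t + 1) u' * ((∑ ω', H x (g t ω' u')) / Fintype.card Ω) ≤
      (1 + δ) * ∑ v', d t v' * H x v' := fun x => hp t (H x) (hH x)
  calc _ ≤ ∑ u, d (t + 1) u * ((∑ ω, ((1 + δ) * ∑ v', d t v' * H (g t ω u) v')) / Fintype.card Ω) := by
        apply Finset.sum_le_sum
        intro u _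
        apply mul_le_mul_of_nonneg_left _ (hd _ _)
        apply div_le_div_of_nonneg_right _ hc.le
        exact Finset.sum_le_sum (fun ω _ => e2 _)
    _ ≤ (1 + δ) * ∑ v, d t v * ((1 + δ) * ∑ v', d t v' * H v v') := by
        have := hp t (fun x => (1 + δ) * ∑ v', d t v' * H x v') (fun x => mul_nonneg (by linarith)
          (Finset.sum_nonneg (fun v' _ => mul_nonneg (hd _ _) (hH _ _))))
        exact this
    _ = _ := by
        rw [Finset.mul_sum, Finset.mul_sum]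
        apply Finset.sum_congr rfl
        intro v _
        rw [Finset.mul_sum, Finset.mul_sum, Finset.mul_sum]
        rw [Finset.mul_sum]
        apply Finset.sum_congr rfl
        intro v' _
        ring

lemma sum_comp_le (g : Ω → Q n → Q n) (hg : ∀ ω v, (univ.filter (fun u => g ω u = v)).card ≤ 2) (ω : Ω)
    {f : Q n → ℝ} (hf : ∀ v, 0 ≤ f v) : ∑ u, f (g ω u) ≤ 2 * ∑ v, f v := by
  rw [← Finset.sum_fiberwise_of_maps_to (s := univ) (t := univ) (g := fun u => g ω u) (fun _ _ => mem_univ _),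
    Finset.mul_sum]
  apply Finset.sum_le_sum
  intro v _
  have : ∑ u ∈ univ.filter (fun u => g ω u = v), f (g ω u) = (univ.filter (fun u => g ω u = v)).card * f v := by
    rw [Finset.sum_congr rfl (g := fun _ => f v), Finset.sum_const, nsmul_eq_mul]
    intro u hu
    rw [(Finset.mem_filter.1 hu).2]
  rw [this]
  apply mul_le_mul_of_nonneg_right _ (hf v)
  exact_mod_cast hg ω v

lemma sh_push (hη : 0 < η) (hd : ∀ t v, η ≤ d t v) (hd2 : ∀ t v, d t v ≤ 2) (t : ℕ)
    (hg : ∀ ω v, (univ.filter (fun u => g t ω u = v)).card ≤ 2) {H : Q n → Q n → ℝ}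
    (hH : ∀ u u', 0 ≤ H u u') :
    ∑ u, ∑ u', d (t + 1) u * d (t + 1) u' * sh (g t) H u u' ≤
      (16 / η ^ 2) * ∑ v, ∑ v', d t v * d t v' * H v v' := by
  have hc := card_pos' (Ω := Ω)
  have hS : 0 ≤ ∑ v, ∑ v', H v v' := Finset.sum_nonneg (fun v _ => Finset.sum_nonneg (fun v' _ => hH _ _))
  have e1 : ∑ u, ∑ u', d (t + 1) u * d (t + 1) u' * sh (g t) H u u' ≤ 4 * ∑ u, ∑ u', sh (g t) H u u' := by
    rw [Finset.mul_sum]
    apply Finset.sum_le_sum
    intro u _
    rw [Finset.mul_sum]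
    apply Finset.sum_le_sum
    intro u' _
    apply mul_le_mul_of_nonneg_right _ (sh_nonneg _ hH _ _)
    have a1 := hd (t+1) u
    have a2 := hd (t+1) u'
    have a3 := hd2 (t+1) u
    have a4 := hd2 (t+1) u'
    nlinarith
  have e2 : ∑ u, ∑ u', sh (g t) H u u' ≤ 4 * ∑ v, ∑ v', H v v' := by
    have b1 : ∑ u, ∑ u', sh (g t) H u u' = (∑ ω, ∑ u, ∑ u', H (g t ω u) (g t ω u')) / Fintype.card Ω := by
      unfold sh
      simp_rw [← Finset.sum_div]
      congr 1
      rw [Finset.sum_comm (s := (univ : Finset Ω))]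
      apply Finset.sum_congr rfl
      intro u _
      rw [Finset.sum_comm]
    rw [b1, div_le_iff₀ hc]
    calc _ ≤ ∑ _ω : Ω, 4 * ∑ v, ∑ v', H v v' := by
          apply Finset.sum_le_sum
          intro ω _
          have c1 : ∀ u, ∑ u', H (g t ω u) (g t ω u') ≤ 2 * ∑ v', H (g t ω u) v' :=
            fun u => sum_comp_le (g t) hg ω (hH _)
          have c2 := sum_comp_le (g t) hg ω (f := fun v => ∑ v', H v v')
            (fun v => Finset.sum_nonneg (fun v' _ => hH _ _))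
          calc _ ≤ ∑ u, 2 * ∑ v', H (g t ω u) v' := Finset.sum_le_sum (fun u _ => c1 u)
            _ = 2 * ∑ u, ∑ v', H (g t ω u) v' := by rw [Finset.mul_sum]
            _ ≤ 2 * (2 * ∑ v, ∑ v', H v v') := mul_le_mul_of_nonneg_left c2 (by norm_num)
            _ = _ := by ring
      _ = _ := by rw [Finset.sum_const, Finset.card_univ, nsmul_eq_mul]; ring
  have e3 : ∑ v, ∑ v', H v v' ≤ (1 / η ^ 2) * ∑ v, ∑ v', d t v * d t v' * H v v' := by
    rw [Finset.mul_sum]
    apply Finset.sum_le_sum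
    intro v _
    rw [Finset.mul_sum]
    apply Finset.sum_le_sum
    intro v' _
    have : η ^ 2 ≤ d t v * d t v' := by nlinarith [hd t v, hd t v']
    rw [div_mul_eq_mul_div, one_mul, le_div_iff₀ (by positivity)]
    nlinarith [hH v v']
  calc _ ≤ 4 * (4 * ((1 / η ^ 2) * ∑ v, ∑ v', d t v * d t v' * H v v')) := by
        refine e1.trans (mul_le_mul_of_nonneg_left (e2.trans (mul_le_mul_of_nonneg_left e3 (by norm_num))) (by norm_num))
    _ = _ := by ring

lemma ItS_nonneg {ls : ℝ} (h0 : 0 ≤ ls) {h : Q n → Q n → ℝ}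
    (H : ∀ u u', 0 ≤ h u u') (t : ℕ) : ∀ u u', 0 ≤ ItS g ls t h u u' := by
  induction t with
  | zero => exact H
  | succ t ih =>
    intro u u'
    exact add_nonneg (mul_nonneg h0 (sh_nonneg _ ih _ _)) (ind_nonneg _ ih _ _)

lemma ItS_push {ls : ℝ} (h0 : 0 ≤ ls) (hη : 0 < η) (hδ : 0 ≤ δ) (hd : ∀ t v, η ≤ d t v)
    (hd2 : ∀ t v, d t v ≤ 2) (hp : Push g d δ)
    (hg : ∀ t ω v, (univ.filter (fun u => g t ω u = v)).card ≤ 2) {H : Q n → Q n → ℝ}
    (hH : ∀ u u', 0 ≤ H u u') (t : ℕ) :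
    ∑ u, ∑ u', d t u * d t u' * ItS g ls t H u u' ≤
      ((1 + δ) ^ 2 + ls * (16 / η ^ 2)) ^ t * ∑ v, ∑ v', d 0 v * d 0 v' * H v v' := by
  induction t with
  | zero => simp [ItS]
  | succ t ih =>
    have hn := ItS_nonneg g h0 hH t
    have a1 := ind_push g d hδ (fun t v => hη.le.trans (hd t v)) hp t hn
    have a2 := sh_push g d hη hd hd2 t (hg t) hn
    have e1 : ∑ u, ∑ u', d (t + 1) u * d (t + 1) u' * ItS g ls (t + 1) H u u' =
        ls * (∑ u, ∑ u', d (t + 1) u * d (t + 1) u' * sh (g t) (ItS g ls t H) u u') +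
        ∑ u, ∑ u', d (t + 1) u * d (t + 1) u' * ind (g t) (ItS g ls t H) u u' := by
      rw [Finset.mul_sum, ← Finset.sum_add_distrib]
      apply Finset.sum_congr rfl
      intro u _
      rw [Finset.mul_sum, ← Finset.sum_add_distrib]
      apply Finset.sum_congr rfl
      intro u' _
      show d (t + 1) u * d (t + 1) u' * (ls * sh (g t) (ItS g ls t H) u u' + ind (g t) (ItS g ls t H) u u') = _
      ring
    rw [e1]
    set S := ∑ v, ∑ v', d t v * d t v' * ItS g ls t H v v' with hS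
    calc _ ≤ ls * ((16 / η ^ 2) * S) + (1 + δ) ^ 2 * S :=
          add_le_add (mul_le_mul_of_nonneg_left a2 h0) a1
      _ = ((1 + δ) ^ 2 + ls * (16 / η ^ 2)) * S := by ring
      _ ≤ ((1 + δ) ^ 2 + ls * (16 / η ^ 2)) * (((1 + δ) ^ 2 + ls * (16 / η ^ 2)) ^ t *
          ∑ v, ∑ v', d 0 v * d 0 v' * H v v') := mul_le_mul_of_nonneg_left ih (by positivity)
      _ = _ := by rw [pow_succ]; ring

end dens

end H29Str
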