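import Pool.Agent.H29Str.Chain
import Pool.Agent.H29Str.Load
set_option autoImplicit false
namespace H29Str
open Finset
variable {n : ℕ}

/-- the densities -/
noncomputable def dens (κ η : ℝ) (t0 : ℕ) (a : Q n → ℝ) (t : ℕ) (v : Q n) : ℝ :=
  (1 - η) * P ((1 - 2 * κ) ^ (t0 + t)) a v + η
/-- real flip probability -/
noncomputable def qr (κ : ℝ) (d : Q n → ℝ) (u : Q n) (j : Fin n) : ℝ :=
  n * κ * max (d (flip j u) / d u - 1) 0
/-- rounded threshold -/
noncomputable def cth (M : ℕ) (κ : ℝ) (d : Q n → ℝ) (u : Q n) (j : Fin n) : ℕ := ⌊(M : ℝ) * qr κ d u j⌋₊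

end H29Str
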