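import Pool.Agent.H29Str.Assemble
set_option autoImplicit false
set_option linter.unusedSectionVars false
namespace H29Str
open Finset
variable {n : ℕ} {Ω : Type} [Fintype Ω] [DecidableEq Ω] [Nonempty Ω]

lemma dist_flip (j : Fin n) (v : Q n) : hammingDist v (flip j v) = 1 := by
  unfold hammingDist
  rw [Finset.card_eq_one]
  refine ⟨j, ?_⟩
  ext i
  simp only [mem_filter, mem_univ, true_and, mem_singleton]
  unfold flip
  constructor
  · intro h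
    by_contra hij
    exact h (by rw [Function.update_of_ne hij])
  · rintro rfl
    simp

lemma exists_psi (g : ℕ → Ω → Q n → Q n) (d0 : Q n → ℝ) {ρ SB LB : ℝ} (r T : ℕ)
    (hSB : 0 < SB) (hLB : 0 < LB)
    (h1 : ∑ z, ∑ a, It g ((r : ℝ) / (r + 1)) T (fun x y => (hammingDist x y : ℝ)) z (flip a z) ≤ SB)
    (h2 : (∑ z1, ∑ z2, It g (lamf r z1 z2) T (kk ρ) z1 z2) - 2 * (∑ z, Ks g T (ff ρ d0) z) +
      ∑ x, (P ρ d0 x) ^ 2 ≤ LB) :
    ∃ ψ : Q n → Q n, ∑ z, ∑ a, (hammingDist (ψ z) (ψ (flip a z)) : ℝ) ≤ 2 * SB ∧ Load ρ d0 ψ ≤ 2 * LB := by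
  let p : (Q n × Fin n) ⊕ ((Q n × Q n) ⊕ Q n) → Q n :=
    Sum.elim (fun x => x.1) (Sum.elim (fun x => x.1) (fun z => z))
  let q : (Q n × Fin n) ⊕ ((Q n × Q n) ⊕ Q n) → Q n :=
    Sum.elim (fun x => flip x.2 x.1) (Sum.elim (fun x => x.2) (fun z => z))
  let H : (Q n × Fin n) ⊕ ((Q n × Q n) ⊕ Q n) → Q n → Q n → ℝ :=
    Sum.elim (fun _ u u' => (1 / SB) * (hammingDist u u' : ℝ))
      (Sum.elim (fun _ u u' => (1 / LB) * kk ρ u u') (fun _ u _ => (-2 / LB) * ff ρ d0 u))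
  obtain ⟨ψ, hψ⟩ := exists_map r g p q H T id
  refine ⟨ψ, ?_⟩
  have e1 : ∑ i, H i (ψ (p i)) (ψ (q i)) =
      (1 / SB) * (∑ z, ∑ a, (hammingDist (ψ z) (ψ (flip a z)) : ℝ)) +
      ((1 / LB) * (∑ z1, ∑ z2, kk ρ (ψ z1) (ψ z2)) + (-2 / LB) * ∑ z, ff ρ d0 (ψ z)) := by
    rw [Fintype.sum_sum_type, Fintype.sum_sum_type]
    simp only [H, p, q, Sum.elim_inl, Sum.elim_inr]
    rw [← Finset.mul_sum, ← Finset.mul_sum, ← Finset.mul_sum, Fintype.sum_prod_type, Fintype.sum_prod_type]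
  have e2 : ∑ i, It g (lamf r (p i) (q i)) T (H i) (id (p i)) (id (q i)) =
      (1 / SB) * (∑ z, ∑ a, It g ((r : ℝ) / (r + 1)) T (fun x y => (hammingDist x y : ℝ)) z (flip a z)) +
      ((1 / LB) * (∑ z1, ∑ z2, It g (lamf r z1 z2) T (kk ρ) z1 z2) + (-2 / LB) * ∑ z, Ks g T (ff ρ d0) z) := by
    rw [Fintype.sum_sum_type, Fintype.sum_sum_type]
    simp only [H, p, q, Sum.elim_inl, Sum.elim_inr, id]
    simp_rw [It_smul, It_single g _ (fun u => ff ρ d0 u)]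
    have e3 : ∀ x : Q n × Fin n, lamf r x.1 (flip x.2 x.1) = (r : ℝ) / (r + 1) := by
      intro x
      unfold lamf
      rw [dist_flip, pow_one]
    simp_rw [e3]
    rw [← Finset.mul_sum, ← Finset.mul_sum, ← Finset.mul_sum, Fintype.sum_prod_type, Fintype.sum_prod_type]
  rw [e1, e2] at hψ
  set St := ∑ z, ∑ a, (hammingDist (ψ z) (ψ (flip a z)) : ℝ) with hSt
  have hSt0 : 0 ≤ St := Finset.sum_nonneg (fun z _ => Finset.sum_nonneg (fun a _ => Nat.cast_nonneg _))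
  have hL0 : 0 ≤ Load ρ d0 ψ := Finset.sum_nonneg (fun z _ => sq_nonneg _)
  have hLe := Load_expand ρ d0 ψ
  have key : St / SB + Load ρ d0 ψ / LB ≤ 2 := by
    have a1 : (1 / SB) * (∑ z, ∑ a, It g ((r : ℝ) / (r + 1)) T (fun x y => (hammingDist x y : ℝ)) z (flip a z)) ≤ 1 := by
      rw [one_div, inv_mul_le_iff₀ hSB]; linarith
    have a2 : (1 / LB) * ((∑ z1, ∑ z2, It g (lamf r z1 z2) T (kk ρ) z1 z2) - 2 * (∑ z, Ks g T (ff ρ d0) z) +
      ∑ x, (P ρ d0 x) ^ 2) ≤ 1 := by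
      rw [one_div, inv_mul_le_iff₀ hLB]; linarith
    have a3 : Load ρ d0 ψ / LB = (1 / LB) * (∑ z1, ∑ z2, kk ρ (ψ z1) (ψ z2)) + (-2 / LB) * (∑ z, ff ρ d0 (ψ z)) +
        (1 / LB) * ∑ x, (P ρ d0 x) ^ 2 := by
      rw [hLe]; ring
    have a4 : St / SB = (1 / SB) * St := by ring
    rw [a3, a4]
    have a5 : (1 / LB) * ((∑ z1, ∑ z2, It g (lamf r z1 z2) T (kk ρ) z1 z2) - 2 * (∑ z, Ks g T (ff ρ d0) z) +
      ∑ x, (P ρ d0 x) ^ 2) = (1 / LB) * (∑ z1, ∑ z2, It g (lamf r z1 z2) T (kk ρ) z1 z2) +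
        (-2 / LB) * (∑ z, Ks g T (ff ρ d0) z) + (1 / LB) * ∑ x, (P ρ d0 x) ^ 2 := by ring
    rw [a5] at a2
    linarith
  constructor
  · have : St / SB ≤ 2 := by
      have := div_nonneg hL0 hLB.le
      linarith
    rwa [div_le_iff₀ hSB] at this
  · have : Load ρ d0 ψ / LB ≤ 2 := by
      have := div_nonneg hSt0 hSB.le
      linarith
    rwa [div_le_iff₀ hLB] at this

/-- transport cost from the load of `ψ` to the density `d0`. -/
lemma Tr_load {ρ : ℝ} (h0 : 0 ≤ ρ) (h1 : ρ ≤ 1) (d0 : Q n → ℝ) (hd : ∀ v, 0 ≤ d0 v) (hs : ∑ v, d0 v = 2 ^ n)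
    (ψ : Q n → Q n) {L : ℝ} (hL : Load ρ d0 ψ ≤ L) :
    Tr (fun v => ((univ.filter (fun z => ψ z = v)).card : ℝ)) d0
      (2 * (n * ((1 - ρ) / 2) * 2 ^ n) + n * Real.sqrt (2 ^ n * L)) := by
  set Lo : Q n → ℝ := fun v => ((univ.filter (fun z => ψ z = v)).card : ℝ) with hLo
  have hLo0 : ∀ v, 0 ≤ Lo v := fun v => Nat.cast_nonneg _
  have hLos : ∑ v, Lo v = 2 ^ n := by
    have : ∑ v, (univ.filter (fun z => ψ z = v)).card = (univ : Finset (Q n)).card := by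
      rw [← Finset.card_eq_sum_card_fiberwise (fun _ _ => mem_univ _)]
    have h2 : (univ : Finset (Q n)).card = 2 ^ n := by simp
    rw [h2] at this
    show ∑ v, ((univ.filter (fun z => ψ z = v)).card : ℝ) = 2 ^ n
    exact_mod_cast this
  have hPLo : ∀ x, P ρ Lo x = ∑ z, W ρ (ψ z) x := by
    intro x
    rw [P_eq]
    have : ∀ v, Lo v * W ρ v x = ∑ z ∈ univ.filter (fun z => ψ z = v), W ρ (ψ z) x := by
      intro v
      rw [Finset.sum_congr rfl (g := fun _ => W ρ v x) (by intro z hz; rw [(mem_filter.1 hz).2]),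
        Finset.sum_const, nsmul_eq_mul]
    simp_rw [this]
    exact Finset.sum_fiberwise_of_maps_to (fun _ _ => mem_univ _) _
  have t1 := Tr.noise h0 h1 hLo0
  rw [hLos] at t1
  have t3 := (Tr.noise h0 h1 hd).symm
  rw [hs] at t3
  have t2 : Tr (P ρ Lo) (P ρ d0) (n * Real.sqrt (2 ^ n * L)) := by
    have b1 := Tr.l1 (P_nonneg h0 h1 hLo0) (P_nonneg h0 h1 hd) (by rw [P_sum, P_sum, hLos, hs])
    refine b1.mono ?_
    apply mul_le_mul_of_nonneg_left _ (Nat.cast_nonneg _)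
    have hpt : ∀ v, max (P ρ d0 v - P ρ Lo v) 0 ≤ |∑ z, W ρ (ψ z) v - P ρ d0 v| := by
      intro v
      rw [hPLo v]
      apply max_le
      · rw [abs_sub_comm]; exact le_abs_self _
      · exact abs_nonneg _
    have hL0 : 0 ≤ ∑ v, |∑ z, W ρ (ψ z) v - P ρ d0 v| := Finset.sum_nonneg (fun v _ => abs_nonneg _)
    have hcs : (∑ v, |∑ z, W ρ (ψ z) v - P ρ d0 v|) ^ 2 ≤ 2 ^ n * L := by
      have := sq_sum_le_card_mul_sum_sq (s := (univ : Finset (Q n)))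
        (f := fun v => |∑ z, W ρ (ψ z) v - P ρ d0 v|)
      have h2 : ((univ : Finset (Q n)).card : ℝ) = 2 ^ n := by simp
      rw [h2] at this
      refine this.trans (mul_le_mul_of_nonneg_left ?_ (by positivity))
      simp_rw [sq_abs]
      exact hL
    calc ∑ v, max (P ρ d0 v - P ρ Lo v) 0 ≤ ∑ v, |∑ z, W ρ (ψ z) v - P ρ d0 v| :=
          Finset.sum_le_sum (fun v _ => hpt v)
      _ ≤ Real.sqrt (2 ^ n * L) := Real.le_sqrt_of_sq_le hcs
  exact ((t1.trans t2).trans t3).mono (by linarith)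

end H29Str
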