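import Pool.Agent.H29Str.Assemble
set_option autoImplicit false
set_option linter.unusedSectionVars false
namespace H29Str
open Finset
variable {n : ℕ}

lemma dens_ge {κ η : ℝ} (hκ : 0 ≤ κ) (hκ1 : 2 * κ ≤ 1) (hη1 : η ≤ 1) (t0 : ℕ) (a : Q n → ℝ)
    (ha : ∀ v, 0 ≤ a v) (t : ℕ) (v : Q n) : η ≤ dens κ η t0 a t v := by
  unfold dens
  have h0 : (0:ℝ) ≤ (1 - 2 * κ) ^ (t0 + t) := pow_nonneg (by linarith) _
  have h1 : (1 - 2 * κ) ^ (t0 + t) ≤ 1 := pow_le_one₀ (by linarith) (by linarith)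
  have := P_nonneg h0 h1 ha v
  nlinarith

lemma dens_le {κ η : ℝ} (hκ : 0 ≤ κ) (hκ1 : 2 * κ ≤ 1) (hη : 0 ≤ η) (hη1 : η ≤ 1) (t0 : ℕ) (a : Q n → ℝ)
    (ha : ∀ v, a v ≤ 2) (t : ℕ) (v : Q n) : dens κ η t0 a t v ≤ 2 := by
  unfold dens
  have h0 : (0:ℝ) ≤ (1 - 2 * κ) ^ (t0 + t) := pow_nonneg (by linarith) _
  have h1 : (1 - 2 * κ) ^ (t0 + t) ≤ 1 := pow_le_one₀ (by linarith) (by linarith)
  have := P_le h0 h1 ha v
  nlinarith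

lemma dens_sum (κ η : ℝ) (t0 : ℕ) (a : Q n → ℝ) (ha : ∑ v, a v = 2 ^ n) (t : ℕ) :
    ∑ v, dens κ η t0 a t v = 2 ^ n := by
  unfold dens
  rw [Finset.sum_add_distrib, ← Finset.mul_sum, P_sum, ha, Finset.sum_const, Finset.card_univ, nsmul_eq_mul]
  simp
  ring


end H29Str
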