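import Pool.Agent.H29Str.TaskA
set_option autoImplicit false
namespace H29Str
open Finset
variable {n : ℕ}

lemma near_card (hn : 1 ≤ n) (z1 : Q n) (m : ℕ) :
    ((univ.filter (fun z2 : Q n => hammingDist z1 z2 < m)).card : ℝ) ≤ 3 * (n : ℝ) ^ m := by
  have hn1 : (1:ℝ) ≤ n := by exact_mod_cast hn
  have hn0 : (0:ℝ) < n := by linarith
  set ρ : ℝ := 1 - 2 / (n + 1) with hρ
  have hA : (1 + ρ) / 2 = n / (n + 1) := by rw [hρ]; field_simp; ring
  have hB : (1 - ρ) / 2 = (n / (n + 1)) / n := by rw [hρ]; field_simp; ring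
  have hρ0 : 0 ≤ ρ := by
    have : 2 / ((n:ℝ) + 1) ≤ 1 := by rw [div_le_one (by positivity)]; linarith
    linarith
  have hρ1 : ρ ≤ 1 := by
    have : 0 ≤ 2 / ((n:ℝ) + 1) := by positivity
    linarith
  set Aa : ℝ := n / (n + 1) with hAa
  have hAa0 : 0 < Aa := by positivity
  have hW : ∀ z2 : Q n, W ρ z1 z2 = Aa ^ n / n ^ (hammingDist z1 z2) := by
    intro z2
    unfold W w
    rw [Finset.prod_ite, Finset.prod_const, Finset.prod_const, hA, hB]
    have hd : (univ.filter (fun i => ¬ z1 i = z2 i)).card = hammingDist z1 z2 := rfl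
    have hc := Finset.card_filter_add_card_filter_not (s := (univ : Finset (Fin n))) (fun i => z1 i = z2 i)
    rw [Finset.card_univ, Fintype.card_fin, hd] at hc
    rw [hd, div_pow]
    have : Aa ^ n = Aa ^ (univ.filter (fun i => z1 i = z2 i)).card * Aa ^ (hammingDist z1 z2) := by
      rw [← pow_add, hc]
    rw [this]
    ring
  have hAn : 1 / 3 ≤ Aa ^ n := by
    have h1 : (1 / Aa) ^ n ≤ 3 := by
      have h2 : 1 / Aa = 1 + 1 / n := by rw [hAa]; field_simp
      rw [h2]
      have h3 : 1 + 1 / (n:ℝ) ≤ Real.exp (1 / n) := by linarith [Real.add_one_le_exp (1 / (n:ℝ))]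
      calc (1 + 1 / (n:ℝ)) ^ n ≤ (Real.exp (1 / n)) ^ n := pow_le_pow_left₀ (by positivity) h3 n
        _ = Real.exp 1 := by rw [← Real.exp_nat_mul]; congr 1; field_simp
        _ ≤ 3 := by linarith [Real.exp_one_lt_d9]
    rw [div_pow, one_pow, div_le_iff₀ (by positivity)] at h1
    linarith
  have hsum : ∑ z2 ∈ univ.filter (fun z2 : Q n => hammingDist z1 z2 < m), W ρ z1 z2 ≤ 1 := by
    rw [← W_sum ρ z1]
    exact Finset.sum_le_univ_sum_of_nonneg (fun z2 => W_nonneg hρ0 hρ1 _ _)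
  have hlow : ((univ.filter (fun z2 : Q n => hammingDist z1 z2 < m)).card : ℝ) * (1 / 3 / n ^ m) ≤
      ∑ z2 ∈ univ.filter (fun z2 : Q n => hammingDist z1 z2 < m), W ρ z1 z2 := by
    rw [← nsmul_eq_mul]
    apply Finset.card_nsmul_le_sum
    intro z2 hz2
    have hd := (mem_filter.1 hz2).2
    rw [hW]
    apply div_le_div₀ (by positivity) hAn (by positivity)
    exact pow_le_pow_right₀ hn1 hd.le
  have := hlow.trans hsum
  have h3 : (0:ℝ) < n ^ m := by positivity
  have h4 : ((univ.filter (fun z2 : Q n => hammingDist z1 z2 < m)).card : ℝ) * (1 / 3 / n ^ m) =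
    ((univ.filter (fun z2 : Q n => hammingDist z1 z2 < m)).card : ℝ) / (3 * n ^ m) := by field_simp
  rw [h4, div_le_one (by positivity)] at this
  exact this

end H29Str
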