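import Pool.Agent.H29Str.Defs2
set_option autoImplicit false
namespace H29Str
open Finset
variable {n : ℕ}

lemma ix_P_sum (ρ : ℝ) (a : Q n → ℝ) : ∑ v, P ρ a v = ∑ v, a v := by
  unfold P
  rw [Finset.sum_comm]
  refine Finset.sum_congr rfl fun u _ => ?_
  rw [← Finset.sum_mul]
  have : ∑ v, W ρ v u = 1 := by
    rw [← W_sum ρ u]
    exact Finset.sum_congr rfl fun v _ => W_symm ρ v u
  rw [this, one_mul]

lemma ix_P_nonneg {ρ : ℝ} (h0 : 0 ≤ ρ) (h1 : ρ ≤ 1) {a : Q n → ℝ} (ha : ∀ v, 0 ≤ a v) (v : Q n) :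
    0 ≤ P ρ a v :=
  Finset.sum_nonneg fun u _ => mul_nonneg (W_nonneg h0 h1 v u) (ha u)

lemma ix_P_le {ρ C : ℝ} (h0 : 0 ≤ ρ) (h1 : ρ ≤ 1) {a : Q n → ℝ} (ha : ∀ v, a v ≤ C) (v : Q n) :
    P ρ a v ≤ C := by
  calc P ρ a v ≤ ∑ u, W ρ v u * C :=
        Finset.sum_le_sum fun u _ => mul_le_mul_of_nonneg_left (ha u) (W_nonneg h0 h1 v u)
    _ = C := by rw [← Finset.sum_mul, W_sum, one_mul]

lemma ix_P_one (a : Q n → ℝ) : P 1 a = a := by
  funext v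
  unfold P
  have hW : ∀ u, W 1 v u = if u = v then 1 else 0 := by
    intro u
    unfold W
    by_cases h : u = v
    · subst h
      simp [w]
    · rw [if_neg h]
      obtain ⟨i, hi⟩ : ∃ i, u i ≠ v i := Function.ne_iff.1 h
      refine Finset.prod_eq_zero (Finset.mem_univ i) ?_
      simp [w, Ne.symm hi]
  simp_rw [hW]
  simp

lemma ix_card : (Fintype.card (Q n) : ℝ) = 2 ^ n := by
  simp [Q]

-- TASK I
lemma P_lower {ρ : ℝ} (h0 : 0 ≤ ρ) (h1 : ρ ≤ 1) (a : Q n → ℝ) (ha0 : ∀ v, 0 ≤ a v)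
    (hs : ∑ v, a v = 2 ^ n) (v : Q n) : 1 - n * ρ ≤ P ρ a v := by
  have h2 : ((1 - ρ) / 2) ^ n * 2 ^ n ≤ P ρ a v := by
    rw [← hs, Finset.mul_sum]
    exact Finset.sum_le_sum fun u _ => mul_le_mul_of_nonneg_right (W_ge h0 h1 v u) (ha0 u)
  have h3 : ((1 - ρ) / 2) ^ n * 2 ^ n = (1 - ρ) ^ n := by
    rw [← mul_pow]; congr 1; ring
  have h4 := one_add_mul_le_pow (a := -ρ) (by linarith) n
  have h5 : (1 + -ρ) = 1 - ρ := by ring
  rw [h5] at h4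
  rw [h3] at h2
  linarith

lemma Tr_one {ρ : ℝ} (h0 : 0 ≤ ρ) (h1 : ρ ≤ 1) (a : Q n → ℝ) (ha0 : ∀ v, 0 ≤ a v)
    (hs : ∑ v, a v = 2 ^ n) : Tr (P ρ a) (fun _ => 1) (2 ^ n * (n ^ 2 * ρ)) := by
  have hsum : ∑ v, P ρ a v = ∑ _v : Q n, (1 : ℝ) := by
    rw [ix_P_sum, hs, Finset.sum_const, Finset.card_univ, nsmul_eq_mul, ix_card, mul_one]
  refine (Tr.l1 (ix_P_nonneg h0 h1 ha0) (fun _ => zero_le_one) hsum).mono ?_
  have : ∑ v : Q n, max (1 - P ρ a v) 0 ≤ ∑ _v : Q n, (n * ρ : ℝ) := by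
    refine Finset.sum_le_sum fun v _ => ?_
    refine max_le ?_ (by positivity)
    linarith [P_lower h0 h1 a ha0 hs v]
  rw [Finset.sum_const, Finset.card_univ, nsmul_eq_mul, ix_card] at this
  calc (n : ℝ) * ∑ v : Q n, max (1 - P ρ a v) 0 ≤ n * (2 ^ n * (n * ρ)) :=
        mul_le_mul_of_nonneg_left this (by positivity)
    _ = _ := by ring

/-- one heat step -/
lemma ix_step {κ : ℝ} (hκ : 0 < κ) (hnκ : 2 * n * κ ≤ 1) (hn : 1 ≤ n) {h : Q n → ℝ} (hh0 : ∀ v, 0 ≤ h v)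
    (hh2 : ∀ v, h v ≤ 2) {F : ℝ} (hF : ∑ v, ∑ j, |h (flip j v) - h v| ≤ F) :
    Tr h (P (1 - 2 * κ) h) (κ / 2 * F + 2 ^ n * (2 * n ^ 3 * κ ^ 2)) := by
  have hn1 : (1 : ℝ) ≤ n := by exact_mod_cast hn
  have h2κ : 2 * κ ≤ 1 := by nlinarith
  have hnκ' : (n : ℝ) * κ ≤ 1 := by nlinarith
  have t1 := Tr.flux hκ.le hnκ' hh0
  have t2 : Tr h (fun v => h v - κ * ∑ j, (h v - h (flip j v))) (κ / 2 * F) :=
    t1.mono (mul_le_mul_of_nonneg_left hF (by linarith))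
  have hpos : ∀ v, 0 ≤ h v - κ * ∑ j, (h v - h (flip j v)) := by
    intro v
    have e : ∑ j, (h v - h (flip j v)) ≤ n * h v := by
      rw [Finset.sum_sub_distrib, Finset.sum_const, Finset.card_univ, Fintype.card_fin, nsmul_eq_mul]
      have : 0 ≤ ∑ j, h (flip j v) := Finset.sum_nonneg fun j _ => hh0 _
      linarith
    have e2 : κ * ∑ j, (h v - h (flip j v)) ≤ κ * (n * h v) := mul_le_mul_of_nonneg_left e hκ.le
    have e3 : κ * (n * h v) ≤ h v := by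
      have := mul_le_mul_of_nonneg_right hnκ' (hh0 v)
      nlinarith
    linarith
  have hsum : ∑ v, P (1 - 2 * κ) h v = ∑ v, (h v - κ * ∑ j, (h v - h (flip j v))) := by
    rw [ix_P_sum, Finset.sum_sub_distrib, ← Finset.mul_sum, Finset.sum_comm]
    have : ∀ j : Fin n, ∑ v, (h v - h (flip j v)) = 0 := by
      intro j
      rw [Finset.sum_sub_distrib, dx_sum_flip, sub_self]
    simp [this]
  have t3 := (Tr.l1 (ix_P_nonneg (by linarith) (by linarith) hh0) hpos hsum)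
  have t4 : Tr (P (1 - 2 * κ) h) (fun v => h v - κ * ∑ j, (h v - h (flip j v)))
      (2 ^ n * (2 * n ^ 3 * κ ^ 2)) := by
    refine t3.mono ?_
    have : ∑ v : Q n, max ((h v - κ * ∑ j, (h v - h (flip j v))) - P (1 - 2 * κ) h v) 0 ≤
        ∑ _v : Q n, ((n : ℝ) ^ 2 * κ ^ 2 * 2) := by
      refine Finset.sum_le_sum fun v _ => ?_
      refine max_le ?_ (by positivity)
      linarith [expansion hκ.le h2κ (by norm_num : (0:ℝ) ≤ 2) h hh0 hh2 v]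
    rw [Finset.sum_const, Finset.card_univ, nsmul_eq_mul, ix_card] at this
    calc (n : ℝ) * ∑ v : Q n, max ((h v - κ * ∑ j, (h v - h (flip j v))) - P (1 - 2 * κ) h v) 0
        ≤ n * (2 ^ n * ((n : ℝ) ^ 2 * κ ^ 2 * 2)) := mul_le_mul_of_nonneg_left this (by positivity)
      _ = _ := by ring
  exact t2.trans t4.symm

/-- scalar inequality -/
lemma ix_sqrt {κ ρ : ℝ} (hκ : 0 < κ) (hρ0 : 0 ≤ ρ) (hρ : 2 * κ ≤ 1 - ρ) (hρ1 : ρ ≤ 1) :
    2 * (κ * ρ / Real.sqrt (1 - ρ)) ≤ 3 * (Real.sqrt (1 - ρ * (1 - 2 * κ)) - Real.sqrt (1 - ρ)) := by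
  have hpos : 0 < 1 - ρ := by linarith
  set x := Real.sqrt (1 - ρ) with hx
  have hx0 : 0 < x := Real.sqrt_pos.2 hpos
  have hxx : x * x = 1 - ρ := Real.mul_self_sqrt hpos.le
  have hy1 : 0 ≤ 1 - ρ * (1 - 2 * κ) := by nlinarith
  set y := Real.sqrt (1 - ρ * (1 - 2 * κ)) with hy
  have hyy : y * y = 1 - ρ * (1 - 2 * κ) := Real.mul_self_sqrt hy1
  have hyx : x ≤ y := Real.sqrt_le_sqrt (by nlinarith)
  have hdiff : y * y - x * x = 2 * κ * ρ := by rw [hyy, hxx]; ring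
  have hy2 : y * y ≤ 2 * (x * x) := by
    have : 2 * κ * ρ ≤ x * x := by rw [hxx]; nlinarith
    linarith
  have hy3 : y ≤ 3 / 2 * x := by
    by_contra hcon
    push Not at hcon
    nlinarith
  -- κρ = (y-x)(y+x)/2
  have hkr : κ * ρ = (y - x) * (y + x) / 2 := by nlinarith
  rw [hkr]
  have : (y - x) * (y + x) / 2 / x ≤ (y - x) * (5 / 4) := by
    rw [div_le_iff₀ hx0]
    have h1 : y + x ≤ 5 / 2 * x := by linarith
    have h2 : 0 ≤ y - x := by linarith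
    nlinarith [mul_le_mul_of_nonneg_left h1 h2]
  have h2 : 0 ≤ y - x := by linarith
  linarith

lemma ix_flux {ρ : ℝ} (h0 : 0 ≤ ρ) (h1 : ρ < 1) (a : Q n → ℝ) (ha0 : ∀ v, 0 ≤ a v) (ha2 : ∀ v, a v ≤ 2) :
    ∑ v, ∑ j, |P ρ a (flip j v) - P ρ a v| ≤ 2 ^ n * (Real.sqrt n * (4 * ρ / Real.sqrt (1 - ρ))) := by
  have hv : ∀ v : Q n, ∑ j, |P ρ a (flip j v) - P ρ a v| ≤ Real.sqrt n * (4 * ρ / Real.sqrt (1 - ρ)) := by
    intro v
    have hb := bessel h0 h1 a v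
    have hP4 : P ρ (fun u => a u ^ 2) v ≤ 4 := by
      refine ix_P_le h0 h1.le (fun u => ?_) v
      nlinarith [ha0 u, ha2 u]
    have h12 : 0 < 1 - ρ ^ 2 := by nlinarith
    have h1r : 0 < 1 - ρ := by linarith
    have hle : ∑ j, (P ρ a (flip j v) - P ρ a v) ^ 2 ≤ (4 * ρ / Real.sqrt (1 - ρ)) ^ 2 := by
      refine hb.trans ?_
      rw [div_pow, Real.sq_sqrt h1r.le]
      calc 4 * ρ ^ 2 / (1 - ρ ^ 2) * P ρ (fun u => a u ^ 2) v ≤ 4 * ρ ^ 2 / (1 - ρ ^ 2) * 4 :=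
            mul_le_mul_of_nonneg_left hP4 (by positivity)
        _ ≤ 4 * ρ ^ 2 / (1 - ρ) * 4 := by
            refine mul_le_mul_of_nonneg_right ?_ (by norm_num)
            refine div_le_div_of_nonneg_left (by positivity) h1r ?_
            nlinarith
        _ = (4 * ρ) ^ 2 / (1 - ρ) := by ring
    have hcs : (∑ j, |P ρ a (flip j v) - P ρ a v|) ^ 2 ≤
        n * ∑ j, (P ρ a (flip j v) - P ρ a v) ^ 2 := by
      have := sq_sum_le_card_mul_sum_sq (s := (univ : Finset (Fin n)))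
        (f := fun j => |P ρ a (flip j v) - P ρ a v|)
      simpa [sq_abs] using this
    have hnn : 0 ≤ 4 * ρ / Real.sqrt (1 - ρ) := by positivity
    have hfin : (∑ j, |P ρ a (flip j v) - P ρ a v|) ^ 2 ≤
        (Real.sqrt n * (4 * ρ / Real.sqrt (1 - ρ))) ^ 2 := by
      rw [mul_pow, Real.sq_sqrt (by positivity)]
      exact hcs.trans (mul_le_mul_of_nonneg_left hle (by positivity))
    exact abs_le_of_sq_le_sq' hfin (by positivity) |>.2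
  calc ∑ v, ∑ j, |P ρ a (flip j v) - P ρ a v| ≤ ∑ _v : Q n, Real.sqrt n * (4 * ρ / Real.sqrt (1 - ρ)) :=
        Finset.sum_le_sum fun v _ => hv v
    _ = _ := by rw [Finset.sum_const, Finset.card_univ, nsmul_eq_mul, ix_card]

lemma Tr_heat {κ : ℝ} (hκ : 0 < κ) (hnκ : 2 * n * κ ≤ 1) (hn : 1 ≤ n) (a : Q n → ℝ) (ha0 : ∀ v, 0 ≤ a v)
    (ha2 : ∀ v, a v ≤ 2) (s : ℕ) :
    Tr a (P ((1 - 2 * κ) ^ s) a)
      (2 ^ n * (3 * Real.sqrt n * Real.sqrt (1 - (1 - 2 * κ) ^ s) + n * κ + 2 * n ^ 3 * κ ^ 2 * s)) := by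
  have hn1 : (1 : ℝ) ≤ n := by exact_mod_cast hn
  have h2κ : 2 * κ ≤ 1 := by nlinarith
  have hθ0 : 0 ≤ 1 - 2 * κ := by linarith
  have hθ1 : 1 - 2 * κ ≤ 1 := by linarith
  rcases s with _ | s
  · rw [pow_zero, ix_P_one]
    refine (Tr.refl ha0).mono ?_
    have : (0:ℝ) ≤ n * κ := by positivity
    simp
    positivity
  induction s with
  | zero =>
    have hF : ∑ v, ∑ j, |a (flip j v) - a v| ≤ 2 ^ n * (n * 2) := by
      calc ∑ v, ∑ j, |a (flip j v) - a v| ≤ ∑ _v : Q n, ∑ _j : Fin n, (2 : ℝ) := by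
            refine Finset.sum_le_sum fun v _ => Finset.sum_le_sum fun j _ => ?_
            rw [abs_le]
            constructor <;> linarith [ha0 v, ha0 (flip j v), ha2 v, ha2 (flip j v)]
        _ = _ := by
            rw [Finset.sum_const, Finset.card_univ, nsmul_eq_mul, ix_card, Finset.sum_const,
              Finset.card_univ, Fintype.card_fin, nsmul_eq_mul]
    have t := ix_step hκ hnκ hn ha0 ha2 hF
    rw [zero_add, pow_one]
    refine t.mono ?_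
    have h3 : 0 ≤ 3 * Real.sqrt n * Real.sqrt (1 - (1 - 2 * κ)) := by positivity
    have h4 : (0:ℝ) < 2 ^ n := by positivity
    have h5 : κ / 2 * (2 ^ n * (n * 2)) + 2 ^ n * (2 * n ^ 3 * κ ^ 2) =
      2 ^ n * (0 + n * κ + 2 * n ^ 3 * κ ^ 2 * 1) := by ring
    rw [h5]
    refine mul_le_mul_of_nonneg_left ?_ h4.le
    push_cast
    linarith
  | succ s ih =>
    set ρ := (1 - 2 * κ) ^ (s + 1) with hρ
    have hρ0 : 0 ≤ ρ := pow_nonneg hθ0 _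
    have hρ1 : ρ ≤ 1 - 2 * κ := by
      rw [hρ, pow_succ]
      have : (1 - 2 * κ) ^ s ≤ 1 := pow_le_one₀ hθ0 hθ1
      nlinarith
    have hρlt : ρ < 1 := by linarith
    have hF := ix_flux hρ0 hρlt a ha0 ha2
    have t := ix_step hκ hnκ hn (ix_P_nonneg hρ0 hρlt.le ha0) (ix_P_le hρ0 hρlt.le ha2) hF
    rw [P_comp] at t
    have e1 : (1 - 2 * κ) * ρ = (1 - 2 * κ) ^ (s + 1 + 1) := by rw [hρ]; ring
    rw [e1] at t
    refine (ih.trans t).mono ?_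
    have hs := ix_sqrt hκ hρ0 (by linarith) hρlt.le
    have e2 : 1 - ρ * (1 - 2 * κ) = 1 - (1 - 2 * κ) ^ (s + 1 + 1) := by rw [hρ]; ring
    rw [e2] at hs
    have h4 : (0:ℝ) < 2 ^ n := by positivity
    have e3 : κ / 2 * (2 ^ n * (Real.sqrt n * (4 * ρ / Real.sqrt (1 - ρ)))) =
      2 ^ n * (Real.sqrt n * (2 * (κ * ρ / Real.sqrt (1 - ρ)))) := by ring
    rw [e3]
    have e4 : 2 ^ n * (3 * Real.sqrt n * Real.sqrt (1 - ρ) + n * κ + 2 * n ^ 3 * κ ^ 2 * ((s + 1 : ℕ) : ℝ)) +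
      (2 ^ n * (Real.sqrt n * (2 * (κ * ρ / Real.sqrt (1 - ρ)))) + 2 ^ n * (2 * n ^ 3 * κ ^ 2)) =
      2 ^ n * (3 * Real.sqrt n * Real.sqrt (1 - ρ) + Real.sqrt n * (2 * (κ * ρ / Real.sqrt (1 - ρ)))
        + n * κ + 2 * n ^ 3 * κ ^ 2 * ((s + 1 + 1 : ℕ) : ℝ)) := by push_cast; ring
    rw [e4]
    refine mul_le_mul_of_nonneg_left ?_ h4.le
    have := mul_le_mul_of_nonneg_left hs (Real.sqrt_nonneg (n : ℝ))
    linarith

end H29Str
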