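import Pool.Agent.H29Str.Defs2
set_option autoImplicit false
namespace H29Str
open Finset
variable {n : ℕ}

lemma jx_flip_flip (j : Fin n) (v : Q n) : flip j (flip j v) = v := by
  funext i
  unfold flip
  by_cases h : i = j
  · subst h; simp
  · simp [Function.update, h]

lemma jx_sum_flip (j : Fin n) (f : Q n → ℝ) : ∑ v, f (flip j v) = ∑ v, f v :=
  Fintype.sum_equiv ⟨flip j, flip j, jx_flip_flip j, jx_flip_flip j⟩ _ _ (fun _ => rfl)

lemma jx_P_nonneg {ρ : ℝ} (h0 : 0 ≤ ρ) (h1 : ρ ≤ 1) {a : Q n → ℝ} (ha0 : ∀ v, 0 ≤ a v) (v : Q n) :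
    0 ≤ P ρ a v :=
  Finset.sum_nonneg (fun u _ => mul_nonneg (W_nonneg h0 h1 v u) (ha0 u))

lemma jx_P_le {ρ C : ℝ} (h0 : 0 ≤ ρ) (h1 : ρ ≤ 1) {a : Q n → ℝ} (ha2 : ∀ v, a v ≤ C) (v : Q n) :
    P ρ a v ≤ C := by
  have h : P ρ a v ≤ ∑ u, W ρ v u * C :=
    Finset.sum_le_sum (fun u _ => mul_le_mul_of_nonneg_left (ha2 u) (W_nonneg h0 h1 v u))
  rw [← Finset.sum_mul, W_sum, one_mul] at h
  exact h

lemma jx_P_aff (ρ α β : ℝ) (h : Q n → ℝ) (v : Q n) :
    P ρ (fun u => α * h u + β) v = α * P ρ h v + β := by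
  have h1 : P ρ (fun u => α * h u + β) v = ∑ u, (α * (W ρ v u * h u) + W ρ v u * β) := by
    unfold P
    exact Finset.sum_congr rfl (fun u _ => by ring)
  rw [h1, Finset.sum_add_distrib, ← Finset.mul_sum, ← Finset.sum_mul, W_sum, one_mul]
  rfl

lemma jx_dens_succ (κ η : ℝ) (t0 : ℕ) (a : Q n → ℝ) (t : ℕ) (v : Q n) :
    P (1 - 2 * κ) (dens κ η t0 a t) v = dens κ η t0 a (t + 1) v := by
  have h1 : dens κ η t0 a t = fun u => (1 - η) * P ((1 - 2 * κ) ^ (t0 + t)) a u + η := rfl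
  rw [h1, jx_P_aff]
  have h2 := congrFun (P_comp (1 - 2 * κ) ((1 - 2 * κ) ^ (t0 + t)) a) v
  have h3 : (1 - 2 * κ) * (1 - 2 * κ) ^ (t0 + t) = (1 - 2 * κ) ^ (t0 + (t + 1)) := by
    rw [← add_assoc, pow_succ]; ring
  rw [h3] at h2
  rw [h2]
  rfl

/-- the deterministic step estimate -/
lemma jx_step {κ : ℝ} (h0 : 0 ≤ κ) (hnκ : 2 * n * κ ≤ 1) (h1 : 2 * κ ≤ 1) (d e : Q n → ℝ)
    (hd0 : ∀ v, 0 ≤ d v) (hd2 : ∀ v, d v ≤ 2) (he : ∀ v, P (1 - 2 * κ) d v = e v) (u : Q n) :
    e u + κ * ∑ j, (e u - e (flip j u)) ≤ d u + 10 * n ^ 2 * κ ^ 2 := by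
  have hA : ∀ v, d v - κ * ∑ j, (d v - d (flip j v)) - (n : ℝ) ^ 2 * κ ^ 2 * 2 ≤ e v := by
    intro v; rw [← he v]
    exact expansion h0 h1 (by norm_num) d hd0 hd2 v
  have hB : ∀ v, e v ≤ d v - κ * ∑ j, (d v - d (flip j v)) + (n : ℝ) ^ 2 * κ ^ 2 * 2 := by
    intro v
    have hx := expansion h0 h1 (show (0:ℝ) ≤ 2 by norm_num) (fun x => 2 - d x)
      (fun x => by have := hd2 x; linarith) (fun x => by have := hd0 x; linarith) v
    have hy : P (1 - 2 * κ) (fun x => 2 - d x) v = 2 - e v := by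
      have : (fun x => 2 - d x) = fun x => (-1) * d x + 2 := by funext x; ring
      rw [this, jx_P_aff, he v]; ring
    rw [hy] at hx
    have hz : ∑ j, ((2 - d v) - (2 - d (flip j v))) = - ∑ j, (d v - d (flip j v)) := by
      rw [← Finset.sum_neg_distrib]
      exact Finset.sum_congr rfl (fun j _ => by ring)
    rw [hz] at hx
    linarith
  have hL : ∀ v, |∑ j, (d v - d (flip j v))| ≤ n * 2 := by
    intro v
    calc |∑ j, (d v - d (flip j v))| ≤ ∑ j, |d v - d (flip j v)| := Finset.abs_sum_le_sum_abs _ _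
      _ ≤ ∑ _j : Fin n, (2:ℝ) := by
          apply Finset.sum_le_sum
          intro j _
          rw [abs_le]
          constructor
          · have := hd0 v; have := hd2 (flip j v); linarith
          · have := hd2 v; have := hd0 (flip j v); linarith
      _ = n * 2 := by simp
  have hn0 : (0:ℝ) ≤ n := Nat.cast_nonneg n
  have hD : ∀ v, |e v - d v| ≤ 2 * n * κ + 2 * n ^ 2 * κ ^ 2 := by
    intro v
    have a1 := hA v
    have a2 := hB v
    have a3 := abs_le.1 (hL v)
    have a4 : κ * ∑ j, (d v - d (flip j v)) ≤ κ * (n * 2) := mul_le_mul_of_nonneg_left a3.2 h0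
    have a5 : κ * (-(n * 2)) ≤ κ * ∑ j, (d v - d (flip j v)) := mul_le_mul_of_nonneg_left a3.1 h0
    rw [abs_le]
    constructor <;> linarith
  have hsum : ∑ j, (e u - e (flip j u)) = ∑ j, (d u - d (flip j u)) +
      ∑ j, ((e u - d u) - (e (flip j u) - d (flip j u))) := by
    rw [← Finset.sum_add_distrib]
    exact Finset.sum_congr rfl (fun j _ => by ring)
  have hE : ∑ j, ((e u - d u) - (e (flip j u) - d (flip j u))) ≤
      n * (2 * (2 * n * κ + 2 * n ^ 2 * κ ^ 2)) := by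
    calc ∑ j, ((e u - d u) - (e (flip j u) - d (flip j u))) ≤
        ∑ _j : Fin n, 2 * (2 * n * κ + 2 * n ^ 2 * κ ^ 2) := by
          apply Finset.sum_le_sum
          intro j _
          have b1 := abs_le.1 (hD u)
          have b2 := abs_le.1 (hD (flip j u))
          linarith [b1.2, b2.1]
      _ = n * (2 * (2 * n * κ + 2 * n ^ 2 * κ ^ 2)) := by simp
  have hE' := mul_le_mul_of_nonneg_left hE h0
  have hBu := hB u
  rw [hsum, mul_add]
  have c1 : κ * (n * (2 * (2 * n * κ + 2 * n ^ 2 * κ ^ 2))) ≤ 8 * n ^ 2 * κ ^ 2 := by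
    have c2 : 2 * n * κ * (2 * n ^ 2 * κ ^ 2) ≤ 1 * (2 * n ^ 2 * κ ^ 2) :=
      mul_le_mul_of_nonneg_right hnκ (by positivity)
    nlinarith [c2, sq_nonneg (n * κ)]
  linarith

lemma jx_q_le {M : ℕ} [NeZero n] {κ η : ℝ} (d : Q n → ℝ) (hκ : 0 < κ) (hη : 0 < η)
    (hnκ : 2 * n * κ ≤ η) (hd : ∀ v, η ≤ d v) (hd2 : ∀ v, d v ≤ 2) (u : Q n) (j : Fin n) :
    cth M κ d u j ≤ M := by
  have hn : (0:ℝ) < n := npos
  have h1 : qr κ d u j ≤ 1 := by
    unfold qr
    have hdu : 0 < d u := lt_of_lt_of_le hη (hd u)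
    have h2 : max (d (flip j u) / d u - 1) 0 ≤ 2 / η := by
      apply max_le
      · have : d (flip j u) / d u ≤ 2 / η :=
          div_le_div₀ (by norm_num) (hd2 _) hη (hd u)
        linarith
      · positivity
    calc (n:ℝ) * κ * max (d (flip j u) / d u - 1) 0 ≤ n * κ * (2 / η) :=
          mul_le_mul_of_nonneg_left h2 (by positivity)
      _ = (2 * n * κ) / η := by ring
      _ ≤ 1 := by rw [div_le_one hη]; exact hnκ
  unfold cth
  apply Nat.floor_le_of_le
  have hM : (0:ℝ) ≤ M := Nat.cast_nonneg M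
  nlinarith

-- TASK J
lemma push_dens [NeZero n] {M : ℕ} [NeZero M] {κ η : ℝ} (t0 : ℕ) (a : Q n → ℝ) (ha0 : ∀ v, 0 ≤ a v)
    (ha2 : ∀ v, a v ≤ 2) (hκ : 0 < κ) (hη : 0 < η) (hη1 : η ≤ 1) (hnκ : 2 * n * κ ≤ η) :
    Push (fun t (ω : Fin n × Fin M) u => Gm (cth M κ (dens κ η t0 a (t + 1))) ω u) (dens κ η t0 a)
      ((10 * n ^ 2 * κ ^ 2 + 2 / M) / η) := by
  intro t f hf
  have hn : (0:ℝ) < n := npos
  have hM : (0:ℝ) < M := Mpos
  have hn1 : (1:ℝ) ≤ n := by
    have := Nat.one_le_iff_ne_zero.2 (NeZero.ne n)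
    exact_mod_cast this
  have h2κ : 2 * κ ≤ 1 := by nlinarith
  have hθ0 : 0 ≤ 1 - 2 * κ := by linarith
  have hθ1 : 1 - 2 * κ ≤ 1 := by linarith
  have hp0 : ∀ s : ℕ, 0 ≤ (1 - 2 * κ) ^ s := fun s => pow_nonneg hθ0 s
  have hp1 : ∀ s : ℕ, (1 - 2 * κ) ^ s ≤ 1 := fun s => pow_le_one₀ hθ0 hθ1
  have hdη : ∀ s v, η ≤ dens κ η t0 a s v := by
    intro s v
    unfold dens
    have := jx_P_nonneg (hp0 (t0 + s)) (hp1 (t0 + s)) ha0 v
    nlinarith
  have hd2 : ∀ s v, dens κ η t0 a s v ≤ 2 := by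
    intro s v
    unfold dens
    have := jx_P_le (hp0 (t0 + s)) (hp1 (t0 + s)) ha2 v
    nlinarith
  set d := dens κ η t0 a t with hdd
  set e := dens κ η t0 a (t + 1) with hee
  have hc : ∀ u j, cth M κ e u j ≤ M :=
    fun u j => jx_q_le e hκ hη hnκ (hdη (t + 1)) (hd2 (t + 1)) u j
  have he0 : ∀ v, 0 < e v := fun v => lt_of_lt_of_le hη (hdη (t + 1) v)
  have hstep : ∀ u, e u + κ * ∑ j, (e u - e (flip j u)) ≤ d u + 10 * n ^ 2 * κ ^ 2 := by
    intro u
    exact jx_step hκ.le (hnκ.trans hη1) h2κ d e (fun v => hη.le.trans (hdη t v)) (hd2 t)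
      (fun v => jx_dens_succ κ η t0 a t v) u
  -- rounded probabilities
  set q : Q n → Fin n → ℝ := fun u j => (cth M κ e u j : ℝ) / M with hq
  have hq_le : ∀ u j, q u j * e u ≤ n * κ * max (e (flip j u) - e u) 0 := by
    intro u j
    have h1 : (cth M κ e u j : ℝ) ≤ M * qr κ e u j := by
      unfold cth
      apply Nat.floor_le
      unfold qr
      positivity
    have h2 : q u j ≤ qr κ e u j := by
      rw [hq]
      simp only
      rw [div_le_iff₀ hM]
      linarith
    have h3 : qr κ e u j * e u = n * κ * max (e (flip j u) - e u) 0 := by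
      unfold qr
      rw [mul_assoc, max_mul_of_nonneg _ _ (he0 u).le, zero_mul, sub_mul, one_mul,
        div_mul_cancel₀ _ (he0 u).ne']
    rw [← h3]
    exact mul_le_mul_of_nonneg_right h2 (he0 u).le
  have hq_ge : ∀ u j, n * κ * max (e (flip j u) - e u) 0 - 2 / M ≤ q u j * e u := by
    intro u j
    have h1 : (M:ℝ) * qr κ e u j - 1 < (cth M κ e u j : ℝ) := by
      unfold cth
      have := Nat.lt_floor_add_one ((M:ℝ) * qr κ e u j)
      linarith
    have h2 : qr κ e u j - 1 / M ≤ q u j := by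
      rw [hq]
      simp only
      rw [le_div_iff₀ hM, sub_mul, one_div, inv_mul_cancel₀ hM.ne']
      linarith
    have h3 : qr κ e u j * e u = n * κ * max (e (flip j u) - e u) 0 := by
      unfold qr
      rw [mul_assoc, max_mul_of_nonneg _ _ (he0 u).le, zero_mul, sub_mul, one_mul,
        div_mul_cancel₀ _ (he0 u).ne']
    rw [← h3]
    have h4 := mul_le_mul_of_nonneg_right h2 (he0 u).le
    rw [sub_mul] at h4
    have h5 : 1 / (M:ℝ) * e u ≤ 1 / M * 2 := mul_le_mul_of_nonneg_left (hd2 (t + 1) u) (by positivity)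
    have h6 : 1 / (M:ℝ) * 2 = 2 / M := by ring
    linarith
  -- rewrite the left side
  have hL : ∑ u, e u * ((∑ ω : Fin n × Fin M, f (Gm (cth M κ e) ω u)) / Fintype.card (Fin n × Fin M)) =
      ∑ u, f u * (e u + (1 / n) * ∑ j, (q (flip j u) j * e (flip j u) - q u j * e u)) := by
    have e1 : ∀ u, e u * ((∑ ω : Fin n × Fin M, f (Gm (cth M κ e) ω u)) / Fintype.card (Fin n × Fin M)) =
        f u * e u + (1 / n) * ∑ j, (q u j * e u * f (flip j u) - q u j * e u * f u) := by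
      intro u
      rw [card_Om, sum_Gm (cth M κ e) hc f u]
      have e2 : ∑ j : Fin n, ((cth M κ e u j : ℝ) * f (flip j u) + ((M:ℝ) - cth M κ e u j) * f u) =
          M * (∑ j, (q u j * f (flip j u) - q u j * f u)) + n * (M * f u) := by
        rw [Finset.mul_sum]
        have e3 : (n:ℝ) * (M * f u) = ∑ _j : Fin n, (M * f u) := by simp
        rw [e3, ← Finset.sum_add_distrib]
        apply Finset.sum_congr rfl
        intro j _
        rw [hq]
        field_simp
        ring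
      rw [e2]
      have e4 : ∑ j, (q u j * e u * f (flip j u) - q u j * e u * f u) =
          e u * ∑ j, (q u j * f (flip j u) - q u j * f u) := by
        rw [Finset.mul_sum]
        exact Finset.sum_congr rfl (fun j _ => by ring)
      rw [e4]
      field_simp
      ring
    simp_rw [e1]
    rw [Finset.sum_add_distrib, ← Finset.mul_sum]
    have e5 : ∑ u, ∑ j, (q u j * e u * f (flip j u) - q u j * e u * f u) =
        ∑ u, ∑ j, (q (flip j u) j * e (flip j u) * f u - q u j * e u * f u) := by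
      rw [Finset.sum_comm, Finset.sum_comm (s := (univ : Finset (Q n)))]
      apply Finset.sum_congr rfl
      intro j _
      rw [Finset.sum_sub_distrib, Finset.sum_sub_distrib]
      congr 1
      rw [← jx_sum_flip j (fun u => q u j * e u * f (flip j u))]
      apply Finset.sum_congr rfl
      intro u _
      rw [jx_flip_flip]
    rw [e5, Finset.mul_sum, ← Finset.sum_add_distrib]
    apply Finset.sum_congr rfl
    intro u _
    have e6 : ∑ j, (q (flip j u) j * e (flip j u) * f u - q u j * e u * f u) =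
        (∑ j, (q (flip j u) j * e (flip j u) - q u j * e u)) * f u := by
      rw [Finset.sum_mul]
      exact Finset.sum_congr rfl (fun j _ => by ring)
    rw [e6]
    ring
  show ∑ u, e u * ((∑ ω : Fin n × Fin M, f (Gm (cth M κ e) ω u)) / Fintype.card (Fin n × Fin M)) ≤
    (1 + (10 * n ^ 2 * κ ^ 2 + 2 / M) / η) * ∑ v, d v * f v
  rw [hL, Finset.mul_sum]
  apply Finset.sum_le_sum
  intro u _
  have hcoef : e u + (1 / n) * ∑ j, (q (flip j u) j * e (flip j u) - q u j * e u) ≤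
      (1 + (10 * n ^ 2 * κ ^ 2 + 2 / M) / η) * d u := by
    have k1 : ∑ j, (q (flip j u) j * e (flip j u) - q u j * e u) ≤
        ∑ j, (n * κ * (e u - e (flip j u)) + 2 / M) := by
      apply Finset.sum_le_sum
      intro j _
      have m1 := hq_le (flip j u) j
      rw [jx_flip_flip] at m1
      have m2 := hq_ge u j
      have m3 : max (e u - e (flip j u)) 0 - max (e (flip j u) - e u) 0 = e u - e (flip j u) := by
        rcases le_total (e u) (e (flip j u)) with h | h
        · rw [max_eq_right (by linarith), max_eq_left (by linarith)]; ring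
        · rw [max_eq_left (by linarith), max_eq_right (by linarith)]; ring
      have m4 : n * κ * (e u - e (flip j u)) = n * κ * max (e u - e (flip j u)) 0 -
          n * κ * max (e (flip j u) - e u) 0 := by rw [← mul_sub, m3]
      linarith
    have k2 : ∑ j : Fin n, (n * κ * (e u - e (flip j u)) + 2 / (M:ℝ)) =
        n * (κ * ∑ j, (e u - e (flip j u)) + 2 / M) := by
      rw [Finset.sum_add_distrib, ← Finset.mul_sum]
      simp only [Finset.sum_const, Finset.card_univ, Fintype.card_fin, nsmul_eq_mul]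
      ring
    rw [k2] at k1
    have k3 : (1 / (n:ℝ)) * ∑ j, (q (flip j u) j * e (flip j u) - q u j * e u) ≤
        κ * ∑ j, (e u - e (flip j u)) + 2 / M := by
      have := mul_le_mul_of_nonneg_left k1 (show (0:ℝ) ≤ 1 / n by positivity)
      have k4 : 1 / (n:ℝ) * (n * (κ * ∑ j, (e u - e (flip j u)) + 2 / M)) =
          κ * ∑ j, (e u - e (flip j u)) + 2 / M := by
        field_simp
      linarith
    have k5 := hstep u
    have k6 : 10 * n ^ 2 * κ ^ 2 + 2 / M ≤ (10 * n ^ 2 * κ ^ 2 + 2 / M) / η * d u := by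
      have : (10 * n ^ 2 * κ ^ 2 + 2 / M) / η * η ≤ (10 * n ^ 2 * κ ^ 2 + 2 / M) / η * d u :=
        mul_le_mul_of_nonneg_left (hdη t u) (by positivity)
      rw [div_mul_cancel₀ _ hη.ne'] at this
      exact this
    linarith
  calc f u * (e u + (1 / n) * ∑ j, (q (flip j u) j * e (flip j u) - q u j * e u)) ≤
      f u * ((1 + (10 * n ^ 2 * κ ^ 2 + 2 / M) / η) * d u) := mul_le_mul_of_nonneg_left hcoef (hf u)
    _ = (1 + (10 * n ^ 2 * κ ^ 2 + 2 / M) / η) * (d u * f u) := by ring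

end H29Str
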