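import Pool.Agent.H29Str.TaskH
import Pool.Agent.H29Str.FinalAux
set_option autoImplicit false
namespace H29Str
open Finset
variable {n : ℕ}

lemma qr_nonneg {κ : ℝ} (hκ : 0 ≤ κ) (d : Q n → ℝ) (u : Q n) (j : Fin n) : 0 ≤ qr κ d u j := by
  unfold qr
  exact mul_nonneg (mul_nonneg (Nat.cast_nonneg _) hκ) (le_max_right _ _)

lemma c_le {M : ℕ} {κ η : ℝ} (d : Q n → ℝ) (hκ : 0 < κ) (hη : 0 < η) (hnκ : 2 * n * κ ≤ η)
    (hd : ∀ v, η ≤ d v) (hd2 : ∀ v, d v ≤ 2) (u : Q n) (j : Fin n) : cth M κ d u j ≤ M := by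
  unfold cth
  have hq : qr κ d u j ≤ 1 := by
    unfold qr
    have h1 : max (d (flip j u) / d u - 1) 0 ≤ 2 / η := by
      apply max_le
      · have : d (flip j u) / d u ≤ 2 / η := by
          apply div_le_div₀ (by norm_num) (hd2 _) hη (hd u)
        linarith
      · positivity
    calc (n:ℝ) * κ * max (d (flip j u) / d u - 1) 0 ≤ n * κ * (2 / η) :=
          mul_le_mul_of_nonneg_left h1 (by positivity)
      _ = 2 * n * κ / η := by ring
      _ ≤ 1 := by rw [div_le_one hη]; exact hnκ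
  apply Nat.floor_le_of_le
  have : (0:ℝ) ≤ M := Nat.cast_nonneg M
  nlinarith

lemma cth_div_le {M : ℕ} [NeZero M] {κ : ℝ} (hκ : 0 ≤ κ) (d : Q n → ℝ) (u : Q n) (j : Fin n) :
    (cth M κ d u j : ℝ) / M ≤ qr κ d u j := by
  have hM : (0:ℝ) < M := by exact_mod_cast Nat.pos_of_ne_zero (NeZero.ne M)
  rw [div_le_iff₀ hM]
  unfold cth
  have := Nat.floor_le (mul_nonneg hM.le (qr_nonneg hκ d u j))
  linarith

lemma cth_diff {M : ℕ} [NeZero M] {κ : ℝ} (hκ : 0 ≤ κ) (d : Q n → ℝ) (u u' : Q n) (j : Fin n) :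
    |(cth M κ d u j : ℝ) - cth M κ d u' j| / M ≤ |qr κ d u j - qr κ d u' j| + 1 / M := by
  have hM : (0:ℝ) < M := by exact_mod_cast Nat.pos_of_ne_zero (NeZero.ne M)
  have a0 := mul_nonneg hM.le (qr_nonneg hκ d u j)
  have b0 := mul_nonneg hM.le (qr_nonneg hκ d u' j)
  have a1 := Nat.floor_le a0
  have a2 := Nat.lt_floor_add_one ((M:ℝ) * qr κ d u j)
  have b1 := Nat.floor_le b0
  have b2 := Nat.lt_floor_add_one ((M:ℝ) * qr κ d u' j)
  rw [div_le_iff₀ hM]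
  have e : (|qr κ d u j - qr κ d u' j| + 1 / M) * M = |M * qr κ d u j - M * qr κ d u' j| + 1 := by
    rw [← mul_sub, abs_mul, abs_of_pos hM]
    field_simp
  rw [e]
  unfold cth
  have c1 := le_abs_self ((M:ℝ) * qr κ d u j - M * qr κ d u' j)
  have c2 := neg_abs_le ((M:ℝ) * qr κ d u j - M * qr κ d u' j)
  rw [abs_le]
  constructor <;> linarith

lemma dens_diff {κ η : ℝ} (t0 t : ℕ) (a : Q n → ℝ) (u u' : Q n) :
    dens κ η t0 a t u' - dens κ η t0 a t u =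
      (1 - η) * (P ((1 - 2 * κ) ^ (t0 + t)) a u' - P ((1 - 2 * κ) ^ (t0 + t)) a u) := by
  unfold dens; ring

lemma ratio_bounds {κ : ℝ} (hκ : 0 < κ) (hκ2 : 2 * κ < 1) (t0 t : ℕ) (ht0 : 1 ≤ t0) :
    0 ≤ (1 - 2 * κ) ^ (t0 + t) ∧ (1 - 2 * κ) ^ (t0 + t) < 1 ∧ (1 - 2 * κ) ^ (t0 + t) ≤ (1 - 2 * κ) ^ t ∧
    (1 - 2 * κ) ^ (t0 + t) ≤ (1 - 2 * κ) ^ t0 ∧ 0 < 1 - (1 - 2 * κ) ^ t0 := by
  have h0 : 0 < 1 - 2 * κ := by linarith
  have h1 : 1 - 2 * κ < 1 := by linarith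
  have h2 : (1 - 2 * κ) ^ t0 < 1 := pow_lt_one₀ h0.le h1 (by omega)
  refine ⟨pow_nonneg h0.le _, pow_lt_one₀ h0.le h1 (by omega), pow_le_pow_of_le_one h0.le h1.le (by omega),
    pow_le_pow_of_le_one h0.le h1.le (by omega), by linarith⟩

lemma kappa_lt [NeZero n] {κ η : ℝ} (hκ : 0 < κ) (hη1 : η ≤ 1) (hnκ : 2 * n * κ ≤ η) : 2 * κ ≤ 1 := by
  have hn1 : (1:ℝ) ≤ n := by exact_mod_cast Nat.pos_of_ne_zero (NeZero.ne n)
  nlinarith

lemma grad_le {ρ x y : ℝ} (h0 : 0 ≤ ρ) (h1 : ρ < 1) (hx : ρ ≤ x) (hy : 0 < y) (hy1 : y ≤ 1 - ρ)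
    (a : Q n → ℝ) (ha0 : ∀ v, 0 ≤ a v) (ha2 : ∀ v, a v ≤ 2) (u : Q n) :
    ∑ j, (P ρ a (flip j u) - P ρ a u) ^ 2 ≤ 16 * x ^ 2 / y ∧
    ∑ j, (P ρ a (flip j u) - P ρ a u) ^ 2 ≤ 16 * (x / y) := by
  have hb := bessel h0 h1 a u
  have hP : P ρ (fun v => a v ^ 2) u ≤ 4 := P_le h0 h1.le (fun v => by nlinarith [ha0 v, ha2 v]) u
  have h2 : 0 < 1 - ρ ^ 2 := by nlinarith
  have h3 : y ≤ 1 - ρ ^ 2 := by nlinarith
  have hb2 : ∑ j, (P ρ a (flip j u) - P ρ a u) ^ 2 ≤ 16 * ρ ^ 2 / (1 - ρ ^ 2) := by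
    calc _ ≤ 4 * ρ ^ 2 / (1 - ρ ^ 2) * 4 := hb.trans (mul_le_mul_of_nonneg_left hP (by positivity))
      _ = _ := by ring
  have h4 : 16 * ρ ^ 2 / (1 - ρ ^ 2) ≤ 16 * ρ ^ 2 / y :=
    div_le_div_of_nonneg_left (by positivity) hy h3
  constructor
  · refine hb2.trans (h4.trans ?_)
    apply div_le_div_of_nonneg_right _ hy.le
    nlinarith
  · have h5 : 16 * ρ ^ 2 / y ≤ 16 * x / y := by
      apply div_le_div_of_nonneg_right _ hy.le
      nlinarith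
    have h6 : 16 * x / y = 16 * (x / y) := by ring
    linarith

lemma chi_bound' [NeZero n] {M : ℕ} [NeZero M] {κ η : ℝ} (t0 t : ℕ) (ht0 : 1 ≤ t0) (a : Q n → ℝ)
    (ha0 : ∀ v, 0 ≤ a v) (ha2 : ∀ v, a v ≤ 2) (hκ : 0 < κ) (hη : 0 < η) (hη1 : η ≤ 1)
    (hnκ : 2 * n * κ ≤ η) (hκ2 : 2 * κ < 1) (u : Q n) :
    ∑ j, ((cth M κ (dens κ η t0 a t) u j : ℝ) / M) ^ 2 ≤
      (n * (4 * κ * (1 - 2 * κ) ^ t / (η * Real.sqrt (1 - (1 - 2 * κ) ^ t0)))) ^ 2 := by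
  obtain ⟨r0, r1, r2, r3, r4⟩ := ratio_bounds hκ hκ2 t0 t ht0
  set ρ : ℝ := (1 - 2 * κ) ^ (t0 + t) with hρ
  have hg := (grad_le r0 r1 r2 r4 (by linarith) a ha0 ha2 u).1
  have hd := dens_ge (n := n) hκ.le hκ2.le hη1 t0 a ha0 t
  have hq : ∀ j, ((cth M κ (dens κ η t0 a t) u j : ℝ) / M) ^ 2 ≤
      (n * κ / η) ^ 2 * (P ρ a (flip j u) - P ρ a u) ^ 2 := by
    intro j
    have b1 := cth_div_le (M := M) hκ.le (dens κ η t0 a t) u j
    have b2 : qr κ (dens κ η t0 a t) u j ≤ (n * κ / η) * |P ρ a (flip j u) - P ρ a u| := by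
      unfold qr
      have c1 : max (dens κ η t0 a t (flip j u) / dens κ η t0 a t u - 1) 0 ≤
          (1 / η) * |P ρ a (flip j u) - P ρ a u| := by
        apply max_le _ (by positivity)
        have hpos : 0 < dens κ η t0 a t u := hη.trans_le (hd u)
        have c2 : dens κ η t0 a t (flip j u) / dens κ η t0 a t u - 1 =
            (dens κ η t0 a t (flip j u) - dens κ η t0 a t u) / dens κ η t0 a t u := by
          field_simp
        rw [c2, dens_diff, ← hρ]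
        calc (1 - η) * (P ρ a (flip j u) - P ρ a u) / dens κ η t0 a t u
            ≤ |P ρ a (flip j u) - P ρ a u| / dens κ η t0 a t u := by
              apply div_le_div_of_nonneg_right _ hpos.le
              have := le_abs_self (P ρ a (flip j u) - P ρ a u)
              have := abs_nonneg (P ρ a (flip j u) - P ρ a u)
              nlinarith
          _ ≤ |P ρ a (flip j u) - P ρ a u| / η :=
              div_le_div_of_nonneg_left (abs_nonneg _) hη (hd u)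
          _ = _ := by ring
      calc (n:ℝ) * κ * max (dens κ η t0 a t (flip j u) / dens κ η t0 a t u - 1) 0 ≤
            n * κ * ((1 / η) * |P ρ a (flip j u) - P ρ a u|) := mul_le_mul_of_nonneg_left c1 (by positivity)
        _ = _ := by ring
    calc _ ≤ ((n * κ / η) * |P ρ a (flip j u) - P ρ a u|) ^ 2 :=
          pow_le_pow_left₀ (by positivity) (b1.trans b2) 2
      _ = _ := by rw [mul_pow, sq_abs]
  calc _ ≤ ∑ j, (n * κ / η) ^ 2 * (P ρ a (flip j u) - P ρ a u) ^ 2 := Finset.sum_le_sum (fun j _ => hq j)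
    _ = (n * κ / η) ^ 2 * ∑ j, (P ρ a (flip j u) - P ρ a u) ^ 2 := by rw [Finset.mul_sum]
    _ ≤ (n * κ / η) ^ 2 * (16 * ((1 - 2 * κ) ^ t) ^ 2 / (1 - (1 - 2 * κ) ^ t0)) :=
        mul_le_mul_of_nonneg_left hg (by positivity)
    _ = _ := by
        have hs : Real.sqrt (1 - (1 - 2 * κ) ^ t0) ^ 2 = 1 - (1 - 2 * κ) ^ t0 := Real.sq_sqrt r4.le
        rw [mul_pow, div_pow, div_pow, mul_pow η, hs]
        field_simp
        ring

lemma alg_k (X p q m : ℝ) : (X * (p + 2 * q) + m) ^ 2 ≤ 2 * (X ^ 2 * (2 * p ^ 2 + 8 * q ^ 2)) + 2 * m ^ 2 := by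
  have h1 : (p + 2 * q) ^ 2 ≤ 2 * p ^ 2 + 8 * q ^ 2 := by nlinarith [sq_nonneg (p - 2 * q)]
  have h2 := mul_le_mul_of_nonneg_left h1 (sq_nonneg X)
  have h3 : (X * (p + 2 * q) + m) ^ 2 + (X * (p + 2 * q) - m) ^ 2 =
    2 * (X ^ 2 * (p + 2 * q) ^ 2) + 2 * m ^ 2 := by ring
  have h4 := sq_nonneg (X * (p + 2 * q) - m)
  linarith

set_option maxHeartbeats 4000000 in
lemma gamma_bound' [NeZero n] {M : ℕ} [NeZero M] {κ η : ℝ} (t0 t : ℕ) (ht0 : 1 ≤ t0) (a : Q n → ℝ)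
    (ha0 : ∀ v, 0 ≤ a v) (ha2 : ∀ v, a v ≤ 2) (hκ : 0 < κ) (hη : 0 < η) (hη1 : η ≤ 1)
    (hnκ : 2 * n * κ ≤ η) (hκ2 : 2 * κ < 1) (u : Q n) :
    ∑ i, ∑ j, (|(cth M κ (dens κ η t0 a t) u j : ℝ) - cth M κ (dens κ η t0 a t) (flip i u) j| / M) ^ 2 ≤
      (n * (46 * κ * (1 - 2 * κ) ^ t / (η ^ 2 * (1 - (1 - 2 * κ) ^ t0)) + 2 / M)) ^ 2 := by
  have hM : (0:ℝ) < M := by exact_mod_cast Nat.pos_of_ne_zero (NeZero.ne M)
  obtain ⟨r0, r1, r2, r3, r4⟩ := ratio_bounds hκ hκ2 t0 t ht0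
  set ρ : ℝ := (1 - 2 * κ) ^ (t0 + t) with hρ
  set y : ℝ := (1 - 2 * κ) ^ t / (1 - (1 - 2 * κ) ^ t0) with hy
  have hy0 : 0 ≤ y := div_nonneg (r0.trans r2) r4.le
  have hg := (grad_le r0 r1 r2 r4 (by linarith) a ha0 ha2 u).2
  rw [← hy] at hg
  have hh := hess r0 r1 a (fun v => by rw [abs_le]; constructor <;> linarith [ha0 v, ha2 v]) u
  have hρy : ρ / (1 - ρ) ≤ y := div_le_div₀ (r0.trans r2) r2 r4 (by linarith)
  have hh2 : ∑ i, ∑ j, (P ρ a (flip i (flip j u)) - P ρ a (flip i u) - P ρ a (flip j u) + P ρ a u) ^ 2 ≤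
      64 * y ^ 2 := by
    refine hh.trans ?_
    have e : 4 * (4 * ρ / (1 - ρ)) ^ 2 = 64 * (ρ / (1 - ρ)) ^ 2 := by ring
    rw [e]
    apply mul_le_mul_of_nonneg_left _ (by norm_num)
    exact pow_le_pow_left₀ (div_nonneg r0 (by linarith)) hρy 2
  set d := dens κ η t0 a t with hdd
  have hd : ∀ v, η ≤ d v := dens_ge (n := n) hκ.le hκ2.le hη1 t0 a ha0 t
  have hd2 : ∀ v, d v ≤ 2 := dens_le (n := n) hκ.le hκ2.le hη.le hη1 t0 a ha2 t
  set Dp : Fin n → ℝ := fun j => P ρ a (flip j u) - P ρ a u with hDp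
  set DD : Fin n → Fin n → ℝ := fun i j =>
    P ρ a (flip i (flip j u)) - P ρ a (flip i u) - P ρ a (flip j u) + P ρ a u with hDD
  have hterm : ∀ i j, (|(cth M κ d u j : ℝ) - cth M κ d (flip i u) j| / M) ^ 2 ≤
      2 * ((n * κ / η ^ 2) ^ 2 * (2 * (Dp i ^ 2 * Dp j ^ 2) + 8 * DD i j ^ 2)) + 2 / M ^ 2 := by
    intro i j
    have b1 := cth_diff (M := M) hκ.le d u (flip i u) j
    have b2 : |qr κ d u j - qr κ d (flip i u) j| ≤ (n * κ / η ^ 2) * (|Dp i| * |Dp j| + 2 * |DD i j|) := by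
      unfold qr
      rw [← mul_sub, abs_mul, abs_of_nonneg (show (0:ℝ) ≤ n * κ by positivity)]
      have c1 : |max (d (flip j u) / d u - 1) 0 - max (d (flip j (flip i u)) / d (flip i u) - 1) 0| ≤
          (1 / η ^ 2) * (|Dp i| * |Dp j| + 2 * |DD i j|) := by
        refine (abs_max_sub_max_le_abs _ _ _).trans ?_
        have p1 : 0 < d u := hη.trans_le (hd u)
        have p2 : 0 < d (flip i u) := hη.trans_le (hd _)
        have e1 : d (flip j u) / d u - 1 - (d (flip j (flip i u)) / d (flip i u) - 1) =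
            ((d (flip j u) - d u) * (d (flip i u) - d u) -
              (d (flip i (flip j u)) - d (flip i u) - d (flip j u) + d u) * d u) / (d u * d (flip i u)) := by
          rw [flip_comm' j i u]
          field_simp
          ring
        have e2 : d (flip j u) - d u = (1 - η) * Dp j := by rw [hdd, dens_diff]
        have e3 : d (flip i u) - d u = (1 - η) * Dp i := by rw [hdd, dens_diff]
        have e4 : d (flip i (flip j u)) - d (flip i u) - d (flip j u) + d u = (1 - η) * DD i j := by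
          rw [hdd]; unfold dens; rw [hDD]; simp only; ring
        rw [e1, e2, e3, e4, abs_div, abs_of_pos (mul_pos p1 p2)]
        have n1 : |(1 - η) * Dp j * ((1 - η) * Dp i) - (1 - η) * DD i j * d u| ≤
            |Dp i| * |Dp j| + 2 * |DD i j| := by
          have h1η0 : 0 ≤ 1 - η := by linarith
          have h1η1 : 1 - η ≤ 1 := by linarith
          calc _ ≤ |(1 - η) * Dp j * ((1 - η) * Dp i)| + |(1 - η) * DD i j * d u| := abs_sub _ _
            _ = (1 - η) * (1 - η) * (|Dp i| * |Dp j|) + (1 - η) * (d u * |DD i j|) := by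
                rw [abs_mul, abs_mul, abs_mul, abs_mul, abs_mul, abs_of_nonneg h1η0, abs_of_pos p1]
                ring
            _ ≤ 1 * (|Dp i| * |Dp j|) + 1 * (2 * |DD i j|) := by
                apply add_le_add
                · apply mul_le_mul_of_nonneg_right _ (by positivity)
                  nlinarith
                · apply mul_le_mul h1η1 _ (by positivity) (by norm_num)
                  exact mul_le_mul_of_nonneg_right (hd2 u) (abs_nonneg _)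
            _ = _ := by ring
        have n2 : η ^ 2 ≤ d u * d (flip i u) := by nlinarith [hd u, hd (flip i u)]
        calc _ ≤ (|Dp i| * |Dp j| + 2 * |DD i j|) / (d u * d (flip i u)) :=
              div_le_div_of_nonneg_right n1 (mul_pos p1 p2).le
          _ ≤ (|Dp i| * |Dp j| + 2 * |DD i j|) / η ^ 2 :=
              div_le_div_of_nonneg_left (by positivity) (by positivity) n2
          _ = _ := by ring
      calc _ ≤ n * κ * ((1 / η ^ 2) * (|Dp i| * |Dp j| + 2 * |DD i j|)) :=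
            mul_le_mul_of_nonneg_left c1 (by positivity)
        _ = _ := by ring
    have b3 : |(cth M κ d u j : ℝ) - cth M κ d (flip i u) j| / M ≤
        (n * κ / η ^ 2) * (|Dp i| * |Dp j| + 2 * |DD i j|) + 1 / M := by linarith
    have b4 : (0:ℝ) ≤ |(cth M κ d u j : ℝ) - cth M κ d (flip i u) j| / M := by positivity
    set X := (n * κ / η ^ 2) with hX
    set p := |Dp i| * |Dp j| with hp
    set q := |DD i j| with hq
    have e5 : Dp i ^ 2 * Dp j ^ 2 = p ^ 2 := by rw [hp, mul_pow, sq_abs, sq_abs]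
    have e6 : DD i j ^ 2 = q ^ 2 := by rw [hq, sq_abs]
    rw [e5, e6]
    calc _ ≤ (X * (p + 2 * q) + 1 / M) ^ 2 := pow_le_pow_left₀ b4 b3 2
      _ ≤ 2 * (X ^ 2 * (2 * p ^ 2 + 8 * q ^ 2)) + 2 * (1 / (M:ℝ)) ^ 2 := alg_k X p q _
      _ = 2 * (X ^ 2 * (2 * p ^ 2 + 8 * q ^ 2)) + 2 / (M:ℝ) ^ 2 := by
          have e7 : (1 / (M:ℝ)) ^ 2 = 1 / (M:ℝ) ^ 2 := by rw [div_pow, one_pow]
          rw [e7, mul_one_div]
  have hsum : ∑ i, ∑ j, (2 * ((n * κ / η ^ 2) ^ 2 * (2 * (Dp i ^ 2 * Dp j ^ 2) + 8 * DD i j ^ 2)) + 2 / (M:ℝ) ^ 2) =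
      2 * ((n * κ / η ^ 2) ^ 2 * (2 * ((∑ i, Dp i ^ 2) * (∑ j, Dp j ^ 2)) + 8 * ∑ i, ∑ j, DD i j ^ 2)) +
        n * (n * (2 / M ^ 2)) := by
    simp_rw [Finset.sum_add_distrib, Finset.sum_const, Finset.card_univ, Fintype.card_fin, nsmul_eq_mul,
      ← Finset.mul_sum, Finset.sum_add_distrib, ← Finset.mul_sum]
    rw [Finset.sum_mul_sum]
    simp_rw [← Finset.mul_sum]
  have hS1 : 0 ≤ ∑ i, Dp i ^ 2 := Finset.sum_nonneg (fun i _ => sq_nonneg _)
  calc _ ≤ ∑ i, ∑ j, (2 * ((n * κ / η ^ 2) ^ 2 * (2 * (Dp i ^ 2 * Dp j ^ 2) + 8 * DD i j ^ 2)) + 2 / (M:ℝ) ^ 2) :=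
        Finset.sum_le_sum (fun i _ => Finset.sum_le_sum (fun j _ => hterm i j))
    _ = _ := hsum
    _ ≤ 2 * ((n * κ / η ^ 2) ^ 2 * (2 * ((16 * y) * (16 * y)) + 8 * (64 * y ^ 2))) + n * (n * (2 / M ^ 2)) := by
        have h1 : (∑ i, Dp i ^ 2) * (∑ j, Dp j ^ 2) ≤ (16 * y) * (16 * y) :=
          mul_le_mul hg hg hS1 (by positivity)
        have h2 : 2 * ((∑ i, Dp i ^ 2) * (∑ j, Dp j ^ 2)) + 8 * ∑ i, ∑ j, DD i j ^ 2 ≤
          2 * ((16 * y) * (16 * y)) + 8 * (64 * y ^ 2) := by linarith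
        have h3 := mul_le_mul_of_nonneg_left h2 (sq_nonneg (n * κ / η ^ 2))
        linarith
    _ ≤ (n * (46 * κ * y / η ^ 2 + 2 / M)) ^ 2 := by
        have e : (n * (46 * κ * y / η ^ 2 + 2 / M)) ^ 2 = 2116 * ((n * κ / η ^ 2) * y) ^ 2 +
          2 * (46 * ((n * κ / η ^ 2) * y)) * (n * (2 / M)) + (n * (2 / M)) ^ 2 := by ring
        rw [e]
        have h1 : 0 ≤ 2 * (46 * ((n * κ / η ^ 2) * y)) * (n * (2 / M)) := by positivity
        have h2 : (n:ℝ) * (n * (2 / M ^ 2)) ≤ (n * (2 / M)) ^ 2 := by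
          have : (n * (2 / (M:ℝ))) ^ 2 = 2 * (n * (n * (2 / M ^ 2))) := by field_simp
          rw [this]
          have h3 : 0 ≤ (n:ℝ) * (n * (2 / M ^ 2)) := by positivity
          linarith
        have h4 : 2 * ((n * κ / η ^ 2) ^ 2 * (2 * ((16 * y) * (16 * y)) + 8 * (64 * y ^ 2))) =
          2048 * ((n * κ / η ^ 2) * y) ^ 2 := by ring
        rw [h4]
        have h5 : 0 ≤ ((n * κ / η ^ 2) * y) ^ 2 := sq_nonneg _
        linarith
    _ = _ := by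
        rw [hy]
        congr 2
        field_simp

end H29Str
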