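import Pool.Agent.H29Str.Exists
import Pool.Agent.H29Str.FinalAux
import Pool.Agent.H29Str.TaskG
import Pool.Agent.H29Str.TaskI
import Pool.Agent.H29Str.TaskJ
import Pool.Agent.H29Str.TaskK
set_option autoImplicit false
set_option linter.unusedSectionVars false
namespace H29Str
open Finset
variable {n : ℕ}

section stretch
variable [NeZero n] {M : ℕ} [NeZero M]

lemma Dl_growth (c : ℕ → Q n → Fin n → ℕ) (γ : ℕ → ℝ) (hγ : ∀ t, 0 < γ t)
    (hc : ∀ t u j, c t u j ≤ M)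
    (hα : ∀ t u, ∑ a, ∑ j, (|(c t u j : ℝ) - c t (flip a u) j| / M) ^ 2 ≤ (n * γ t) ^ 2) (t : ℕ) :
    ∀ u, ∑ a, (Dl (fun t (ω : Fin n × Fin M) u => Gm (c t) ω u) t u (flip a u)) ^ 2 ≤
      n * (∏ s ∈ range t, (1 + γ s)) ^ 2 := by
  induction t with
  | zero =>
    intro u
    simp [Dl, dist_flip]
  | succ t ih =>
    intro u
    have hS0 : (0:ℝ) ≤ n * (∏ s ∈ range t, (1 + γ s)) ^ 2 := by positivity
    have := growth (fun t (ω : Fin n × Fin M) u => Gm (c t) ω u) (c t) t rfl (hc t) (hγ t) hS0 (hα t) ih u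
    refine this.trans (le_of_eq ?_)
    rw [Finset.prod_range_succ]
    ring

lemma stretch_total (c : ℕ → Q n → Fin n → ℕ) (γ χ : ℕ → ℝ) (hγ : ∀ t, 0 < γ t) (hχ : ∀ t, 0 ≤ χ t)
    (hc : ∀ t u j, c t u j ≤ M)
    (hα : ∀ t u, ∑ a, ∑ j, (|(c t u j : ℝ) - c t (flip a u) j| / M) ^ 2 ≤ (n * γ t) ^ 2)
    (hq : ∀ t u, ∑ j, ((c t u j : ℝ) / M) ^ 2 ≤ (n * χ t) ^ 2) (T r : ℕ) {G X : ℝ}
    (hG : ∑ s ∈ range T, γ s ≤ G) (hX : ∑ s ∈ range T, χ s ≤ X) :
    ∑ z : Q n, ∑ a, It (fun t (ω : Fin n × Fin M) u => Gm (c t) ω u) ((r : ℝ) / (r + 1)) T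
      (fun x y => (hammingDist x y : ℝ)) z (flip a z) ≤
      2 ^ n * (n * Real.exp G * (1 + 2 * Real.sqrt n * X / (r + 1))) := by
  set g := (fun t (ω : Fin n × Fin M) (u : Q n) => Gm (c t) ω u) with hg
  have hcube : ∑ _v : Q n, (1:ℝ) = 2 ^ n := by simp
  have hn : (0:ℝ) < n := npos
  have hprod : ∀ t, t ≤ T → ∏ s ∈ range t, (1 + γ s) ≤ Real.exp G := by
    intro t ht
    calc ∏ s ∈ range t, (1 + γ s) ≤ ∏ s ∈ range t, Real.exp (γ s) := by
          apply Finset.prod_le_prod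
          · intro s _; linarith [hγ s]
          · intro s _; linarith [Real.add_one_le_exp (γ s)]
      _ = Real.exp (∑ s ∈ range t, γ s) := (Real.exp_sum _ _).symm
      _ ≤ Real.exp G := by
          apply Real.exp_le_exp.2
          refine le_trans ?_ hG
          apply Finset.sum_le_sum_of_subset_of_nonneg
          · intro s hs; rw [mem_range] at *; omega
          · intro s _ _; exact (hγ s).le
  have hprod0 : ∀ t, 0 ≤ ∏ s ∈ range t, (1 + γ s) := fun t =>
    Finset.prod_nonneg (fun s _ => by linarith [hγ s])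
  set S : ℕ → ℝ := fun t => n * (∏ s ∈ range t, (1 + γ s)) ^ 2 with hS
  have hS0 : ∀ t, 0 ≤ S t := fun t => by rw [hS]; positivity
  have hsqrtS : ∀ t, Real.sqrt (S t) = Real.sqrt n * ∏ s ∈ range t, (1 + γ s) := by
    intro t
    rw [hS]
    simp only
    rw [Real.sqrt_mul hn.le, Real.sqrt_sq (hprod0 t)]
  have hgrow := Dl_growth c γ hγ hc hα
  have he : ∀ t u, 2 * ((∑ ω, Dl g t (g t ω u) u) / Fintype.card (Fin n × Fin M)) ≤
      2 * (χ t * Real.sqrt (S t)) := fun t u =>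
    e_bound g (c t) t rfl (hc t) (hχ t) (hS0 t) (hq t) (hgrow t) u
  have hlam0 : (0:ℝ) ≤ (r : ℝ) / (r + 1) := by positivity
  have hlam1 : (r : ℝ) / (r + 1) ≤ 1 := by rw [div_le_one (by positivity)]; linarith
  have hdist := It_dist_le g hlam0 hlam1 (fun t => 2 * (χ t * Real.sqrt (S t))) he T
  have hsum : ∑ s ∈ range T, 2 * (χ s * Real.sqrt (S s)) ≤ 2 * (Real.sqrt n * Real.exp G * X) := by
    rw [← Finset.mul_sum]
    apply mul_le_mul_of_nonneg_left _ (by norm_num)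
    calc ∑ s ∈ range T, χ s * Real.sqrt (S s) ≤ ∑ s ∈ range T, χ s * (Real.sqrt n * Real.exp G) := by
          apply Finset.sum_le_sum
          intro s hs
          rw [mem_range] at hs
          apply mul_le_mul_of_nonneg_left _ (hχ s)
          rw [hsqrtS]
          exact mul_le_mul_of_nonneg_left (hprod s hs.le) (Real.sqrt_nonneg _)
      _ = (Real.sqrt n * Real.exp G) * ∑ s ∈ range T, χ s := by rw [← Finset.sum_mul]; ring
      _ ≤ _ := mul_le_mul_of_nonneg_left hX (by positivity)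
  have h1lam : 1 - (r : ℝ) / (r + 1) = 1 / (r + 1) := by field_simp; ring
  rw [← hcube, Finset.sum_mul]
  apply Finset.sum_le_sum
  intro z _
  rw [one_mul]
  have b1 : ∑ a, It g ((r : ℝ) / (r + 1)) T (fun x y => (hammingDist x y : ℝ)) z (flip a z) ≤
      ∑ a, (Dl g T z (flip a z) + (1 / (r + 1)) * (2 * (Real.sqrt n * Real.exp G * X))) := by
    apply Finset.sum_le_sum
    intro a _
    refine (hdist z (flip a z)).trans ?_
    rw [h1lam]
    have := mul_le_mul_of_nonneg_left hsum (show (0:ℝ) ≤ 1 / (r + 1) by positivity)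
    linarith
  rw [Finset.sum_add_distrib, Finset.sum_const, Finset.card_univ, Fintype.card_fin, nsmul_eq_mul] at b1
  have b2 : ∑ a, Dl g T z (flip a z) ≤ n * Real.exp G := by
    have cs := sq_sum_le_card_mul_sum_sq (s := (univ : Finset (Fin n))) (f := fun a => Dl g T z (flip a z))
    rw [Finset.card_univ, Fintype.card_fin] at cs
    have h2 : (∑ a, Dl g T z (flip a z)) ^ 2 ≤ (n * Real.exp G) ^ 2 := by
      refine cs.trans ?_
      calc (n:ℝ) * ∑ a, (Dl g T z (flip a z)) ^ 2 ≤ n * (n * (∏ s ∈ range T, (1 + γ s)) ^ 2) :=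
            mul_le_mul_of_nonneg_left (hgrow T z) hn.le
        _ ≤ n * (n * (Real.exp G) ^ 2) := by
            apply mul_le_mul_of_nonneg_left _ hn.le
            apply mul_le_mul_of_nonneg_left _ hn.le
            exact pow_le_pow_left₀ (hprod0 T) (hprod T le_rfl) 2
        _ = _ := by ring
    exact (abs_le.1 (abs_le_of_sq_le_sq h2 (by positivity))).2
  refine b1.trans ?_
  have e1 : (n:ℝ) * Real.exp G * (1 + 2 * Real.sqrt n * X / (r + 1)) =
      n * Real.exp G + n * ((1 / (r + 1)) * (2 * (Real.sqrt n * Real.exp G * X))) := by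
    field_simp
  rw [e1]
  linarith

lemma preimage_card (c : Q n → Fin n → ℕ) (ω : Fin n × Fin M) (v : Q n) :
    (univ.filter (fun u => Gm c ω u = v)).card ≤ 2 := by
  have : univ.filter (fun u => Gm c ω u = v) ⊆ {v, flip ω.1 v} := by
    intro u hu
    have h := (mem_filter.1 hu).2
    unfold Gm at h
    split_ifs at h
    · rw [mem_insert, mem_singleton]
      right
      rw [← h, flip_flip]
    · rw [mem_insert, mem_singleton]
      left; exact h
  exact (Finset.card_le_card this).trans Finset.card_le_two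

end stretch

/-- number of points of `A` above `v` -/
noncomputable def fib (A : Finset (Fin (n + 1) → Bool)) (v : Q n) : ℝ :=
  ((A.filter (fun y => Fin.tail y = v)).card : ℝ)

lemma fib_nonneg (A : Finset (Fin (n + 1) → Bool)) (v : Q n) : 0 ≤ fib A v := Nat.cast_nonneg _

lemma fib_le (A : Finset (Fin (n + 1) → Bool)) (v : Q n) : fib A v ≤ 2 := by
  unfold fib
  have h : A.filter (fun y => Fin.tail y = v) ⊆ (univ : Finset Bool).image (fun b => Fin.cons b v) := by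
    intro y hy
    rw [mem_image]
    refine ⟨y 0, mem_univ _, ?_⟩
    rw [← (mem_filter.1 hy).2]
    exact Fin.cons_self_tail y
  have h2 := (Finset.card_le_card h).trans Finset.card_image_le
  have h3 : (univ : Finset Bool).card = 2 := by simp
  rw [h3] at h2
  exact_mod_cast h2

lemma fib_sum (A : Finset (Fin (n + 1) → Bool)) (hA : A.card = 2 ^ n) : ∑ v, fib A v = 2 ^ n := by
  unfold fib
  have : ∑ v : Q n, (A.filter (fun y => Fin.tail y = v)).card = A.card := by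
    rw [← Finset.card_eq_sum_card_fiberwise (fun _ _ => mem_univ _)]
  rw [hA] at this
  exact_mod_cast this

/-- transport from the smooth density to `a`. -/
lemma Tr_dens {κ η : ℝ} (hκ : 0 < κ) (hnκ : 2 * n * κ ≤ 1) (hη0 : 0 ≤ η) (hη1 : η ≤ 1) (hn : 1 ≤ n)
    (hκ1 : 2 * κ ≤ 1)
    (a : Q n → ℝ) (ha0 : ∀ v, 0 ≤ a v) (ha2 : ∀ v, a v ≤ 2) (hs : ∑ v, a v = 2 ^ n) (t0 s : ℕ) :
    Tr (dens κ η t0 a 0) a
      (2 ^ n * ((3 * Real.sqrt n * Real.sqrt (1 - (1 - 2 * κ) ^ t0) + n * κ + 2 * n ^ 3 * κ ^ 2 * t0) +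
        η * ((3 * Real.sqrt n + n * κ + 2 * n ^ 3 * κ ^ 2 * s) + n ^ 2 * (1 - 2 * κ) ^ s))) := by
  have hθ0 : ∀ k : ℕ, (0:ℝ) ≤ (1 - 2 * κ) ^ k := fun k => pow_nonneg (by linarith) _
  have hθ1 : ∀ k : ℕ, (1 - 2 * κ) ^ k ≤ 1 := fun k => pow_le_one₀ (by linarith) (by linarith)
  have t1 := (Tr_heat hκ hnκ hn a ha0 ha2 t0).symm
  have t2 := (Tr_heat hκ hnκ hn a ha0 ha2 s)
  have t3 := Tr_one (hθ0 s) (hθ1 s) a ha0 hs
  have t4 := (t2.trans t3).symm
  have t5 := Tr.smul (show (0:ℝ) ≤ 1 - η by linarith) t1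
  have t6 := Tr.smul hη0 t4
  have t7 := Tr.add t5 t6
  have e1 : (fun v => (1 - η) * P ((1 - 2 * κ) ^ t0) a v + η * 1) = dens κ η t0 a 0 := by
    funext v
    unfold dens
    simp
  have e2 : (fun v => (1 - η) * a v + η * a v) = a := by
    funext v; ring
  rw [e1, e2] at t7
  refine t7.mono ?_
  have hA : 0 ≤ 2 ^ n * (3 * Real.sqrt n * Real.sqrt (1 - (1 - 2 * κ) ^ t0) + n * κ + 2 * n ^ 3 * κ ^ 2 * t0) := by
    positivity
  have hsq : Real.sqrt (1 - (1 - 2 * κ) ^ s) ≤ 1 := by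
    rw [Real.sqrt_le_one]; linarith [hθ0 s]
  have hB : (2:ℝ) ^ n * (3 * Real.sqrt n * Real.sqrt (1 - (1 - 2 * κ) ^ s) + n * κ + 2 * n ^ 3 * κ ^ 2 * s) ≤
      2 ^ n * (3 * Real.sqrt n + n * κ + 2 * n ^ 3 * κ ^ 2 * s) := by
    apply mul_le_mul_of_nonneg_left _ (by positivity)
    have : 3 * Real.sqrt n * Real.sqrt (1 - (1 - 2 * κ) ^ s) ≤ 3 * Real.sqrt n := by
      have := Real.sqrt_nonneg (n:ℝ)
      nlinarith
    linarith
  nlinarith [mul_le_mul_of_nonneg_left hB hη0, mul_nonneg hη0 hA]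

end H29Str
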