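import Pool.Agent.H29Str.Tasks
set_option autoImplicit false
namespace H29Str
open Finset
variable {n : ℕ} {Ω : Type} [Fintype Ω] [DecidableEq Ω] [Nonempty Ω]

/-- shared-randomness average -/
noncomputable def sh (g : Ω → Q n → Q n) (h : Q n → Q n → ℝ) (u u' : Q n) : ℝ :=
  (∑ ω, h (g ω u) (g ω u')) / Fintype.card Ω

/-- independent-randomness average -/
noncomputable def ind (g : Ω → Q n → Q n) (h : Q n → Q n → ℝ) (u u' : Q n) : ℝ :=
  (∑ ω, ∑ ω', h (g ω u) (g ω' u')) / (Fintype.card Ω * Fintype.card Ω)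

/-- iterated pair operator: `It g lam t h u u'` is the expectation of `h` at the end, when the pair
starts at `(u,u')` at time `t`. -/
noncomputable def It (g : ℕ → Ω → Q n → Q n) (lam : ℝ) : ℕ → (Q n → Q n → ℝ) → Q n → Q n → ℝ
  | 0, h => h
  | (t + 1), h => fun u u' => lam * sh (g t) (It g lam t h) u u' + (1 - lam) * ind (g t) (It g lam t h) u u'

/-- probability that two labels share their randomness -/
noncomputable def lamf (r : ℕ) (z1 z2 : Q n) : ℝ := ((r : ℝ) / (r + 1)) ^ (hammingDist z1 z2)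

lemma lamf_nonneg (r : ℕ) (z1 z2 : Q n) : 0 ≤ lamf r z1 z2 := by unfold lamf; positivity

lemma lamf_le_one (r : ℕ) (z1 z2 : Q n) : lamf r z1 z2 ≤ 1 := by
  unfold lamf
  apply pow_le_one₀ (by positivity)
  rw [div_le_one (by positivity)]; linarith

lemma exists_map {ι : Type} [Fintype ι] (r : ℕ) (g : ℕ → Ω → Q n → Q n) (p q : ι → Q n)
    (H : ι → Q n → Q n → ℝ) (t : ℕ) : ∀ (ψ : Q n → Q n), ∃ ψ' : Q n → Q n,
      ∑ i, H i (ψ' (p i)) (ψ' (q i)) ≤ ∑ i, It g (lamf r (p i) (q i)) t (H i) (ψ (p i)) (ψ (q i)) := by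
  induction t with
  | zero => intro ψ; exact ⟨ψ, le_of_eq rfl⟩
  | succ t ih =>
    intro ψ
    have key : ∀ i, It g (lamf r (p i) (q i)) (t + 1) (H i) (ψ (p i)) (ψ (q i)) =
        (∑ b : Fin n → Fin (r + 1), ∑ F : Q n → Ω,
          It g (lamf r (p i) (q i)) t (H i) (g t (F (mask b (p i))) (ψ (p i)))
            (g t (F (mask b (q i))) (ψ (q i)))) / ((r + 1 : ℝ) ^ n * Fintype.card (Q n → Ω)) := by
      intro i
      rw [hash_avg r (p i) (q i) (fun ω ω' => It g (lamf r (p i) (q i)) t (H i) (g t ω (ψ (p i)))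
            (g t ω' (ψ (q i))))]
      rfl
    have hex : ∃ bF : (Fin n → Fin (r + 1)) × (Q n → Ω),
        ∑ i, It g (lamf r (p i) (q i)) t (H i) (g t (bF.2 (mask bF.1 (p i))) (ψ (p i)))
            (g t (bF.2 (mask bF.1 (q i))) (ψ (q i))) ≤
        ∑ i, It g (lamf r (p i) (q i)) (t + 1) (H i) (ψ (p i)) (ψ (q i)) := by
      by_contra hcon
      push Not at hcon
      have h1 : ∑ bF : (Fin n → Fin (r + 1)) × (Q n → Ω),
          (∑ i, It g (lamf r (p i) (q i)) (t + 1) (H i) (ψ (p i)) (ψ (q i))) <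
          ∑ bF : (Fin n → Fin (r + 1)) × (Q n → Ω), ∑ i, It g (lamf r (p i) (q i)) t (H i)
            (g t (bF.2 (mask bF.1 (p i))) (ψ (p i))) (g t (bF.2 (mask bF.1 (q i))) (ψ (q i))) := by
        apply Finset.sum_lt_sum_of_nonempty
        · exact Finset.univ_nonempty
        · intro bF _; exact hcon bF
      have hcard : (Fintype.card ((Fin n → Fin (r + 1)) × (Q n → Ω)) : ℝ) =
          (r + 1 : ℝ) ^ n * Fintype.card (Q n → Ω) := by
        rw [Fintype.card_prod]; push_cast; simp
      have hpos : (0:ℝ) < (r + 1 : ℝ) ^ n * Fintype.card (Q n → Ω) := by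
        rw [← hcard]; exact_mod_cast Fintype.card_pos
      have h2 : ∑ bF : (Fin n → Fin (r + 1)) × (Q n → Ω), ∑ i, It g (lamf r (p i) (q i)) t (H i)
            (g t (bF.2 (mask bF.1 (p i))) (ψ (p i))) (g t (bF.2 (mask bF.1 (q i))) (ψ (q i))) =
          ((r + 1 : ℝ) ^ n * Fintype.card (Q n → Ω)) *
          (∑ i, It g (lamf r (p i) (q i)) (t + 1) (H i) (ψ (p i)) (ψ (q i))) := by
        rw [Finset.sum_comm, Finset.mul_sum]
        apply Finset.sum_congr rfl
        intro i _
        rw [key i, mul_div_cancel₀ _ hpos.ne', Fintype.sum_prod_type]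
      rw [h2, Finset.sum_const, Finset.card_univ, nsmul_eq_mul, hcard] at h1
      exact lt_irrefl _ h1
    obtain ⟨bF, hbF⟩ := hex
    obtain ⟨ψ', hψ'⟩ := ih (fun z => g t (bF.2 (mask bF.1 z)) (ψ z))
    exact ⟨ψ', hψ'.trans hbF⟩

/-! ### basic properties of the averages -/

lemma card_pos' : (0:ℝ) < Fintype.card Ω := by exact_mod_cast Fintype.card_pos

lemma sh_mono (g : Ω → Q n → Q n) {h h' : Q n → Q n → ℝ} (H : ∀ u u', h u u' ≤ h' u u') (u u' : Q n) :
    sh g h u u' ≤ sh g h' u u' := by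
  unfold sh
  apply div_le_div_of_nonneg_right _ (card_pos' (Ω := Ω)).le
  exact Finset.sum_le_sum (fun ω _ => H _ _)

lemma ind_mono (g : Ω → Q n → Q n) {h h' : Q n → Q n → ℝ} (H : ∀ u u', h u u' ≤ h' u u') (u u' : Q n) :
    ind g h u u' ≤ ind g h' u u' := by
  unfold ind
  apply div_le_div_of_nonneg_right _ (by positivity)
  exact Finset.sum_le_sum (fun ω _ => Finset.sum_le_sum (fun ω' _ => H _ _))

lemma sh_add_const (g : Ω → Q n → Q n) (h : Q n → Q n → ℝ) (C : ℝ) (u u' : Q n) :
    sh g (fun x y => h x y + C) u u' = sh g h u u' + C := by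
  unfold sh
  have := card_pos' (Ω := Ω)
  rw [Finset.sum_add_distrib, Finset.sum_const, Finset.card_univ, nsmul_eq_mul]
  field_simp

lemma ind_add_const (g : Ω → Q n → Q n) (h : Q n → Q n → ℝ) (C : ℝ) (u u' : Q n) :
    ind g (fun x y => h x y + C) u u' = ind g h u u' + C := by
  unfold ind
  have := card_pos' (Ω := Ω)
  simp_rw [Finset.sum_add_distrib, Finset.sum_const, Finset.card_univ, nsmul_eq_mul]
  field_simp

/-! ### the shared flow distance -/

/-- expected final distance under shared randomness -/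
noncomputable def Dl (g : ℕ → Ω → Q n → Q n) : ℕ → Q n → Q n → ℝ
  | 0 => fun u u' => (hammingDist u u' : ℝ)
  | (t + 1) => sh (g t) (Dl g t)

lemma Dl_nonneg (g : ℕ → Ω → Q n → Q n) (t : ℕ) (u u' : Q n) : 0 ≤ Dl g t u u' := by
  induction t generalizing u u' with
  | zero => exact Nat.cast_nonneg _
  | succ t ih =>
    show 0 ≤ sh (g t) (Dl g t) u u'
    unfold sh
    apply div_nonneg (Finset.sum_nonneg (fun ω _ => ih _ _)) (Nat.cast_nonneg _)

lemma Dl_self (g : ℕ → Ω → Q n → Q n) (t : ℕ) (u : Q n) : Dl g t u u = 0 := by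
  induction t generalizing u with
  | zero => simp [Dl]
  | succ t ih =>
    show sh (g t) (Dl g t) u u = 0
    unfold sh
    simp [ih]

lemma Dl_comm (g : ℕ → Ω → Q n → Q n) (t : ℕ) (u u' : Q n) : Dl g t u u' = Dl g t u' u := by
  induction t generalizing u u' with
  | zero => simp [Dl, hammingDist_comm]
  | succ t ih =>
    show sh (g t) (Dl g t) u u' = sh (g t) (Dl g t) u' u
    unfold sh
    congr 1
    exact Finset.sum_congr rfl (fun ω _ => ih _ _)

lemma Dl_triangle (g : ℕ → Ω → Q n → Q n) (t : ℕ) (u v x : Q n) :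
    Dl g t u x ≤ Dl g t u v + Dl g t v x := by
  induction t generalizing u v x with
  | zero =>
    show (hammingDist u x : ℝ) ≤ hammingDist u v + hammingDist v x
    exact_mod_cast hammingDist_triangle u v x
  | succ t ih =>
    show sh (g t) (Dl g t) u x ≤ sh (g t) (Dl g t) u v + sh (g t) (Dl g t) v x
    unfold sh
    rw [← add_div, ← Finset.sum_add_distrib]
    apply div_le_div_of_nonneg_right _ (card_pos' (Ω := Ω)).le
    exact Finset.sum_le_sum (fun ω _ => ih _ _ _)

/-- stretch bound for pairs of labels sharing with probability `lam` -/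
lemma It_dist_le (g : ℕ → Ω → Q n → Q n) {lam : ℝ} (h0 : 0 ≤ lam) (h1 : lam ≤ 1) (e : ℕ → ℝ)
    (he : ∀ t u, 2 * ((∑ ω, Dl g t (g t ω u) u) / Fintype.card Ω) ≤ e t) (t : ℕ) :
    ∀ u u' : Q n, It g lam t (fun x y => (hammingDist x y : ℝ)) u u' ≤
      Dl g t u u' + (1 - lam) * ∑ s ∈ range t, e s := by
  induction t with
  | zero => intro u u'; simp [It, Dl]
  | succ t ih =>
    intro u u'
    show lam * sh (g t) (It g lam t _) u u' + (1 - lam) * ind (g t) (It g lam t _) u u' ≤ _
    have hc := card_pos' (Ω := Ω)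
    have a1 := sh_mono (g t) ih u u'
    have a2 := ind_mono (g t) ih u u'
    rw [sh_add_const] at a1
    rw [ind_add_const] at a2
    have a3 : ind (g t) (Dl g t) u u' ≤ Dl g (t + 1) u u' + e t := by
      have b1 : ind (g t) (Dl g t) u u' ≤
          (∑ ω, ∑ ω', (Dl g t (g t ω u) (g t ω u') + Dl g t (g t ω u') u' + Dl g t (g t ω' u') u')) /
            (Fintype.card Ω * Fintype.card Ω) := by
        unfold ind
        apply div_le_div_of_nonneg_right _ (by positivity)
        refine Finset.sum_le_sum (fun ω _ => Finset.sum_le_sum (fun ω' _ => ?_))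
        have c1 := Dl_triangle g t (g t ω u) (g t ω u') (g t ω' u')
        have c2 := Dl_triangle g t (g t ω u') u' (g t ω' u')
        have c3 := Dl_comm g t u' (g t ω' u')
        linarith
      have b2 : (∑ ω, ∑ ω', (Dl g t (g t ω u) (g t ω u') + Dl g t (g t ω u') u' + Dl g t (g t ω' u') u')) /
            ((Fintype.card Ω : ℝ) * Fintype.card Ω) =
          (∑ ω, Dl g t (g t ω u) (g t ω u')) / Fintype.card Ω +
            2 * ((∑ ω, Dl g t (g t ω u') u') / Fintype.card Ω) := by
        simp_rw [Finset.sum_add_distrib, Finset.sum_const, Finset.card_univ, nsmul_eq_mul]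
        rw [← Finset.mul_sum, ← Finset.mul_sum]
        field_simp
        ring
      have b3 := he t u'
      have b4 : Dl g (t + 1) u u' = (∑ ω, Dl g t (g t ω u) (g t ω u')) / Fintype.card Ω := rfl
      rw [b4]
      linarith
    have a4 : sh (g t) (Dl g t) u u' = Dl g (t + 1) u u' := rfl
    rw [Finset.sum_range_succ]
    rw [a4] at a1
    have h2 : 0 ≤ 1 - lam := by linarith
    nlinarith [mul_le_mul_of_nonneg_left a1 h0, mul_le_mul_of_nonneg_left a2 h2,
      mul_le_mul_of_nonneg_left a3 h2]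

end H29Str
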