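import Pool.Agent.H29Str.Asym
set_option autoImplicit false
set_option linter.unusedSectionVars false
namespace H29Str
open Finset Filter Topology

lemma LBn_bound {n m T r M : ℕ} {κ η ρ θT δ E : ℝ} (hθT : 0 ≤ θT)
    (hδ : δ = (10 * n ^ 2 * κ ^ 2 + 2 / M) / η) (hδ0 : 0 ≤ δ) (hδ1 : δ ≤ 1)
    (hE : 4 * n * θT + T * (3 * δ + ((r : ℝ) / (r + 1)) ^ m * (16 / η ^ 2)) ≤ E) (hE1 : E ≤ 1 / 2) :
    LBn n m T r M κ η ρ θT ≤ 3 * (n : ℝ) ^ m * ((1 + ρ) / 2) ^ n + 16 * E := by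
  unfold LBn
  rw [← hδ]
  set y : ℝ := ((r : ℝ) / (r + 1)) ^ m * (16 / η ^ 2) with hy
  have hy0 : 0 ≤ y := by positivity
  have hn0 : (0:ℝ) ≤ n := Nat.cast_nonneg n
  have hT0 : (0:ℝ) ≤ T := Nat.cast_nonneg T
  have hx0 : 0 ≤ (n:ℝ) * θT := mul_nonneg hn0 hθT
  have hTδ : 0 ≤ (T:ℝ) * δ := mul_nonneg hT0 hδ0
  have hTy : 0 ≤ (T:ℝ) * y := mul_nonneg hT0 hy0
  have hexpE : Real.exp E ≤ 1 + 2 * E := by
    have hEnn : 0 ≤ E := by nlinarith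
    have h := Real.add_one_le_exp (-E)
    have h2 : Real.exp E * Real.exp (-E) = 1 := by rw [← Real.exp_add]; simp
    have h3 : 0 < Real.exp E := Real.exp_pos E
    have h4 : Real.exp E * (1 - E) ≤ 1 := by nlinarith
    nlinarith
  have b1 : (1 + 2 * (n * θT)) ^ 2 * ((1 + δ) ^ 2 + y) ^ T ≤ Real.exp E := by
    have c1 : (1 + 2 * (n * θT)) ^ 2 ≤ Real.exp (4 * n * θT) := by
      have : 1 + 2 * (n * θT) ≤ Real.exp (2 * (n * θT)) := by linarith [Real.add_one_le_exp (2 * (n * θT))]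
      calc (1 + 2 * (n * θT)) ^ 2 ≤ (Real.exp (2 * (n * θT))) ^ 2 := pow_le_pow_left₀ (by linarith) this 2
        _ = Real.exp (4 * n * θT) := by rw [← Real.exp_nat_mul]; congr 1; push_cast; ring
    have c2 : ((1 + δ) ^ 2 + y) ^ T ≤ Real.exp (T * (3 * δ + y)) := by
      have : (1 + δ) ^ 2 + y ≤ Real.exp (3 * δ + y) := by
        have := Real.add_one_le_exp (3 * δ + y)
        nlinarith
      calc ((1 + δ) ^ 2 + y) ^ T ≤ (Real.exp (3 * δ + y)) ^ T := pow_le_pow_left₀ (by positivity) this T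
        _ = _ := by rw [← Real.exp_nat_mul]
    calc _ ≤ Real.exp (4 * n * θT) * Real.exp (T * (3 * δ + y)) :=
          mul_le_mul c1 c2 (by positivity) (Real.exp_pos _).le
      _ = Real.exp (4 * n * θT + T * (3 * δ + y)) := by rw [Real.exp_add]
      _ ≤ Real.exp E := Real.exp_le_exp.2 hE
  have b2 : (1 + 2 * (n * θT)) * (1 + δ) ^ T ≤ Real.exp E := by
    have c1 : (1 + 2 * (n * θT)) ≤ Real.exp (2 * (n * θT)) := by linarith [Real.add_one_le_exp (2 * (n * θT))]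
    have c2 : (1 + δ) ^ T ≤ Real.exp (T * δ) := by
      have : 1 + δ ≤ Real.exp δ := by linarith [Real.add_one_le_exp δ]
      calc (1 + δ) ^ T ≤ (Real.exp δ) ^ T := pow_le_pow_left₀ (by linarith) this T
        _ = _ := by rw [← Real.exp_nat_mul]
    calc _ ≤ Real.exp (2 * (n * θT)) * Real.exp (T * δ) :=
          mul_le_mul c1 c2 (by positivity) (Real.exp_pos _).le
      _ = Real.exp (2 * (n * θT) + T * δ) := by rw [Real.exp_add]
      _ ≤ Real.exp E := by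
          apply Real.exp_le_exp.2
          nlinarith
  linarith


lemma aux1 {η D y : ℝ} (h : 2 / η ≤ y) (hη : 0 < η) (hD : 1 ≤ D) : 1 ≤ η * (D * y) := by
  rw [div_le_iff₀ hη] at h
  have h1 : η * (D * y) = D * (y * η) := by ring
  rw [h1]
  nlinarith

lemma aux2 {a b x : ℝ} (ha : a ≤ 1) (hb0 : 0 ≤ b) (hb : b ≤ x) : a * b ≤ x := by nlinarith

lemma aux3 {n e : ℝ} (hn : 1 ≤ n) (he : 0 ≤ e) (h : n ^ 2 * e ≤ 1 / 2) : n * e ≤ 1 / 2 := by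
  have : n * e ≤ n ^ 2 * e := by
    apply mul_le_mul_of_nonneg_right _ he
    nlinarith
  linarith

lemma aux4 {G X ε sq r : ℝ} (hε : 0 < ε) (hsq : 0 < sq) (h : 32 * G * X ≤ r * ε) :
    4 * G * sq * X ≤ ε / 8 * sq * (r + 1) := by
  have h1 : 4 * G * sq * X = (1 / 8) * (32 * G * X) * sq := by ring
  have h2 : ε / 8 * sq * (r + 1) = (1 / 8) * (r * ε) * sq + (1 / 8) * ε * sq := by ring
  rw [h1, h2]
  have h3 : (1 / 8) * (32 * G * X) * sq ≤ (1 / 8) * (r * ε) * sq := by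
    apply mul_le_mul_of_nonneg_right _ hsq.le
    linarith
  have h4 : 0 ≤ (1 / 8) * ε * sq := by positivity
  linarith

lemma aux5 {n E : ℝ} (hn : 1 ≤ n) (hE : 0 ≤ E) : E ≤ n * E := by nlinarith

lemma aux6 {n L ε sq : ℝ} (hn : 0 < n) (hsq0 : 0 < sq) (hs : sq * sq = n) (hε : 0 < ε) (h : n * L ≤ ε ^ 2 / 2048) :
    n * Real.sqrt (2 * L) ≤ ε / 32 * sq := by
  have a1 : Real.sqrt (2 * L) ≤ ε / (32 * sq) := by
    apply Real.sqrt_le_iff.2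
    refine ⟨by positivity, ?_⟩
    rw [div_pow, mul_pow, le_div_iff₀ (by positivity)]
    have : sq ^ 2 = n := by rw [pow_two]; exact hs
    rw [this]
    nlinarith
  calc n * Real.sqrt (2 * L) ≤ n * (ε / (32 * sq)) := mul_le_mul_of_nonneg_left a1 hn.le
    _ = ε / 32 * sq := by rw [← hs]; field_simp

lemma aux7 {D y : ℝ} (hD : 1 ≤ D) (hy : 1 ≤ y) : 1 ≤ 2 * D ^ 2 * y := by
  have h1 : (1:ℝ) ≤ D ^ 2 := one_le_pow₀ hD
  nlinarith [mul_le_mul h1 hy (by norm_num) (by positivity)]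

lemma aux8 {D y : ℝ} (hD : 1 ≤ D) (hy : 1 ≤ y) : 1 ≤ 2 * D * y := by
  nlinarith [mul_le_mul hD hy (by norm_num) (by positivity)]

lemma aux9 {η z : ℝ} (h0 : 0 ≤ η) (h1 : η ≤ 1) (hz : z ≤ 3) : η * z ≤ 3 := by
  nlinarith

lemma aux10 {D y : ℝ} (hD : 1 ≤ D) (hy : 0 ≤ y) : y ≤ D ^ 2 * y := by
  have h1 : (1:ℝ) ≤ D ^ 2 := one_le_pow₀ hD
  nlinarith

set_option maxHeartbeats 4000000 in
theorem main_asym (ε : ℝ) (hε : 0 < ε) : ∃ N : ℕ, ∀ n : ℕ, N ≤ n →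
      ∀ A : Finset (Fin (n + 1) → Bool), A.card = 2 ^ n →
        ∃ φ : (Fin n → Bool) ≃ A,
          (∑ x : Fin n → Bool, ∑ i : Fin n,
              (hammingDist (φ x).1 (φ (Function.update x i (!x i))).1 : ℝ))
            / ((n : ℝ) * 2 ^ n) ≤ ε * Real.sqrt n := by
  -- constants
  obtain ⟨D, hD⟩ : ∃ D : ℕ, max 1 ((48 / ε) ^ 2) ≤ (D:ℝ) := exists_nat_ge _
  have hD1r : (1:ℝ) ≤ D := (le_max_left _ _).trans hD
  have hD1 : 1 ≤ D := by exact_mod_cast hD1r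
  have hD0 : (0:ℝ) < D := by linarith
  have hD2 : (48 / ε) ^ 2 ≤ D := (le_max_right _ _).trans hD
  have h48 : 1 ≤ (ε / 48) ^ 2 * D := by
    have h1 : (ε / 48) ^ 2 * (48 / ε) ^ 2 = 1 := by
      rw [← mul_pow]
      have : ε / 48 * (48 / ε) = 1 := by field_simp
      rw [this, one_pow]
    have h2 := mul_le_mul_of_nonneg_left hD2 (show (0:ℝ) ≤ (ε / 48) ^ 2 by positivity)
    linarith
  set η : ℝ := min 1 (ε / 48) with hη
  have hη0 : 0 < η := lt_min one_pos (by positivity)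
  have hη1 : η ≤ 1 := min_le_left _ _
  have hηε : η ≤ ε / 48 := min_le_right _ _
  set cD : ℝ := 1 - Real.exp (-(1 / D)) with hcD
  have hcD0 : 0 < cD := by
    have : Real.exp (-(1 / (D:ℝ))) < 1 := by
      rw [Real.exp_lt_one_iff]
      have : 0 < 1 / (D:ℝ) := by positivity
      linarith
    linarith
  set G0 : ℝ := 23 / (η ^ 2 * cD) + 1 with hG0
  set X0 : ℝ := 2 / (η * Real.sqrt cD) with hX0
  have hX00 : 0 < X0 := by rw [hX0]; have := Real.sqrt_pos.2 hcD0; positivity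
  obtain ⟨r, hr⟩ : ∃ r : ℕ, 32 * Real.exp G0 * X0 / ε ≤ (r:ℝ) := exists_nat_ge _
  set c2 : ℝ := min (1 / 2) (ε ^ 2 / 65536) with hc2
  have hc20 : 0 < c2 := lt_min (by norm_num) (by positivity)
  have e1 := near_small (c := ε ^ 2 / 4096) hε (by positivity)
  have e2 := far_small hc20 hη0 D r hD1
  have e3 : ∀ᶠ n : ℕ in atTop, 2 / η ≤ (n:ℝ) ∧ 2 * (D:ℝ) ≤ n ∧ 2 ≤ (n:ℝ) ∧ (5 / η) ≤ (n:ℝ) ∧
      ((8 / ε) * (11 + 2 * Real.exp G0)) ^ 2 ≤ (n:ℝ) ∧ (ε / 16) ^ 2 ≤ (n:ℝ) :=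
    tendsto_natCast_atTop_atTop.eventually ((eventually_ge_atTop _).and ((eventually_ge_atTop _).and
      ((eventually_ge_atTop _).and ((eventually_ge_atTop _).and ((eventually_ge_atTop _).and (eventually_ge_atTop _))))))
  have e4 : ∀ᶠ n : ℕ in atTop, (n:ℝ) ^ 2 * Real.exp (-(1 * (n:ℝ))) ≤ 1 / 2 :=
    tendsto_natCast_atTop_atTop.eventually (ev_pow_exp 2 one_pos (by norm_num))
  obtain ⟨N, hN⟩ := eventually_atTop.1 (e1.and (e2.and (e3.and e4)))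
  refine ⟨N, fun n hn A hA => ?_⟩
  obtain ⟨f1, f2, ⟨g1, g2, g3, g4, g5, g6⟩, f4⟩ := hN n hn
  rw [one_mul] at f4
  have hn0 : (0:ℝ) < n := by linarith
  have hn1 : (1:ℝ) ≤ n := by linarith
  have hnN : n ≠ 0 := by
    intro h; rw [h] at hn0; simp at hn0
  have : NeZero n := ⟨hnN⟩
  have : NeZero (n ^ 30) := ⟨pow_ne_zero _ hnN⟩
  set sq : ℝ := Real.sqrt n with hsq
  have hsq0 : 0 < sq := Real.sqrt_pos.2 hn0
  have hsqsq : sq * sq = n := Real.mul_self_sqrt hn0.le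
  set κ : ℝ := 1 / (2 * D * n ^ 10) with hκ
  have hκ0 : 0 < κ := by rw [hκ]; positivity
  have hpown : ∀ k : ℕ, 1 ≤ k → (n:ℝ) ≤ (n:ℝ) ^ k := fun k hk => by
    calc (n:ℝ) = n ^ 1 := (pow_one _).symm
      _ ≤ n ^ k := pow_le_pow_right₀ hn1 hk
  have hpow1 : ∀ k : ℕ, (1:ℝ) ≤ (n:ℝ) ^ k := fun k => one_le_pow₀ hn1
  have h2κt0 : 2 * κ * (n:ℝ) ^ 10 = 1 / D := by rw [hκ]; field_simp
  have h2κT : 2 * κ * (D * (n:ℝ) ^ 11) = n := by rw [hκ]; field_simp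
  have hnκ : 2 * n * κ ≤ η := by
    have : 2 * n * κ = 1 / (D * n ^ 9) := by rw [hκ]; field_simp
    rw [this, div_le_iff₀ (by positivity)]
    exact aux1 (g1.trans (hpown 9 (by norm_num))) hη0 hD1r
  have hκ2 : 2 * κ < 1 := by
    have : 2 * κ = 1 / (D * n ^ 10) := by rw [hκ]; field_simp
    rw [this, div_lt_one (by positivity)]
    have h1 : (n:ℝ) ^ 10 ≤ D * (n:ℝ) ^ 10 := le_mul_of_one_le_left (by positivity) hD1r
    linarith [hpown 10 (by norm_num)]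
  set θ : ℝ := 1 - 2 * κ with hθ
  have hθ0 : 0 ≤ θ := by linarith
  have hθexp : ∀ k : ℕ, θ ^ k ≤ Real.exp (-(2 * κ * k)) := by
    intro k
    have : θ ≤ Real.exp (-(2 * κ)) := by
      have := Real.add_one_le_exp (-(2 * κ)); linarith
    calc θ ^ k ≤ (Real.exp (-(2 * κ))) ^ k := pow_le_pow_left₀ hθ0 this k
      _ = _ := by rw [← Real.exp_nat_mul]; congr 1; ring
  set t0 : ℕ := n ^ 10 with ht0
  set T : ℕ := D * n ^ 11 with hT
  have ht0r : (t0:ℝ) = (n:ℝ) ^ 10 := by rw [ht0]; push_cast; ring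
  have hTr : (T:ℝ) = D * (n:ℝ) ^ 11 := by rw [hT]; push_cast; ring
  have hθt0 : cD ≤ 1 - θ ^ t0 := by
    have := hθexp t0
    rw [ht0r, h2κt0] at this
    rw [hcD]; linarith
  have hθt0' : 1 - θ ^ t0 ≤ 1 / D := by
    have := one_add_mul_le_pow (show (-2:ℝ) ≤ -(2 * κ) by linarith) t0
    have h3 : 1 + (t0:ℝ) * (-(2 * κ)) = 1 - 1 / D := by
      rw [ht0r, ← h2κt0]; ring
    rw [h3] at this
    have h4 : 1 + -(2 * κ) = θ := by rw [hθ]; ring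
    rw [h4] at this
    linarith
  have hθT : θ ^ T ≤ Real.exp (-(n:ℝ)) := by
    have := hθexp T
    rwa [hTr, h2κT] at this
  have hθT0 : 0 ≤ θ ^ (t0 + T) := pow_nonneg hθ0 _
  have hθt0T : θ ^ (t0 + T) ≤ Real.exp (-(n:ℝ)) := by
    rw [pow_add]
    have : θ ^ t0 ≤ 1 := pow_le_one₀ hθ0 (by linarith)
    exact aux2 this (pow_nonneg hθ0 T) hθT
  have hexpn : (n:ℝ) * Real.exp (-(n:ℝ)) ≤ 1 / 2 := by
    exact aux3 hn1 (Real.exp_pos (-(n:ℝ))).le f4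
  have hρ0 : 0 ≤ 1 - ε / (16 * sq) := by
    have : ε / (16 * sq) ≤ 1 := by
      rw [div_le_one (by positivity)]
      have h1 : ε / 16 ≤ sq := by
        rw [hsq]; exact Real.le_sqrt_of_sq_le g6
      linarith
    linarith
  have hρ1 : 1 - ε / (16 * sq) ≤ 1 := by
    have : 0 ≤ ε / (16 * sq) := by positivity
    linarith
  obtain ⟨φ, hφ⟩ := main_params (M := n ^ 30) A hA t0 T r (⌈(n : ℝ) ^ ((1:ℝ) / 8)⌉₊) T
    (Nat.one_le_pow _ _ (Nat.pos_of_ne_zero hnN)) hκ0 hη0 hη1 hnκ hρ0 hρ1 hκ2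
    (by
      have := mul_le_mul_of_nonneg_left hθt0T hn0.le
      rw [← hθ]; linarith)
  refine ⟨φ, ?_⟩
  rw [div_le_iff₀ (by positivity)]
  refine hφ.trans ?_
  rw [mul_comm (ε * sq)]
  apply mul_le_mul_of_nonneg_left _ (by positivity)
  rw [← hθ]
  -- M terms
  have hMr : ((n ^ 30 : ℕ) : ℝ) = (n:ℝ) ^ 30 := by push_cast; ring
  rw [hMr]
  -- exponent
  have hG : 23 / (η ^ 2 * (1 - θ ^ t0)) + 2 * T / (n:ℝ) ^ 30 ≤ G0 := by
    rw [hG0]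
    apply add_le_add
    · apply div_le_div_of_nonneg_left (by norm_num) (by positivity)
      exact mul_le_mul_of_nonneg_left hθt0 (by positivity)
    · rw [hTr, div_le_one (by positivity)]
      have : (n:ℝ) ^ 30 = n ^ 19 * n ^ 11 := by ring
      rw [this, ← mul_assoc]
      apply mul_le_mul_of_nonneg_right _ (by positivity)
      linarith [hpown 19 (by norm_num)]
  have hX : 2 / (η * Real.sqrt (1 - θ ^ t0)) ≤ X0 := by
    rw [hX0]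
    apply div_le_div_of_nonneg_left (by norm_num) (by have := Real.sqrt_pos.2 hcD0; positivity)
    exact mul_le_mul_of_nonneg_left (Real.sqrt_le_sqrt hθt0) hη0.le
  have hS : 2 * (Real.exp (23 / (η ^ 2 * (1 - θ ^ t0)) + 2 * T / (n:ℝ) ^ 30) *
      (1 + 2 * sq * (2 / (η * Real.sqrt (1 - θ ^ t0))) / (r + 1))) ≤ 2 * Real.exp G0 + ε / 8 * sq := by
    have a1 : Real.exp (23 / (η ^ 2 * (1 - θ ^ t0)) + 2 * T / (n:ℝ) ^ 30) ≤ Real.exp G0 := Real.exp_le_exp.2 hG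
    have a2 : 1 + 2 * sq * (2 / (η * Real.sqrt (1 - θ ^ t0))) / (r + 1) ≤ 1 + 2 * sq * X0 / (r + 1) := by
      have : 2 * sq * (2 / (η * Real.sqrt (1 - θ ^ t0))) / (r + 1) ≤ 2 * sq * X0 / (r + 1) := by
        apply div_le_div_of_nonneg_right _ (by positivity)
        exact mul_le_mul_of_nonneg_left hX (by positivity)
      linarith
    have a3 : 0 ≤ 2 * sq * (2 / (η * Real.sqrt (1 - θ ^ t0))) / ((r:ℝ) + 1) := by
      have : 0 ≤ Real.sqrt (1 - θ ^ t0) := Real.sqrt_nonneg _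
      positivity
    have a4 : 4 * Real.exp G0 * sq * X0 / (r + 1) ≤ ε / 8 * sq := by
      rw [div_le_iff₀ (by positivity)]
      exact aux4 hε hsq0 ((div_le_iff₀ hε).1 hr)
    calc _ ≤ 2 * (Real.exp G0 * (1 + 2 * sq * X0 / (r + 1))) := by
          apply mul_le_mul_of_nonneg_left _ (by norm_num)
          exact mul_le_mul a1 a2 (by linarith) (Real.exp_pos _).le
      _ = 2 * Real.exp G0 + 4 * Real.exp G0 * sq * X0 / (r + 1) := by ring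
      _ ≤ _ := by linarith
  -- load
  set L := LBn n (⌈(n : ℝ) ^ ((1:ℝ) / 8)⌉₊) T r (n ^ 30) κ η (1 - ε / (16 * sq)) (θ ^ (t0 + T)) with hL
  have hδval : (10 * (n:ℝ) ^ 2 * κ ^ 2 + 2 / ((n ^ 30 : ℕ) : ℝ)) / η ≤ 5 / (η * n ^ 18) := by
    rw [hMr]
    have a1 : 10 * (n:ℝ) ^ 2 * κ ^ 2 = (5 / 2) / (D ^ 2 * n ^ 18) := by
      rw [hκ]; field_simp; ring
    have a2 : (5 / 2) / ((D:ℝ) ^ 2 * n ^ 18) ≤ (5 / 2) / n ^ 18 := by
      apply div_le_div_of_nonneg_left (by norm_num) (by positivity)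
      exact aux10 hD1r (by positivity)
    have a3 : 2 / (n:ℝ) ^ 30 ≤ 2 / n ^ 18 := by
      apply div_le_div_of_nonneg_left (by norm_num) (by positivity)
      exact pow_le_pow_right₀ hn1 (by norm_num)
    rw [a1]
    calc _ ≤ (5 / 2 / (n:ℝ) ^ 18 + 2 / n ^ 18) / η := by
          apply div_le_div_of_nonneg_right _ hη0.le
          linarith
      _ = (9 / 2) / (η * n ^ 18) := by field_simp; norm_num
      _ ≤ 5 / (η * n ^ 18) := by
          apply div_le_div_of_nonneg_right _ (by positivity)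
          norm_num
  have hδ0 : 0 ≤ (10 * (n:ℝ) ^ 2 * κ ^ 2 + 2 / ((n ^ 30 : ℕ) : ℝ)) / η := by positivity
  have hδ1 : (10 * (n:ℝ) ^ 2 * κ ^ 2 + 2 / ((n ^ 30 : ℕ) : ℝ)) / η ≤ 1 := by
    refine hδval.trans ?_
    rw [div_le_one (by positivity)]
    have h1 : 5 ≤ η * n := by
      have := (div_le_iff₀ hη0).1 g4; linarith
    exact h1.trans (mul_le_mul_of_nonneg_left (hpown 18 (by norm_num)) hη0.le)
  set E : ℝ := 4 * n * Real.exp (-(n:ℝ)) + 15 * D / (η * n ^ 7) +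
      (D * n ^ 11) * ((r : ℝ) / (r + 1)) ^ (⌈(n : ℝ) ^ ((1:ℝ) / 8)⌉₊) * (16 / η ^ 2) with hE
  have hE0 : 0 ≤ E := by
    rw [hE]; have := Real.exp_pos (-(n:ℝ)); positivity
  have hE1 : E ≤ 1 / 2 := by
    have : E ≤ n * E := aux5 hn1 hE0
    exact this.trans (f2.trans (min_le_left _ _))
  have hEE : 4 * n * θ ^ (t0 + T) + T * (3 * ((10 * (n:ℝ) ^ 2 * κ ^ 2 + 2 / ((n ^ 30 : ℕ) : ℝ)) / η) +
      ((r : ℝ) / (r + 1)) ^ (⌈(n : ℝ) ^ ((1:ℝ) / 8)⌉₊) * (16 / η ^ 2)) ≤ E := by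
    have a1 : 4 * n * θ ^ (t0 + T) ≤ 4 * n * Real.exp (-(n:ℝ)) := mul_le_mul_of_nonneg_left hθt0T (by positivity)
    have a2 : (T:ℝ) * (3 * ((10 * (n:ℝ) ^ 2 * κ ^ 2 + 2 / ((n ^ 30 : ℕ) : ℝ)) / η)) ≤ 15 * D / (η * n ^ 7) := by
      have b1 : (T:ℝ) * (3 * (5 / (η * n ^ 18))) = 15 * D / (η * n ^ 7) := by
        rw [hTr]; field_simp; ring
      rw [← b1]
      exact mul_le_mul_of_nonneg_left (mul_le_mul_of_nonneg_left hδval (by norm_num)) (Nat.cast_nonneg _)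
    have a3 : (T:ℝ) * (((r : ℝ) / (r + 1)) ^ (⌈(n : ℝ) ^ ((1:ℝ) / 8)⌉₊) * (16 / η ^ 2)) =
        (D * n ^ 11) * ((r : ℝ) / (r + 1)) ^ (⌈(n : ℝ) ^ ((1:ℝ) / 8)⌉₊) * (16 / η ^ 2) := by
      rw [hTr]; ring
    rw [mul_add, a3, hE]
    linarith
  have hLb := LBn_bound (ρ := 1 - ε / (16 * sq)) (m := ⌈(n : ℝ) ^ ((1:ℝ) / 8)⌉₊) hθT0 rfl hδ0 hδ1 hEE hE1
  rw [← hL] at hLb
  have hnL : n * L ≤ ε ^ 2 / 2048 := by
    have a1 : n * L ≤ n * (3 * (n : ℝ) ^ (⌈(n : ℝ) ^ ((1:ℝ) / 8)⌉₊) *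
      ((1 + (1 - ε / (16 * sq))) / 2) ^ n) + 16 * (n * E) := by
      have := mul_le_mul_of_nonneg_left hLb hn0.le
      linarith
    have a2 : n * E ≤ ε ^ 2 / 65536 := f2.trans (min_le_right _ _)
    linarith
  have hload : n * Real.sqrt (2 * L) ≤ ε / 32 * sq := aux6 hn0 hsq0 hsqsq hε hnL
  have hρt : n * (1 - (1 - ε / (16 * sq))) = ε / 16 * sq := by
    rw [← hsqsq]; field_simp; ring
  have hD3 : 3 * sq * Real.sqrt (1 - θ ^ t0) ≤ ε / 16 * sq := by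
    have a1 : Real.sqrt (1 - θ ^ t0) ≤ ε / 48 := by
      apply Real.sqrt_le_iff.2
      refine ⟨by positivity, hθt0'.trans ?_⟩
      rw [div_le_iff₀ hD0]
      exact h48
    calc 3 * sq * Real.sqrt (1 - θ ^ t0) ≤ 3 * sq * (ε / 48) := mul_le_mul_of_nonneg_left a1 (by positivity)
      _ = ε / 16 * sq := by ring
  have hη3 : η * (3 * sq) ≤ ε / 16 * sq := by
    calc η * (3 * sq) ≤ ε / 48 * (3 * sq) := mul_le_mul_of_nonneg_right hηε (by positivity)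
      _ = ε / 16 * sq := by ring
  have s1 : n * κ ≤ 1 := by
    have : 2 * n * κ = 2 * (n * κ) := by ring
    have h0 : 0 ≤ n * κ := by positivity
    linarith
  have s2 : 2 * (n:ℝ) ^ 3 * κ ^ 2 * t0 ≤ 1 := by
    have : 2 * (n:ℝ) ^ 3 * κ ^ 2 * t0 = 1 / (2 * D ^ 2 * n ^ 7) := by
      rw [ht0r, hκ]; field_simp
    rw [this, div_le_one (by positivity)]
    exact aux7 hD1r (hpow1 7)
  have s3 : 2 * (n:ℝ) ^ 3 * κ ^ 2 * T ≤ 1 := by
    have : 2 * (n:ℝ) ^ 3 * κ ^ 2 * T = 1 / (2 * D * n ^ 6) := by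
      rw [hTr, hκ]; field_simp
    rw [this, div_le_one (by positivity)]
    exact aux8 hD1r (hpow1 6)
  have s4 : (n:ℝ) ^ 2 * θ ^ T ≤ 1 := by
    have := mul_le_mul_of_nonneg_left hθT (show (0:ℝ) ≤ (n:ℝ) ^ 2 by positivity)
    linarith
  have s5 : η * (n * κ + 2 * (n:ℝ) ^ 3 * κ ^ 2 * T + (n:ℝ) ^ 2 * θ ^ T) ≤ 3 := by
    have h1 : n * κ + 2 * (n:ℝ) ^ 3 * κ ^ 2 * T + (n:ℝ) ^ 2 * θ ^ T ≤ 3 := by linarith
    exact aux9 hη0.le hη1 h1
  have hbig : 11 + 2 * Real.exp G0 ≤ ε / 8 * sq := by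
    have : 8 / ε * (11 + 2 * Real.exp G0) ≤ sq := by
      rw [hsq]; exact Real.le_sqrt_of_sq_le g5
    have h2 := mul_le_mul_of_nonneg_left this (show 0 ≤ ε / 8 by positivity)
    have h3 : ε / 8 * (8 / ε * (11 + 2 * Real.exp G0)) = 11 + 2 * Real.exp G0 := by field_simp
    linarith
  rw [hρt]
  have hηe : η * (3 * sq + n * κ + 2 * (n:ℝ) ^ 3 * κ ^ 2 * T + (n:ℝ) ^ 2 * θ ^ T) =
      η * (3 * sq) + η * (n * κ + 2 * (n:ℝ) ^ 3 * κ ^ 2 * T + (n:ℝ) ^ 2 * θ ^ T) := by ring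
  rw [hηe]
  have hεs : 0 ≤ ε * sq := by positivity
  have q1 : ε / 8 * sq = (1 / 8) * (ε * sq) := by ring
  have q2 : ε / 16 * sq = (1 / 16) * (ε * sq) := by ring
  have q3 : ε / 32 * sq = (1 / 32) * (ε * sq) := by ring
  rw [q1] at hS hbig
  rw [q2] at hD3 hη3
  rw [q3] at hload
  rw [q2]
  linarith

end H29Str
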