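import Pool.Agent.H29Str.Final
set_option autoImplicit false
set_option linter.unusedSectionVars false
namespace H29Str
open Finset
variable {n : ℕ}

lemma geom_le {κ : ℝ} (hκ : 0 ≤ κ) (hκ1 : 2 * κ ≤ 1) (T : ℕ) :
    ∑ s ∈ range T, κ * (1 - 2 * κ) ^ (s + 1) ≤ 1 / 2 := by
  have h : ∀ T : ℕ, ∑ s ∈ range T, κ * (1 - 2 * κ) ^ s = (1 - (1 - 2 * κ) ^ T) / 2 := by
    intro T
    induction T with
    | zero => simp
    | succ T ih => rw [Finset.sum_range_succ, ih, pow_succ]; ring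
  calc ∑ s ∈ range T, κ * (1 - 2 * κ) ^ (s + 1) ≤ ∑ s ∈ range T, κ * (1 - 2 * κ) ^ s := by
        apply Finset.sum_le_sum
        intro s _
        apply mul_le_mul_of_nonneg_left _ hκ
        exact pow_le_pow_of_le_one (by linarith) (by linarith) (by omega)
    _ = (1 - (1 - 2 * κ) ^ T) / 2 := h T
    _ ≤ 1 / 2 := by
        have : (0:ℝ) ≤ (1 - 2 * κ) ^ T := pow_nonneg (by linarith) _
        linarith

/-- error per particle in the load -/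
noncomputable def LBn (n m T r : ℕ) (M : ℕ) (κ η ρ θT : ℝ) : ℝ :=
  3 * (n : ℝ) ^ m * ((1 + ρ) / 2) ^ n +
      4 * ((1 + 2 * (n * θT)) ^ 2 * ((1 + (10 * n ^ 2 * κ ^ 2 + 2 / M) / η) ^ 2 +
        ((r : ℝ) / (r + 1)) ^ m * (16 / η ^ 2)) ^ T - 1) +
      4 * ((1 + 2 * (n * θT)) * (1 + (10 * n ^ 2 * κ ^ 2 + 2 / M) / η) ^ T - 1)

set_option maxHeartbeats 4000000 in
theorem main_params [NeZero n] {M : ℕ} [NeZero M] (A : Finset (Fin (n + 1) → Bool)) (hA : A.card = 2 ^ n)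
    {κ η ρ : ℝ} (t0 T r m s : ℕ) (ht0 : 1 ≤ t0) (hκ : 0 < κ) (hη : 0 < η) (hη1 : η ≤ 1)
    (hnκ : 2 * n * κ ≤ η) (h0 : 0 ≤ ρ) (h1 : ρ ≤ 1) (hκ2 : 2 * κ < 1)
    (hT : n * (1 - 2 * κ) ^ (t0 + T) ≤ 1 / 2) :
    ∃ φ : Q n ≃ A, (∑ x : Q n, ∑ i : Fin n,
      (hammingDist (φ x).1 (φ (Function.update x i (!x i))).1 : ℝ)) ≤
      (n * 2 ^ n) * (1 +
        2 * (Real.exp (23 / (η ^ 2 * (1 - (1 - 2 * κ) ^ t0)) + 2 * T / M) *
          (1 + 2 * Real.sqrt n * (2 / (η * Real.sqrt (1 - (1 - 2 * κ) ^ t0))) / (r + 1))) +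
        2 * (n * (1 - ρ) + n * Real.sqrt (2 * LBn n m T r M κ η ρ ((1 - 2 * κ) ^ (t0 + T))) +
          ((3 * Real.sqrt n * Real.sqrt (1 - (1 - 2 * κ) ^ t0) + n * κ + 2 * n ^ 3 * κ ^ 2 * t0) +
            η * ((3 * Real.sqrt n + n * κ + 2 * n ^ 3 * κ ^ 2 * s) + n ^ 2 * (1 - 2 * κ) ^ s)))) := by
  have hn0 : (0:ℝ) < n := npos
  have hn1 : 1 ≤ n := Nat.pos_of_ne_zero (NeZero.ne n)
  have hM0 : (0:ℝ) < M := Mpos
  have hn1r : (1:ℝ) ≤ n := by exact_mod_cast hn1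
  have hκ1 : 2 * κ ≤ 1 := hκ2.le
  set a : Q n → ℝ := fib A with ha
  have ha0 := fib_nonneg A
  have ha2 := fib_le A
  have has := fib_sum A hA
  set θ : ℝ := 1 - 2 * κ with hθ
  have hθ0 : 0 < θ := by linarith
  have hθ1 : θ < 1 := by linarith
  have hθt0 : 0 < 1 - θ ^ t0 := by
    have : θ ^ t0 < 1 := pow_lt_one₀ hθ0.le hθ1 (by omega)
    linarith
  -- the chain
  set d : ℕ → Q n → ℝ := dens κ η t0 a with hd
  set c : ℕ → Q n → Fin n → ℕ := fun t => cth M κ (d (t + 1)) with hc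
  set g : ℕ → Fin n × Fin M → Q n → Q n := fun t ω u => Gm (c t) ω u with hg
  have hd1 : ∀ t v, η ≤ d t v := dens_ge hκ.le hκ1 hη1 t0 a ha0
  have hd2 : ∀ t v, d t v ≤ 2 := dens_le hκ.le hκ1 hη.le hη1 t0 a ha2
  have hds : ∑ v, d 0 v = 2 ^ n := dens_sum κ η t0 a has 0
  have hcM : ∀ t u j, c t u j ≤ M := fun t u j => c_le (d (t + 1)) hκ hη hnκ (hd1 _) (hd2 _) u j
  have hpush : Push g d ((10 * n ^ 2 * κ ^ 2 + 2 / M) / η) := push_dens t0 a ha0 ha2 hκ hη hη1 hnκ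
  have hδ : (0:ℝ) ≤ (10 * n ^ 2 * κ ^ 2 + 2 / M) / η := by positivity
  have hpre : ∀ t ω v, (univ.filter (fun u => g t ω u = v)).card ≤ 2 := fun t ω v => preimage_card (c t) ω v
  -- stretch
  set γ : ℕ → ℝ := fun t => 46 * κ * θ ^ (t + 1) / (η ^ 2 * (1 - θ ^ t0)) + 2 / M with hγ
  set χ : ℕ → ℝ := fun t => 4 * κ * θ ^ (t + 1) / (η * Real.sqrt (1 - θ ^ t0)) with hχ
  have hγ0 : ∀ t, 0 < γ t := fun t => by rw [hγ]; positivity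
  have hχ0 : ∀ t, 0 ≤ χ t := fun t => by rw [hχ]; positivity
  have hα : ∀ t u, ∑ i, ∑ j, (|(c t u j : ℝ) - c t (flip i u) j| / M) ^ 2 ≤ (n * γ t) ^ 2 :=
    fun t u => gamma_bound' t0 (t + 1) ht0 a ha0 ha2 hκ hη hη1 hnκ hκ2 u
  have hq : ∀ t u, ∑ j, ((c t u j : ℝ) / M) ^ 2 ≤ (n * χ t) ^ 2 :=
    fun t u => chi_bound' t0 (t + 1) ht0 a ha0 ha2 hκ hη hη1 hnκ hκ2 u
  have hgeom := geom_le hκ.le hκ1 T
  have hGs : ∑ s ∈ range T, γ s ≤ 23 / (η ^ 2 * (1 - θ ^ t0)) + 2 * T / M := by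
    rw [hγ]
    simp only
    rw [Finset.sum_add_distrib, Finset.sum_const, card_range, nsmul_eq_mul]
    have e1 : ∑ s ∈ range T, 46 * κ * θ ^ (s + 1) / (η ^ 2 * (1 - θ ^ t0)) =
        46 / (η ^ 2 * (1 - θ ^ t0)) * ∑ s ∈ range T, κ * θ ^ (s + 1) := by
      rw [Finset.mul_sum]
      exact Finset.sum_congr rfl (fun s _ => by ring)
    rw [e1]
    have e2 : 46 / (η ^ 2 * (1 - θ ^ t0)) * ∑ s ∈ range T, κ * θ ^ (s + 1) ≤
        46 / (η ^ 2 * (1 - θ ^ t0)) * (1 / 2) := mul_le_mul_of_nonneg_left hgeom (by positivity)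
    have e3 : 46 / (η ^ 2 * (1 - θ ^ t0)) * (1 / 2) = 23 / (η ^ 2 * (1 - θ ^ t0)) := by ring
    have e4 : (T:ℝ) * (2 / M) = 2 * T / M := by ring
    linarith
  have hXs : ∑ s ∈ range T, χ s ≤ 2 / (η * Real.sqrt (1 - θ ^ t0)) := by
    rw [hχ]
    simp only
    have e1 : ∑ s ∈ range T, 4 * κ * θ ^ (s + 1) / (η * Real.sqrt (1 - θ ^ t0)) =
        4 / (η * Real.sqrt (1 - θ ^ t0)) * ∑ s ∈ range T, κ * θ ^ (s + 1) := by
      rw [Finset.mul_sum]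
      exact Finset.sum_congr rfl (fun s _ => by ring)
    rw [e1]
    have e2 : 4 / (η * Real.sqrt (1 - θ ^ t0)) * ∑ s ∈ range T, κ * θ ^ (s + 1) ≤
        4 / (η * Real.sqrt (1 - θ ^ t0)) * (1 / 2) := mul_le_mul_of_nonneg_left hgeom (by positivity)
    have e3 : 4 / (η * Real.sqrt (1 - θ ^ t0)) * (1 / 2) = 2 / (η * Real.sqrt (1 - θ ^ t0)) := by ring
    linarith
  have hstretch := stretch_total c γ χ hγ0 hχ0 hcM hα hq T r hGs hXs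
  set SB : ℝ := 2 ^ n * (n * Real.exp (23 / (η ^ 2 * (1 - θ ^ t0)) + 2 * T / M) *
    (1 + 2 * Real.sqrt n * (2 / (η * Real.sqrt (1 - θ ^ t0))) / (r + 1))) with hSB
  have hSB0 : 0 < SB := by rw [hSB]; positivity
  -- load
  have hθT0 : 0 ≤ θ ^ (t0 + T) := pow_nonneg hθ0.le _
  have hθT1 : θ ^ (t0 + T) ≤ 1 := pow_le_one₀ hθ0.le hθ1.le
  have hB1 : 1 ≤ 1 + 2 * (n * θ ^ (t0 + T)) := by
    have : 0 ≤ 2 * (n * θ ^ (t0 + T)) := by positivity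
    linarith
  have hBd : ∀ v, 1 ≤ (1 + 2 * (n * θ ^ (t0 + T))) * d T v := by
    intro v
    have b1 := P_lower hθT0 hθT1 a ha0 has v
    have b2 : 1 - n * θ ^ (t0 + T) ≤ d T v := by
      rw [hd]
      unfold dens
      rw [← hθ]
      nlinarith [mul_nonneg hn0.le hθT0]
    have b3 : 0 ≤ n * θ ^ (t0 + T) := by positivity
    set x := (n:ℝ) * θ ^ (t0 + T) with hx
    have b4 : (1 + 2 * x) * (1 - x) ≤ (1 + 2 * x) * d T v := mul_le_mul_of_nonneg_left b2 (by linarith)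
    nlinarith
  have hload := load_bound g d (Nr := 3 * (n:ℝ) ^ m) hη hδ hd1 hd2 hds hpush hpre T hB1 hBd h0 h1 r m
    (fun z1 => near_card hn1 z1 m)
  set L := LBn n m T r M κ η ρ (θ ^ (t0 + T)) with hL
  have hL0 : 0 < L := by
    rw [hL]
    unfold LBn
    have b1 : 0 < 3 * (n : ℝ) ^ m * ((1 + ρ) / 2) ^ n := by positivity
    have b2 : 1 ≤ (1 + 2 * (n * θ ^ (t0 + T))) ^ 2 * ((1 + (10 * n ^ 2 * κ ^ 2 + 2 / M) / η) ^ 2 +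
        ((r : ℝ) / (r + 1)) ^ m * (16 / η ^ 2)) ^ T := by
      have c1 : (1:ℝ) ≤ (1 + 2 * (n * θ ^ (t0 + T))) ^ 2 := one_le_pow₀ hB1
      have c2 : (1:ℝ) ≤ (1 + (10 * n ^ 2 * κ ^ 2 + 2 / M) / η) ^ 2 := one_le_pow₀ (by linarith)
      have c3 : (0:ℝ) ≤ ((r : ℝ) / (r + 1)) ^ m * (16 / η ^ 2) := by positivity
      have c4 : (1:ℝ) ≤ ((1 + (10 * n ^ 2 * κ ^ 2 + 2 / M) / η) ^ 2 +
        ((r : ℝ) / (r + 1)) ^ m * (16 / η ^ 2)) ^ T := one_le_pow₀ (by linarith)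
      exact one_le_mul_of_one_le_of_one_le c1 c4
    have b3 : 1 ≤ (1 + 2 * (n * θ ^ (t0 + T))) * (1 + (10 * n ^ 2 * κ ^ 2 + 2 / M) / η) ^ T := by
      have c2 : (1:ℝ) ≤ (1 + (10 * n ^ 2 * κ ^ 2 + 2 / M) / η) ^ T := one_le_pow₀ (by linarith)
      exact one_le_mul_of_one_le_of_one_le hB1 c2
    linarith
  have hload' : (∑ z1, ∑ z2, It g (lamf r z1 z2) T (kk ρ) z1 z2) - 2 * (∑ z, Ks g T (ff ρ (d 0)) z) +
      ∑ x, (P ρ (d 0) x) ^ 2 ≤ 2 ^ n * L := by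
    refine hload.trans (le_of_eq ?_)
    rw [hL]
    unfold LBn
    ring
  obtain ⟨ψ, hψ1, hψ2⟩ := exists_psi g (d 0) r T hSB0 (show 0 < 2 ^ n * L by positivity) hstretch hload'
  -- transport
  have tr1 := Tr_load h0 h1 (d 0) (fun v => hη.le.trans (hd1 0 v)) hds ψ hψ2
  have tr2 := Tr_dens hκ (hnκ.trans hη1) hη.le hη1 hn1 hκ1 a ha0 ha2 has t0 s
  have tr3 := tr1.trans tr2
  obtain ⟨φ, hφ⟩ := exists_equiv ψ A hA tr3
  refine ⟨φ, (stretch_le ψ A φ).trans ?_⟩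
  have e1 : Real.sqrt (2 ^ n * (2 * (2 ^ n * L))) = 2 ^ n * Real.sqrt (2 * L) := by
    have : (2:ℝ) ^ n * (2 * (2 ^ n * L)) = (2 ^ n) ^ 2 * (2 * L) := by ring
    rw [this, Real.sqrt_mul (by positivity), Real.sqrt_sq (by positivity)]
  rw [e1] at hφ
  have e2 := mul_le_mul_of_nonneg_left hφ (show (0:ℝ) ≤ 2 * n by positivity)
  have e3 : ∑ x : Q n, ∑ i : Fin n, (hammingDist (ψ x) (ψ (flip i x)) : ℝ) ≤ 2 * SB := hψ1
  calc _ ≤ n * 2 ^ n + 2 * SB + 2 * n * (2 * (n * ((1 - ρ) / 2) * 2 ^ n) + n * (2 ^ n * Real.sqrt (2 * L)) +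
      2 ^ n * ((3 * Real.sqrt n * Real.sqrt (1 - (1 - 2 * κ) ^ t0) + n * κ + 2 * n ^ 3 * κ ^ 2 * t0) +
        η * ((3 * Real.sqrt n + n * κ + 2 * n ^ 3 * κ ^ 2 * s) + n ^ 2 * (1 - 2 * κ) ^ s))) := by
        linarith
    _ = _ := by
        rw [hSB, ← hθ]
        ring

end H29Str
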