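import Pool.Agent.H29Str.Defs

set_option autoImplicit false

namespace H29Str
open Finset
variable {n : ℕ}

lemma flip_flip (j : Fin n) (v : Q n) : flip j (flip j v) = v := by
  unfold flip
  simp

lemma ax_w_nonneg {ρ : ℝ} (h0 : 0 ≤ ρ) (h1 : ρ ≤ 1) (b c : Bool) : 0 ≤ w ρ b c := by
  unfold w; split_ifs <;> linarith

lemma ax_w_symm (ρ : ℝ) (b c : Bool) : w ρ b c = w ρ c b := by
  unfold w; simp only [eq_comm]

lemma ax_w_not (ρ : ℝ) (b c : Bool) : w ρ (!b) (!c) = w ρ b c := by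
  unfold w; cases b <;> cases c <;> simp

lemma ax_w_sum (ρ : ℝ) (b : Bool) : ∑ c, w ρ b c = 1 := by
  unfold w; cases b <;> simp <;> ring

lemma ax_w_comp (ρ ρ' : ℝ) (b c : Bool) : ∑ a, w ρ b a * w ρ' a c = w (ρ * ρ') b c := by
  unfold w; cases b <;> cases c <;> simp <;> ring

lemma ax_prod_sum (g : Fin n → Bool → ℝ) : ∑ u : Q n, ∏ i, g i (u i) = ∏ i, ∑ b, g i b := by
  rw [Finset.prod_univ_sum, Fintype.piFinset_univ]

lemma W_nonneg {ρ : ℝ} (h0 : 0 ≤ ρ) (h1 : ρ ≤ 1) (v u : Q n) : 0 ≤ W ρ v u :=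
  Finset.prod_nonneg fun _ _ => ax_w_nonneg h0 h1 _ _

lemma W_sum (ρ : ℝ) (v : Q n) : ∑ u, W ρ v u = 1 := by
  unfold W
  rw [ax_prod_sum (fun i b => w ρ (v i) b)]
  exact Finset.prod_eq_one fun i _ => ax_w_sum ρ (v i)

lemma W_symm (ρ : ℝ) (v u : Q n) : W ρ v u = W ρ u v := by
  unfold W
  exact Finset.prod_congr rfl fun i _ => ax_w_symm _ _ _

lemma ax_flip_apply (j : Fin n) (v : Q n) (i : Fin n) : flip j v i = if i = j then !v i else v i := by
  unfold flip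
  rw [Function.update_apply]
  by_cases h : i = j
  · subst h; simp
  · simp [h]

lemma W_flip (ρ : ℝ) (j : Fin n) (v u : Q n) : W ρ (flip j v) (flip j u) = W ρ v u := by
  unfold W
  refine Finset.prod_congr rfl fun i _ => ?_
  rw [ax_flip_apply, ax_flip_apply]
  by_cases h : i = j
  · simp [h, ax_w_not]
  · simp [h]

lemma ax_W_comp (ρ ρ' : ℝ) (v x : Q n) : ∑ u, W ρ v u * W ρ' u x = W (ρ * ρ') v x := by
  unfold W
  simp_rw [← Finset.prod_mul_distrib]
  rw [ax_prod_sum (fun i b => w ρ (v i) b * w ρ' b (x i))]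
  exact Finset.prod_congr rfl fun i _ => ax_w_comp _ _ _ _

lemma P_comp (ρ ρ' : ℝ) (h : Q n → ℝ) : P ρ (P ρ' h) = P (ρ * ρ') h := by
  funext v
  unfold P
  simp_rw [Finset.mul_sum]
  rw [Finset.sum_comm]
  refine Finset.sum_congr rfl fun x _ => ?_
  rw [← ax_W_comp, Finset.sum_mul]
  exact Finset.sum_congr rfl fun u _ => by ring

/-- flipping coordinate `j` as a permutation -/
def ax_flipEquiv (j : Fin n) : Q n ≃ Q n := ⟨flip j, flip j, flip_flip j, flip_flip j⟩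

lemma P_flip (ρ : ℝ) (h : Q n → ℝ) (j : Fin n) (v : Q n) :
    P ρ h (flip j v) = P ρ (fun u => h (flip j u)) v := by
  unfold P
  rw [← Equiv.sum_comp (ax_flipEquiv j)]
  refine Finset.sum_congr rfl fun u _ => ?_
  show W ρ (flip j v) (flip j u) * h (flip j u) = _
  rw [W_flip]

lemma W_le {ρ : ℝ} (h0 : 0 ≤ ρ) (h1 : ρ ≤ 1) (v u : Q n) : W ρ v u ≤ ((1 + ρ) / 2) ^ n := by
  unfold W
  calc ∏ i, w ρ (v i) (u i) ≤ ∏ _i : Fin n, (1 + ρ) / 2 := by
        refine Finset.prod_le_prod (fun i _ => ax_w_nonneg h0 h1 _ _) fun i _ => ?_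
        unfold w; split_ifs <;> linarith
    _ = ((1 + ρ) / 2) ^ n := by rw [Finset.prod_const, Finset.card_univ, Fintype.card_fin]

lemma W_ge {ρ : ℝ} (h0 : 0 ≤ ρ) (h1 : ρ ≤ 1) (v u : Q n) : ((1 - ρ) / 2) ^ n ≤ W ρ v u := by
  unfold W
  calc ((1 - ρ) / 2) ^ n = ∏ _i : Fin n, (1 - ρ) / 2 := by
        rw [Finset.prod_const, Finset.card_univ, Fintype.card_fin]
    _ ≤ ∏ i, w ρ (v i) (u i) := by
        refine Finset.prod_le_prod (fun i _ => by linarith) fun i _ => ?_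
        unfold w; split_ifs <;> linarith

lemma ax_hammingDist (v u : Q n) :
    (hammingDist v u : ℝ) = ∑ i, if v i ≠ u i then (1 : ℝ) else 0 := by
  unfold hammingDist
  rw [Finset.card_filter]
  push_cast
  rfl

lemma ax_W_cost_one (ρ : ℝ) (v : Q n) (i : Fin n) :
    ∑ u, W ρ v u * (if v i ≠ u i then (1 : ℝ) else 0) = (1 - ρ) / 2 := by
  have h1 : ∀ u : Q n, W ρ v u * (if v i ≠ u i then (1 : ℝ) else 0) =
      ∏ k, (w ρ (v k) (u k) * (if k = i then (if v k ≠ u k then (1 : ℝ) else 0) else 1)) := by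
    intro u
    rw [Finset.prod_mul_distrib, Finset.prod_ite_eq' Finset.univ i]
    simp [W]
  simp_rw [h1]
  rw [ax_prod_sum (fun k b => w ρ (v k) b * (if k = i then (if v k ≠ b then (1 : ℝ) else 0) else 1))]
  have h2 : ∀ k, (∑ b, w ρ (v k) b * (if k = i then (if v k ≠ b then (1 : ℝ) else 0) else 1)) =
      if k = i then (1 - ρ) / 2 else 1 := by
    intro k
    by_cases hk : k = i
    · simp only [hk, if_true]
      unfold w
      cases v i <;> simp
    · simp only [hk, if_false, mul_one]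
      exact ax_w_sum _ _
  simp_rw [h2]
  rw [Finset.prod_ite_eq']
  simp

lemma W_cost (ρ : ℝ) (v : Q n) : ∑ u, W ρ v u * (hammingDist v u : ℝ) = n * ((1 - ρ) / 2) := by
  simp_rw [ax_hammingDist, Finset.mul_sum]
  rw [Finset.sum_comm]
  simp_rw [ax_W_cost_one]
  simp

end H29Str
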