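import Pool.Agent.H29Str.Defs

set_option autoImplicit false

/-! Task B (Bessel inequality), by helper42. -/

namespace H29Str
open Finset
variable {n : ℕ}

lemma bx_prod_sum (g : Fin n → Bool → ℝ) : ∑ u : Q n, ∏ k, g k (u k) = ∏ k, ∑ c, g k c := by
  rw [Finset.prod_univ_sum, Fintype.piFinset_univ]

/-- The score. -/
noncomputable def bx_s (ρ : ℝ) (b c : Bool) : ℝ := if b = c then -(2 * ρ) / (1 + ρ) else 2 * ρ / (1 - ρ)

lemma bx_w_not {ρ : ℝ} (h0 : 0 ≤ ρ) (h1 : ρ < 1) (b c : Bool) :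
    w ρ (!b) c = w ρ b c * (1 + bx_s ρ b c) := by
  have e1 : (1 + ρ) ≠ 0 := by positivity
  have e2 : (1 - ρ) ≠ 0 := by intro h; linarith
  unfold w bx_s
  cases b <;> cases c <;> simp <;> field_simp <;> ring

lemma bx_sum_w (ρ : ℝ) (b : Bool) : ∑ c, w ρ b c = 1 := by
  unfold w
  rw [Fintype.sum_bool]
  cases b <;> simp <;> ring

lemma bx_sum_ws {ρ : ℝ} (h0 : 0 ≤ ρ) (h1 : ρ < 1) (b : Bool) : ∑ c, w ρ b c * bx_s ρ b c = 0 := by
  have e1 : (1 + ρ) ≠ 0 := by positivity
  have e2 : (1 - ρ) ≠ 0 := by intro h; linarith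
  unfold w bx_s
  rw [Fintype.sum_bool]
  cases b <;> simp <;> field_simp <;> ring

lemma bx_sum_wss {ρ : ℝ} (h0 : 0 ≤ ρ) (h1 : ρ < 1) (b : Bool) :
    ∑ c, w ρ b c * (bx_s ρ b c * bx_s ρ b c) = 4 * ρ ^ 2 / (1 - ρ ^ 2) := by
  have e1 : (1 + ρ) ≠ 0 := by positivity
  have e2 : (1 - ρ) ≠ 0 := by intro h; linarith
  have e3 : (1 - ρ ^ 2) ≠ 0 := by
    have : (1 - ρ ^ 2) = (1 + ρ) * (1 - ρ) := by ring
    rw [this]; exact mul_ne_zero e1 e2
  unfold w bx_s
  rw [Fintype.sum_bool]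
  cases b <;> simp <;> field_simp <;> ring

lemma bx_W_flip {ρ : ℝ} (h0 : 0 ≤ ρ) (h1 : ρ < 1) (j : Fin n) (v u : Q n) :
    W ρ (flip j v) u = W ρ v u * (1 + bx_s ρ (v j) (u j)) := by
  have h : (1 + bx_s ρ (v j) (u j)) = ∏ k : Fin n, (if k = j then 1 + bx_s ρ (v k) (u k) else 1) := by
    rw [Finset.prod_ite_eq']
    simp
  rw [h]
  unfold W
  rw [← Finset.prod_mul_distrib]
  apply Finset.prod_congr rfl
  intro k _
  by_cases hk : k = j
  · subst hk
    simp only [flip, Function.update_self, if_true]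
    exact bx_w_not h0 h1 _ _
  · simp only [flip, Function.update_of_ne hk, if_neg hk, mul_one]

lemma bx_cov {ρ : ℝ} (h0 : 0 ≤ ρ) (h1 : ρ < 1) (v : Q n) (i j : Fin n) :
    ∑ u : Q n, W ρ v u * (bx_s ρ (v i) (u i) * bx_s ρ (v j) (u j)) =
      if i = j then 4 * ρ ^ 2 / (1 - ρ ^ 2) else 0 := by
  let g : Fin n → Bool → ℝ := fun k c => w ρ (v k) c *
        ((if k = i then bx_s ρ (v k) c else 1) * (if k = j then bx_s ρ (v k) c else 1))
  have h : ∀ u : Q n, W ρ v u * (bx_s ρ (v i) (u i) * bx_s ρ (v j) (u j)) =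
      ∏ k, g k (u k) := by
    intro u
    show W ρ v u * (bx_s ρ (v i) (u i) * bx_s ρ (v j) (u j)) = ∏ k, w ρ (v k) (u k) *
        ((if k = i then bx_s ρ (v k) (u k) else 1) * (if k = j then bx_s ρ (v k) (u k) else 1))
    rw [Finset.prod_mul_distrib, Finset.prod_mul_distrib, Finset.prod_ite_eq', Finset.prod_ite_eq']
    simp [W]
  rw [Finset.sum_congr rfl (fun u _ => h u), bx_prod_sum g]
  show ∏ k, ∑ c, w ρ (v k) c *
        ((if k = i then bx_s ρ (v k) c else 1) * (if k = j then bx_s ρ (v k) c else 1)) = _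
  by_cases hij : i = j
  · subst hij
    rw [if_pos rfl]
    have h2 : ∀ k : Fin n, ∑ c, w ρ (v k) c *
        ((if k = i then bx_s ρ (v k) c else 1) * (if k = i then bx_s ρ (v k) c else 1)) =
        if k = i then 4 * ρ ^ 2 / (1 - ρ ^ 2) else 1 := by
      intro k
      by_cases hk : k = i
      · simp only [hk, if_true]
        exact bx_sum_wss h0 h1 _
      · simp only [if_neg hk, mul_one]
        exact bx_sum_w ρ _
    rw [Finset.prod_congr rfl (fun k _ => h2 k), Finset.prod_ite_eq']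
    simp
  · rw [if_neg hij]
    apply Finset.prod_eq_zero (Finset.mem_univ i)
    simp only [if_true, if_neg hij, mul_one]
    exact bx_sum_ws h0 h1 _

lemma bx_D {ρ : ℝ} (h0 : 0 ≤ ρ) (h1 : ρ < 1) (h : Q n → ℝ) (v : Q n) (j : Fin n) :
    P ρ h (flip j v) - P ρ h v = ∑ u : Q n, W ρ v u * (bx_s ρ (v j) (u j) * h u) := by
  unfold P
  rw [← Finset.sum_sub_distrib]
  apply Finset.sum_congr rfl
  intro u _
  rw [bx_W_flip h0 h1]
  ring

lemma bessel {ρ : ℝ} (h0 : 0 ≤ ρ) (h1 : ρ < 1) (h : Q n → ℝ) (v : Q n) :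
    ∑ j, (P ρ h (flip j v) - P ρ h v) ^ 2 ≤ 4 * ρ ^ 2 / (1 - ρ ^ 2) * P ρ (fun u => h u ^ 2) v := by
  set V : ℝ := 4 * ρ ^ 2 / (1 - ρ ^ 2) with hV
  set D : Fin n → ℝ := fun j => P ρ h (flip j v) - P ρ h v with hD
  have hDj : ∀ j, D j = ∑ u : Q n, W ρ v u * (bx_s ρ (v j) (u j) * h u) := fun j => bx_D h0 h1 h v j
  have hWnn : ∀ u, 0 ≤ W ρ v u := by
    intro u
    unfold W w
    apply Finset.prod_nonneg
    intro i _
    split_ifs <;> linarith
  have hpos1 : 0 < 1 - ρ ^ 2 := by nlinarith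
  rcases eq_or_lt_of_le h0 with h00 | h00
  · -- ρ = 0
    have hD0 : ∀ j, D j = 0 := by
      intro j
      rw [hDj]
      apply Finset.sum_eq_zero
      intro u _
      have : bx_s ρ (v j) (u j) = 0 := by
        unfold bx_s
        rw [← h00]
        split_ifs <;> simp
      rw [this]
      ring
    have e1 : ∑ j, (D j) ^ 2 = 0 := by
      apply Finset.sum_eq_zero
      intro j _
      rw [hD0 j]
      ring
    have e2 : V = 0 := by
      rw [hV, ← h00]
      simp
    calc ∑ j, (P ρ h (flip j v) - P ρ h v) ^ 2 = ∑ j, (D j) ^ 2 := rfl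
      _ = 0 := e1
      _ = V * P ρ (fun u => h u ^ 2) v := by rw [e2, zero_mul]
      _ ≤ _ := le_refl _
  · have hVpos : 0 < V := by
      rw [hV]
      apply div_pos _ hpos1
      positivity
    have key : 0 ≤ ∑ u : Q n, W ρ v u * (V * h u - ∑ j, D j * bx_s ρ (v j) (u j)) ^ 2 :=
      Finset.sum_nonneg (fun u _ => mul_nonneg (hWnn u) (sq_nonneg _))
    have hexp : ∑ u : Q n, W ρ v u * (V * h u - ∑ j, D j * bx_s ρ (v j) (u j)) ^ 2 =
        V ^ 2 * P ρ (fun u => h u ^ 2) v - V * ∑ j, (D j) ^ 2 := by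
      have t1 : ∀ u : Q n, W ρ v u * (V * h u - ∑ j, D j * bx_s ρ (v j) (u j)) ^ 2 =
          V ^ 2 * (W ρ v u * h u ^ 2) - 2 * V * ∑ j, D j * (W ρ v u * (bx_s ρ (v j) (u j) * h u)) +
          ∑ i, ∑ j, (D i * D j) * (W ρ v u * (bx_s ρ (v i) (u i) * bx_s ρ (v j) (u j))) := by
        intro u
        have a1 : ∑ j, D j * (W ρ v u * (bx_s ρ (v j) (u j) * h u)) =
            W ρ v u * h u * ∑ j, D j * bx_s ρ (v j) (u j) := by
          rw [Finset.mul_sum]
          apply Finset.sum_congr rfl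
          intro j _
          ring
        have a2 : ∑ i, ∑ j, (D i * D j) * (W ρ v u * (bx_s ρ (v i) (u i) * bx_s ρ (v j) (u j))) =
            W ρ v u * ((∑ j, D j * bx_s ρ (v j) (u j)) * ∑ j, D j * bx_s ρ (v j) (u j)) := by
          rw [Finset.sum_mul_sum, Finset.mul_sum]
          apply Finset.sum_congr rfl
          intro i _
          rw [Finset.mul_sum]
          apply Finset.sum_congr rfl
          intro j _
          ring
        rw [a1, a2]
        ring
      rw [Finset.sum_congr rfl (fun u _ => t1 u), Finset.sum_add_distrib, Finset.sum_sub_distrib,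
        ← Finset.mul_sum, ← Finset.mul_sum]
      have b1 : ∑ u : Q n, ∑ j, D j * (W ρ v u * (bx_s ρ (v j) (u j) * h u)) = ∑ j, (D j) ^ 2 := by
        rw [Finset.sum_comm]
        apply Finset.sum_congr rfl
        intro j _
        rw [← Finset.mul_sum, ← hDj j]
        ring
      have b2 : ∑ u : Q n, ∑ i, ∑ j, (D i * D j) *
          (W ρ v u * (bx_s ρ (v i) (u i) * bx_s ρ (v j) (u j))) = V * ∑ j, (D j) ^ 2 := by
        rw [Finset.sum_comm]
        rw [Finset.mul_sum]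
        apply Finset.sum_congr rfl
        intro i _
        rw [Finset.sum_comm]
        have c1 : ∀ j : Fin n, ∑ u : Q n, (D i * D j) *
            (W ρ v u * (bx_s ρ (v i) (u i) * bx_s ρ (v j) (u j))) =
            if i = j then (D i * D j) * V else 0 := by
          intro j
          rw [← Finset.mul_sum, bx_cov h0 h1]
          by_cases hij : i = j
          · rw [if_pos hij, if_pos hij]
          · rw [if_neg hij, if_neg hij, mul_zero]
        rw [Finset.sum_congr rfl (fun j _ => c1 j)]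
        rw [Finset.sum_ite_eq]
        simp
        ring
      rw [b1, b2]
      unfold P
      ring
    rw [hexp] at key
    have h3 : 0 ≤ V * (V * P ρ (fun u => h u ^ 2) v - ∑ j, (D j) ^ 2) := by
      have : V * (V * P ρ (fun u => h u ^ 2) v - ∑ j, (D j) ^ 2) =
        V ^ 2 * P ρ (fun u => h u ^ 2) v - V * ∑ j, (D j) ^ 2 := by ring
      rw [this]
      exact key
    have h4 := nonneg_of_mul_nonneg_right h3 hVpos
    linarith

end H29Str
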