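import Pool.Agent.H29Str.Defs

set_option autoImplicit false

namespace H29Str

open Finset

variable {n : ℕ}

lemma cx_flip_self (j : Fin n) (v : Q n) : flip j v j = !v j := by simp [flip]

lemma cx_flip_ne (j i : Fin n) (hij : i ≠ j) (v : Q n) : flip j v i = v i := by
  simp [flip, Function.update_of_ne hij]

lemma cx_flip_inj (v : Q n) : Function.Injective (fun j => flip j v) := by
  intro j k hjk
  by_contra hne
  have h := congrFun hjk j
  simp only at h
  rw [cx_flip_self, cx_flip_ne k j hne] at h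
  cases hv : v j <;> simp [hv] at h

lemma cx_flip_ne_self (j : Fin n) (v : Q n) : flip j v ≠ v := by
  intro h
  have h := congrFun h j
  rw [cx_flip_self] at h
  cases hv : v j <;> simp [hv] at h

lemma cx_w_self (κ : ℝ) (b : Bool) : w (1 - 2 * κ) b b = 1 - κ := by
  simp only [w, if_true]
  ring

lemma cx_w_not (κ : ℝ) (b : Bool) : w (1 - 2 * κ) b (!b) = κ := by
  have : b ≠ !b := by cases b <;> simp
  simp only [w, if_neg this]
  ring

lemma cx_w_nonneg {κ : ℝ} (h0 : 0 ≤ κ) (h1 : 2 * κ ≤ 1) (b c : Bool) : 0 ≤ w (1 - 2 * κ) b c := by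
  unfold w
  split_ifs <;> linarith

lemma cx_W_self (κ : ℝ) (v : Q n) : W (1 - 2 * κ) v v = (1 - κ) ^ n := by
  simp [W, cx_w_self]

lemma cx_W_flip (κ : ℝ) (v : Q n) (j : Fin n) :
    W (1 - 2 * κ) v (flip j v) = κ * (1 - κ) ^ (n - 1) := by
  unfold W
  rw [← Finset.mul_prod_erase univ _ (mem_univ j), cx_flip_self, cx_w_not]
  congr 1
  rw [Finset.prod_congr rfl (g := fun _ => 1 - κ)]
  · rw [prod_const, card_erase_of_mem (mem_univ j), card_univ, Fintype.card_fin]
  · intro i hi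
    rw [cx_flip_ne j i (Finset.ne_of_mem_erase hi), cx_w_self]

lemma cx_bern {κ : ℝ} (h0 : 0 ≤ κ) (h1 : 2 * κ ≤ 1) (m : ℕ) : 1 - m * κ ≤ (1 - κ) ^ m := by
  have := one_add_mul_le_pow (a := -κ) (by linarith) m
  have h2 : (1 + -κ) = 1 - κ := by ring
  rw [h2] at this
  linarith

-- TASK C (expansion)
lemma expansion {κ C : ℝ} (h0 : 0 ≤ κ) (h1 : 2 * κ ≤ 1) (hC : 0 ≤ C) (h : Q n → ℝ)
    (hh : ∀ v, 0 ≤ h v) (hhC : ∀ v, h v ≤ C) (v : Q n) :
    h v - κ * ∑ j, (h v - h (flip j v)) - (n : ℝ) ^ 2 * κ ^ 2 * C ≤ P (1 - 2 * κ) h v := by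
  classical
  have hWn : ∀ u, 0 ≤ W (1 - 2 * κ) v u := fun u =>
    Finset.prod_nonneg (fun i _ => cx_w_nonneg h0 h1 _ _)
  have hS : ∑ u ∈ insert v (univ.image (fun j => flip j v)), W (1 - 2 * κ) v u * h u ≤
      P (1 - 2 * κ) h v := by
    unfold P
    exact Finset.sum_le_sum_of_subset_of_nonneg (subset_univ _)
      (fun u _ _ => mul_nonneg (hWn u) (hh u))
  have hv : v ∉ univ.image (fun j => flip j v) := by
    simp only [mem_image, mem_univ, true_and, not_exists]
    intro j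
    exact cx_flip_ne_self j v
  rw [Finset.sum_insert hv, Finset.sum_image (fun a _ b _ hab => cx_flip_inj v hab),
    cx_W_self] at hS
  simp only [cx_W_flip] at hS
  have hA : (1 - n * κ) * h v ≤ (1 - κ) ^ n * h v :=
    mul_le_mul_of_nonneg_right (cx_bern h0 h1 n) (hh v)
  have hB : ∑ j : Fin n, (κ * h (flip j v) - n * κ ^ 2 * C) ≤
      ∑ j : Fin n, κ * (1 - κ) ^ (n - 1) * h (flip j v) := by
    apply Finset.sum_le_sum
    intro j _
    have hn : (1 : ℝ) ≤ n := by
      have := j.pos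
      exact_mod_cast this
    have hb := cx_bern h0 h1 (n - 1)
    have hc : ((n - 1 : ℕ) : ℝ) = n - 1 := by
      rw [Nat.cast_sub j.pos]
      simp
    rw [hc] at hb
    have h3 : κ * (1 - (n - 1) * κ) * h (flip j v) ≤ κ * (1 - κ) ^ (n - 1) * h (flip j v) :=
      mul_le_mul_of_nonneg_right (mul_le_mul_of_nonneg_left hb h0) (hh _)
    have h4 : (n - 1) * κ ^ 2 * h (flip j v) ≤ n * κ ^ 2 * C := by
      apply mul_le_mul _ (hhC _) (hh _) (by positivity)
      apply mul_le_mul_of_nonneg_right _ (by positivity)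
      linarith
    nlinarith
  rw [Finset.sum_sub_distrib, ← Finset.mul_sum] at hB
  rw [Finset.sum_sub_distrib]
  simp only [sum_const, card_univ, Fintype.card_fin, nsmul_eq_mul] at hB ⊢
  nlinarith

end H29Str
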