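import Pool.Agent.H29Str.Defs

set_option autoImplicit false

/-! Task D (transport calculus), by helper42. -/

namespace H29Str
open Finset
variable {n : ℕ}

lemma dx_flip_flip (j : Fin n) (v : Q n) : flip j (flip j v) = v := by
  unfold flip
  funext i
  by_cases hi : i = j
  · subst hi; simp
  · simp [Function.update_of_ne hi]

lemma dx_prod_sum (g : Fin n → Bool → ℝ) : ∑ u : Q n, ∏ k, g k (u k) = ∏ k, ∑ c, g k c := by
  rw [Finset.prod_univ_sum, Fintype.piFinset_univ]

lemma dx_sum_w (ρ : ℝ) (b : Bool) : ∑ c, w ρ b c = 1 := by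
  unfold w
  rw [Fintype.sum_bool]
  cases b <;> simp <;> ring

lemma dx_W_sum (ρ : ℝ) (v : Q n) : ∑ u, W ρ v u = 1 := by
  unfold W
  rw [dx_prod_sum (fun k c => w ρ (v k) c)]
  simp only [dx_sum_w, Finset.prod_const_one]

lemma dx_W_symm (ρ : ℝ) (v u : Q n) : W ρ v u = W ρ u v := by
  unfold W
  apply Finset.prod_congr rfl
  intro i _
  unfold w
  by_cases h : v i = u i
  · rw [if_pos h, if_pos h.symm]
  · rw [if_neg h, if_neg (fun e => h e.symm)]

lemma dx_W_nonneg {ρ : ℝ} (h0 : 0 ≤ ρ) (h1 : ρ ≤ 1) (v u : Q n) : 0 ≤ W ρ v u := by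
  unfold W w
  apply Finset.prod_nonneg
  intro i _
  split_ifs <;> linarith

lemma dx_ham (v u : Q n) : (hammingDist v u : ℝ) = ∑ i, if v i ≠ u i then (1 : ℝ) else 0 := by
  unfold hammingDist
  rw [Finset.card_filter]
  push_cast
  rfl

lemma dx_W_cost (ρ : ℝ) (v : Q n) : ∑ u, W ρ v u * (hammingDist v u : ℝ) = n * ((1 - ρ) / 2) := by
  have h1 : ∀ u : Q n, W ρ v u * (hammingDist v u : ℝ) =
      ∑ i, W ρ v u * (if v i ≠ u i then (1 : ℝ) else 0) := by
    intro u
    rw [dx_ham, Finset.mul_sum]
  rw [Finset.sum_congr rfl (fun u _ => h1 u), Finset.sum_comm]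
  have h2 : ∀ i : Fin n, ∑ u : Q n, W ρ v u * (if v i ≠ u i then (1 : ℝ) else 0) = (1 - ρ) / 2 := by
    intro i
    have h3 : ∀ u : Q n, W ρ v u * (if v i ≠ u i then (1 : ℝ) else 0) =
        ∏ k, (w ρ (v k) (u k) * (if k = i then (if v k ≠ u k then (1 : ℝ) else 0) else 1)) := by
      intro u
      rw [Finset.prod_mul_distrib, Finset.prod_ite_eq']
      simp [W]
    rw [Finset.sum_congr rfl (fun u _ => h3 u),
      dx_prod_sum (fun k c => w ρ (v k) c * (if k = i then (if v k ≠ c then (1 : ℝ) else 0) else 1))]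
    have h4 : ∀ k : Fin n, ∑ c, w ρ (v k) c * (if k = i then (if v k ≠ c then (1 : ℝ) else 0) else 1) =
        if k = i then (1 - ρ) / 2 else 1 := by
      intro k
      by_cases hk : k = i
      · simp only [hk, if_true]
        rw [Fintype.sum_bool]
        unfold w
        cases v i <;> simp
      · simp only [if_neg hk, mul_one]
        exact dx_sum_w ρ _
    rw [Finset.prod_congr rfl (fun k _ => h4 k), Finset.prod_ite_eq']
    simp
  rw [Finset.sum_congr rfl (fun i _ => h2 i)]
  simp

lemma Tr.refl {μ : Q n → ℝ} (h : ∀ v, 0 ≤ μ v) : Tr μ μ 0 := by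
  refine ⟨fun x y => if x = y then μ x else 0, ?_, ?_, ?_, ?_⟩
  · intro x y
    dsimp only
    split_ifs
    · exact h x
    · exact le_refl _
  · intro x
    dsimp only
    rw [Finset.sum_ite_eq]
    simp
  · intro y
    dsimp only
    rw [Finset.sum_ite_eq']
    simp
  · apply le_of_eq
    apply Finset.sum_eq_zero
    intro x _
    apply Finset.sum_eq_zero
    intro y _
    by_cases hxy : x = y
    · subst hxy
      simp
    · simp [hxy]

lemma Tr.symm {μ ν : Q n → ℝ} {c : ℝ} (h : Tr μ ν c) : Tr ν μ c := by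
  obtain ⟨π, h1, h2, h3, h4⟩ := h
  refine ⟨fun x y => π y x, fun x y => h1 y x, fun x => h3 x, fun y => h2 y, ?_⟩
  rw [Finset.sum_comm]
  refine le_trans (le_of_eq ?_) h4
  apply Finset.sum_congr rfl
  intro x _
  apply Finset.sum_congr rfl
  intro y _
  rw [hammingDist_comm]

lemma Tr.mono {μ ν : Q n → ℝ} {c c' : ℝ} (h : Tr μ ν c) (hc : c ≤ c') : Tr μ ν c' := by
  obtain ⟨π, h1, h2, h3, h4⟩ := h
  exact ⟨π, h1, h2, h3, h4.trans hc⟩

lemma Tr.trans {μ ν τ : Q n → ℝ} {c c' : ℝ} (h : Tr μ ν c) (h' : Tr ν τ c') : Tr μ τ (c + c') := by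
  obtain ⟨π, h1, h2, h3, h4⟩ := h
  obtain ⟨σ, g1, g2, g3, g4⟩ := h'
  have hν : ∀ y, 0 ≤ ν y := fun y => by
    rw [← h3 y]; exact Finset.sum_nonneg (fun x _ => h1 x y)
  have hz1 : ∀ x y, ν y = 0 → π x y = 0 := by
    intro x y hy
    rw [← h3 y] at hy
    exact (Finset.sum_eq_zero_iff_of_nonneg (fun x _ => h1 x y)).1 hy x (Finset.mem_univ x)
  have hz2 : ∀ y z, ν y = 0 → σ y z = 0 := by
    intro y z hy
    rw [← g2 y] at hy
    exact (Finset.sum_eq_zero_iff_of_nonneg (fun z _ => g1 y z)).1 hy z (Finset.mem_univ z)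
  -- basic identities
  have e1 : ∀ x y, ∑ z, π x y * σ y z / ν y = π x y := by
    intro x y
    rw [← Finset.sum_div, ← Finset.mul_sum, g2 y]
    by_cases hy : ν y = 0
    · rw [hz1 x y hy]; simp
    · field_simp
  have e2 : ∀ y z, ∑ x, π x y * σ y z / ν y = σ y z := by
    intro y z
    rw [← Finset.sum_div, ← Finset.sum_mul, h3 y]
    by_cases hy : ν y = 0
    · rw [hz2 y z hy]; simp
    · field_simp
  refine ⟨fun x z => ∑ y, π x y * σ y z / ν y, ?_, ?_, ?_, ?_⟩
  · intro x z
    exact Finset.sum_nonneg (fun y _ => div_nonneg (mul_nonneg (h1 x y) (g1 y z)) (hν y))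
  · intro x
    dsimp only
    rw [Finset.sum_comm]
    rw [Finset.sum_congr rfl (fun y _ => e1 x y)]
    exact h2 x
  · intro z
    dsimp only
    rw [Finset.sum_comm]
    rw [Finset.sum_congr rfl (fun y _ => e2 y z)]
    exact g3 z
  · have b1 : ∑ x, ∑ z, (∑ y, π x y * σ y z / ν y) * (hammingDist x z : ℝ) ≤
        ∑ x, ∑ z, ∑ y, (π x y * σ y z / ν y * (hammingDist x y : ℝ) +
          π x y * σ y z / ν y * (hammingDist y z : ℝ)) := by
      apply Finset.sum_le_sum
      intro x _
      apply Finset.sum_le_sum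
      intro z _
      rw [Finset.sum_mul]
      apply Finset.sum_le_sum
      intro y _
      rw [← mul_add]
      apply mul_le_mul_of_nonneg_left _ (div_nonneg (mul_nonneg (h1 x y) (g1 y z)) (hν y))
      exact_mod_cast hammingDist_triangle x y z
    refine b1.trans ?_
    have b2 : ∑ x, ∑ z, ∑ y, (π x y * σ y z / ν y * (hammingDist x y : ℝ) +
          π x y * σ y z / ν y * (hammingDist y z : ℝ)) =
        ∑ x, ∑ y, π x y * (hammingDist x y : ℝ) + ∑ y, ∑ z, σ y z * (hammingDist y z : ℝ) := by
      simp_rw [Finset.sum_add_distrib]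
      congr 1
      · apply Finset.sum_congr rfl
        intro x _
        rw [Finset.sum_comm]
        apply Finset.sum_congr rfl
        intro y _
        rw [← Finset.sum_mul, e1 x y]
      · have : ∀ x : Q n, ∑ z, ∑ y, π x y * σ y z / ν y * (hammingDist y z : ℝ) =
            ∑ y, ∑ z, π x y * σ y z / ν y * (hammingDist y z : ℝ) := fun x => Finset.sum_comm
        rw [Finset.sum_congr rfl (fun x _ => this x), Finset.sum_comm]
        apply Finset.sum_congr rfl
        intro y _
        rw [Finset.sum_comm]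
        apply Finset.sum_congr rfl
        intro z _
        rw [← Finset.sum_mul, e2 y z]
    rw [b2]
    exact add_le_add h4 g4

lemma Tr.add {μ ν μ' ν' : Q n → ℝ} {c c' : ℝ} (h : Tr μ ν c) (h' : Tr μ' ν' c') :
    Tr (fun v => μ v + μ' v) (fun v => ν v + ν' v) (c + c') := by
  obtain ⟨π, h1, h2, h3, h4⟩ := h
  obtain ⟨σ, g1, g2, g3, g4⟩ := h'
  refine ⟨fun x y => π x y + σ x y, fun x y => add_nonneg (h1 x y) (g1 x y), ?_, ?_, ?_⟩
  · intro x
    dsimp only
    rw [Finset.sum_add_distrib, h2, g2]
  · intro y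
    dsimp only
    rw [Finset.sum_add_distrib, h3, g3]
  · simp_rw [add_mul, Finset.sum_add_distrib]
    exact add_le_add h4 g4

lemma Tr.smul {μ ν : Q n → ℝ} {c a : ℝ} (ha : 0 ≤ a) (h : Tr μ ν c) :
    Tr (fun v => a * μ v) (fun v => a * ν v) (a * c) := by
  obtain ⟨π, h1, h2, h3, h4⟩ := h
  refine ⟨fun x y => a * π x y, fun x y => mul_nonneg ha (h1 x y), ?_, ?_, ?_⟩
  · intro x
    dsimp only
    rw [← Finset.mul_sum, h2]
  · intro y
    dsimp only
    rw [← Finset.mul_sum, h3]
  · simp_rw [mul_assoc, ← Finset.mul_sum]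
    exact mul_le_mul_of_nonneg_left h4 ha

lemma Tr.congr {μ ν μ' ν' : Q n → ℝ} {c : ℝ} (h : Tr μ ν c) (e1 : ∀ v, μ v = μ' v)
    (e2 : ∀ v, ν v = ν' v) : Tr μ' ν' c := by
  have a1 : μ = μ' := funext e1
  have a2 : ν = ν' := funext e2
  rw [← a1, ← a2]
  exact h

lemma Tr.l1 {μ ν : Q n → ℝ} (hμ : ∀ v, 0 ≤ μ v) (hν : ∀ v, 0 ≤ ν v) (hs : ∑ v, μ v = ∑ v, ν v) :
    Tr μ ν (n * ∑ v, max (ν v - μ v) 0) := by
  set a : Q n → ℝ := fun v => max (μ v - ν v) 0 with ha
  set b : Q n → ℝ := fun v => max (ν v - μ v) 0 with hb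
  set m : Q n → ℝ := fun v => min (μ v) (ν v) with hm
  have ea : ∀ v, m v + a v = μ v := by
    intro v
    simp only [ha, hm]
    rcases le_total (μ v) (ν v) with h | h
    · rw [min_eq_left h, max_eq_right (by linarith)]; ring
    · rw [min_eq_right h, max_eq_left (by linarith)]; ring
  have eb : ∀ v, m v + b v = ν v := by
    intro v
    simp only [hb, hm]
    rcases le_total (μ v) (ν v) with h | h
    · rw [min_eq_left h, max_eq_left (by linarith)]; ring
    · rw [min_eq_right h, max_eq_right (by linarith)]; ring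
  have ha0 : ∀ v, 0 ≤ a v := fun v => le_max_right _ _
  have hb0 : ∀ v, 0 ≤ b v := fun v => le_max_right _ _
  have hm0 : ∀ v, 0 ≤ m v := fun v => le_min (hμ v) (hν v)
  have hab : ∑ v, a v = ∑ v, b v := by
    have t1 : ∑ v, μ v = ∑ v, m v + ∑ v, a v := by
      rw [← Finset.sum_add_distrib]; exact Finset.sum_congr rfl (fun v _ => (ea v).symm)
    have t2 : ∑ v, ν v = ∑ v, m v + ∑ v, b v := by
      rw [← Finset.sum_add_distrib]; exact Finset.sum_congr rfl (fun v _ => (eb v).symm)
    linarith
  set s : ℝ := ∑ v, b v with hsdef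
  have hs0 : 0 ≤ s := Finset.sum_nonneg (fun v _ => hb0 v)
  have hT : Tr a b (n * s) := by
    by_cases hz : s = 0
    · have za : ∀ v, a v = 0 := by
        intro v
        have : ∑ v, a v = 0 := by rw [hab]; exact hz
        exact (Finset.sum_eq_zero_iff_of_nonneg (fun v _ => ha0 v)).1 this v (Finset.mem_univ v)
      have zb : ∀ v, b v = 0 := by
        intro v
        exact (Finset.sum_eq_zero_iff_of_nonneg (fun v _ => hb0 v)).1 hz v (Finset.mem_univ v)
      have : Tr a a 0 := Tr.refl ha0
      refine (this.congr (fun v => rfl) (fun v => ?_)).mono ?_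
      · rw [za v, zb v]
      · rw [hz]; simp
    · have hspos : 0 < s := lt_of_le_of_ne hs0 (Ne.symm hz)
      refine ⟨fun x y => a x * b y / s, ?_, ?_, ?_, ?_⟩
      · intro x y
        exact div_nonneg (mul_nonneg (ha0 x) (hb0 y)) hs0
      · intro x
        dsimp only
        rw [← Finset.sum_div, ← Finset.mul_sum, ← hsdef]
        field_simp
      · intro y
        dsimp only
        rw [← Finset.sum_div, ← Finset.sum_mul, hab]
        field_simp
      · have c1 : ∑ x, ∑ y, a x * b y / s * (hammingDist x y : ℝ) ≤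
            ∑ x, ∑ y, a x * b y / s * (n : ℝ) := by
          apply Finset.sum_le_sum
          intro x _
          apply Finset.sum_le_sum
          intro y _
          apply mul_le_mul_of_nonneg_left _ (div_nonneg (mul_nonneg (ha0 x) (hb0 y)) hs0)
          have := hammingDist_le_card_fintype (x := x) (y := y)
          rw [Fintype.card_fin] at this
          exact_mod_cast this
        refine c1.trans (le_of_eq ?_)
        have c2 : ∀ x : Q n, ∑ y, a x * b y / s * (n : ℝ) = a x * n := by
          intro x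
          rw [← Finset.sum_mul, ← Finset.sum_div, ← Finset.mul_sum, ← hsdef]
          field_simp
        rw [Finset.sum_congr rfl (fun x _ => c2 x), ← Finset.sum_mul, hab]
        ring
  have h3 := (Tr.refl hm0).add hT
  refine (h3.congr ea eb).mono ?_
  rw [zero_add]

lemma dx_ham_flip (j : Fin n) (v : Q n) : hammingDist v (flip j v) = 1 := by
  unfold hammingDist flip
  rw [Finset.card_eq_one]
  refine ⟨j, ?_⟩
  ext i
  simp only [Finset.mem_filter, Finset.mem_univ, true_and, Finset.mem_singleton]
  by_cases hi : i = j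
  · subst hi; simp
  · simp [hi]

lemma dx_flip_ne (j : Fin n) (v : Q n) : flip j v ≠ v := by
  intro h
  have := dx_ham_flip j v
  rw [h, hammingDist_self] at this
  exact zero_ne_one this

lemma dx_sum_flip (j : Fin n) (f : Q n → ℝ) : ∑ v, f (flip j v) = ∑ v, f v :=
  Fintype.sum_bijective (flip j) (Function.Involutive.bijective (dx_flip_flip j)) _ _ (fun _ => rfl)

lemma Tr.flux {κ : ℝ} (h0 : 0 ≤ κ) (h1 : n * κ ≤ 1) {h : Q n → ℝ} (hh : ∀ v, 0 ≤ h v) :
    Tr h (fun v => h v - κ * ∑ j, (h v - h (flip j v)))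
      (κ / 2 * ∑ v, ∑ j, |h (flip j v) - h v|) := by
  set f : Fin n → Q n → ℝ := fun j v => κ * max (h v - h (flip j v)) 0 with hf
  have hf0 : ∀ j v, 0 ≤ f j v := fun j v => mul_nonneg h0 (le_max_right _ _)
  have hfle : ∀ j v, f j v ≤ κ * h v := by
    intro j v
    apply mul_le_mul_of_nonneg_left _ h0
    apply max_le _ (hh v)
    linarith [hh (flip j v)]
  have hdiag : ∀ v, 0 ≤ h v - ∑ j, f j v := by
    intro v
    have : ∑ j, f j v ≤ ∑ _j : Fin n, κ * h v := Finset.sum_le_sum (fun j _ => hfle j v)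
    rw [Finset.sum_const, Finset.card_univ, Fintype.card_fin, nsmul_eq_mul] at this
    have h2 : (n : ℝ) * (κ * h v) ≤ h v := by
      have : (n : ℝ) * (κ * h v) = (n * κ) * h v := by ring
      rw [this]
      calc (n * κ) * h v ≤ 1 * h v := mul_le_mul_of_nonneg_right h1 (hh v)
        _ = h v := one_mul _
    linarith
  refine ⟨fun x y => (if x = y then h x - ∑ j, f j x else 0) +
    ∑ j, (if y = flip j x then f j x else 0), ?_, ?_, ?_, ?_⟩
  · intro x y
    apply add_nonneg
    · split_ifs
      · exact hdiag x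
      · exact le_refl _
    · apply Finset.sum_nonneg
      intro j _
      split_ifs
      · exact hf0 j x
      · exact le_refl _
  · intro x
    dsimp only
    rw [Finset.sum_add_distrib, Finset.sum_ite_eq, Finset.sum_comm]
    have : ∀ j : Fin n, ∑ y : Q n, (if y = flip j x then f j x else 0) = f j x := by
      intro j
      rw [Finset.sum_ite_eq']
      simp
    rw [Finset.sum_congr rfl (fun j _ => this j)]
    simp
  · intro y
    dsimp only
    rw [Finset.sum_add_distrib, Finset.sum_ite_eq', Finset.sum_comm]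
    have : ∀ j : Fin n, ∑ x : Q n, (if y = flip j x then f j x else 0) = f j (flip j y) := by
      intro j
      have e : ∀ x : Q n, (if y = flip j x then f j x else 0) = if x = flip j y then f j x else 0 := by
        intro x
        by_cases hx : y = flip j x
        · have : x = flip j y := by rw [hx, dx_flip_flip]
          rw [if_pos hx, if_pos this]
        · have : ¬ x = flip j y := by
            intro h'
            apply hx
            rw [h', dx_flip_flip]
          rw [if_neg hx, if_neg this]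
      rw [Finset.sum_congr rfl (fun x _ => e x), Finset.sum_ite_eq']
      simp
    rw [Finset.sum_congr rfl (fun j _ => this j)]
    simp only [Finset.mem_univ, if_true]
    have e2 : ∀ j : Fin n, f j (flip j y) = f j y - κ * (h y - h (flip j y)) := by
      intro j
      simp only [hf, dx_flip_flip]
      rcases le_total (h y) (h (flip j y)) with hle | hle
      · rw [max_eq_left (by linarith), max_eq_right (by linarith)]; ring
      · rw [max_eq_right (by linarith), max_eq_left (by linarith)]; ring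
    have e3 : ∑ j : Fin n, κ * (h y - h (flip j y)) = κ * ∑ j : Fin n, (h y - h (flip j y)) :=
      (Finset.mul_sum _ _ _).symm
    rw [Finset.sum_congr rfl (fun j _ => e2 j), Finset.sum_sub_distrib, e3]
    ring
  · apply le_of_eq
    have c1 : ∀ x : Q n, ∑ y : Q n, ((if x = y then h x - ∑ j, f j x else 0) +
        ∑ j, (if y = flip j x then f j x else 0)) * (hammingDist x y : ℝ) = ∑ j, f j x := by
      intro x
      have c2 : ∀ y : Q n, ((if x = y then h x - ∑ j, f j x else 0) +
        ∑ j, (if y = flip j x then f j x else 0)) * (hammingDist x y : ℝ) =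
          ∑ j, (if y = flip j x then f j x else 0) := by
        intro y
        by_cases hxy : x = y
        · subst hxy
          rw [hammingDist_self, Nat.cast_zero, mul_zero]
          symm
          apply Finset.sum_eq_zero
          intro j _
          rw [if_neg (fun e => dx_flip_ne j x e.symm)]
        · rw [if_neg hxy, zero_add, Finset.sum_mul]
          apply Finset.sum_congr rfl
          intro j _
          by_cases hy : y = flip j x
          · rw [if_pos hy, hy, dx_ham_flip, Nat.cast_one, mul_one]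
          · rw [if_neg hy, zero_mul]
      rw [Finset.sum_congr rfl (fun y _ => c2 y), Finset.sum_comm]
      apply Finset.sum_congr rfl
      intro j _
      rw [Finset.sum_ite_eq']
      simp
    rw [Finset.sum_congr rfl (fun x _ => c1 x)]
    rw [Finset.sum_comm, Finset.sum_comm (f := fun v j => |h (flip j v) - h v|), Finset.mul_sum]
    apply Finset.sum_congr rfl
    intro j _
    have d1 : ∑ v, f j v = ∑ v, f j (flip j v) := (dx_sum_flip j (f j)).symm
    have d2 : ∑ v, f j v + ∑ v, f j (flip j v) = κ * ∑ v, |h (flip j v) - h v| := by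
      rw [← Finset.sum_add_distrib, Finset.mul_sum]
      apply Finset.sum_congr rfl
      intro v _
      simp only [hf, dx_flip_flip]
      rcases le_total (h v) (h (flip j v)) with hle | hle
      · rw [max_eq_right (by linarith), max_eq_left (by linarith), abs_of_nonneg (by linarith)]; ring
      · rw [max_eq_left (by linarith), max_eq_right (by linarith), abs_of_nonpos (by linarith)]; ring
    linarith

lemma Tr.noise {ρ : ℝ} (h0 : 0 ≤ ρ) (h1 : ρ ≤ 1) {μ : Q n → ℝ} (hμ : ∀ v, 0 ≤ μ v) :
    Tr μ (P ρ μ) (n * ((1 - ρ) / 2) * ∑ v, μ v) := by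
  refine ⟨fun x y => μ x * W ρ x y, ?_, ?_, ?_, ?_⟩
  · intro x y
    exact mul_nonneg (hμ x) (dx_W_nonneg h0 h1 x y)
  · intro x
    dsimp only
    rw [← Finset.mul_sum, dx_W_sum, mul_one]
  · intro y
    dsimp only
    unfold P
    apply Finset.sum_congr rfl
    intro x _
    rw [dx_W_symm ρ y x, mul_comm]
  · apply le_of_eq
    have : ∀ x : Q n, ∑ y, μ x * W ρ x y * (hammingDist x y : ℝ) = μ x * (n * ((1 - ρ) / 2)) := by
      intro x
      simp_rw [mul_assoc]
      rw [← Finset.mul_sum, dx_W_cost]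
    rw [Finset.sum_congr rfl (fun x _ => this x), ← Finset.sum_mul]
    ring

end H29Str
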