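import Pool.Agent.H29Str.Defs

set_option autoImplicit false

namespace H29Str
open Finset
variable {n : ℕ}

lemma ex_sum_fiber {ι κ : Type} [Fintype ι] [Fintype κ] [DecidableEq κ] (g : ι → κ) (F : κ → ℝ) :
    ∑ y, ((univ.filter (fun j => g j = y)).card : ℝ) * F y = ∑ j, F (g j) := by
  have h : ∀ y, ((univ.filter (fun j => g j = y)).card : ℝ) * F y = ∑ j, if g j = y then F y else 0 := by
    intro y
    rw [← Finset.sum_filter, Finset.sum_const, nsmul_eq_mul]
  simp_rw [h]
  rw [Finset.sum_comm]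
  simp

/-- General form of the Birkhoff step. -/
lemma ex_exists_perm {ι : Type} [Fintype ι] [DecidableEq ι] [Nonempty ι] (f g : ι → Q n)
    (π : Q n → Q n → ℝ) (hπ : ∀ x y, 0 ≤ π x y)
    (hrow : ∀ x, ∑ y, π x y = ((univ.filter (fun i => f i = x)).card : ℝ))
    (hcol : ∀ y, ∑ x, π x y = ((univ.filter (fun i => g i = y)).card : ℝ)) {c : ℝ}
    (hc : ∑ x, ∑ y, π x y * (hammingDist x y : ℝ) ≤ c) :
    ∃ σ : Equiv.Perm ι, ∑ i, (hammingDist (f i) (g (σ i)) : ℝ) ≤ c := by
  classical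
  set μ : Q n → ℝ := fun x => ((univ.filter (fun i => f i = x)).card : ℝ) with hμ
  set ν : Q n → ℝ := fun y => ((univ.filter (fun i => g i = y)).card : ℝ) with hν
  have hμ0 : ∀ i, μ (f i) ≠ 0 := by
    intro i
    have : 0 < (univ.filter (fun k => f k = f i)).card := Finset.card_pos.2 ⟨i, by simp⟩
    simp only [hμ]
    exact_mod_cast this.ne'
  have hν0 : ∀ i, ν (g i) ≠ 0 := by
    intro i
    have : 0 < (univ.filter (fun k => g k = g i)).card := Finset.card_pos.2 ⟨i, by simp⟩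
    simp only [hν]
    exact_mod_cast this.ne'
  have hμn : ∀ x, 0 ≤ μ x := fun x => by simp only [hμ]; positivity
  have hνn : ∀ x, 0 ≤ ν x := fun x => by simp only [hν]; positivity
  have hz1 : ∀ x y, μ x = 0 → π x y = 0 := by
    intro x y hx
    have h1 : ∑ y, π x y = 0 := by rw [hrow x]; exact hx
    exact (Finset.sum_eq_zero_iff_of_nonneg (fun y _ => hπ x y)).1 h1 y (mem_univ _)
  have hz2 : ∀ x y, ν y = 0 → π x y = 0 := by
    intro x y hy
    have h1 : ∑ x, π x y = 0 := by rw [hcol y]; exact hy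
    exact (Finset.sum_eq_zero_iff_of_nonneg (fun x _ => hπ x y)).1 h1 x (mem_univ _)
  set M : Matrix ι ι ℝ := fun i j => π (f i) (g j) / (μ (f i) * ν (g j)) with hM
  have hMds : M ∈ doublyStochastic ℝ ι := by
    rw [mem_doublyStochastic_iff_sum]
    refine ⟨fun i j => ?_, fun i => ?_, fun j => ?_⟩
    · exact div_nonneg (hπ _ _) (mul_nonneg (hμn _) (hνn _))
    · have h1 : ∑ j, M i j = ∑ y, ν y * (π (f i) y / (μ (f i) * ν y)) :=
        (ex_sum_fiber g (fun y => π (f i) y / (μ (f i) * ν y))).symm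
      rw [h1]
      have h2 : ∀ y, ν y * (π (f i) y / (μ (f i) * ν y)) = π (f i) y / μ (f i) := by
        intro y
        by_cases hy : ν y = 0
        · rw [hz2 _ _ hy]; simp
        · field_simp
      simp_rw [h2]
      rw [← Finset.sum_div, hrow]
      exact div_self (hμ0 i)
    · have h1 : ∑ i, M i j = ∑ x, μ x * (π x (g j) / (μ x * ν (g j))) :=
        (ex_sum_fiber f (fun x => π x (g j) / (μ x * ν (g j)))).symm
      rw [h1]
      have h2 : ∀ x, μ x * (π x (g j) / (μ x * ν (g j))) = π x (g j) / ν (g j) := by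
        intro x
        by_cases hx : μ x = 0
        · rw [hz1 _ _ hx]; simp
        · have := hν0 j
          field_simp
      simp_rw [h2]
      rw [← Finset.sum_div, hcol]
      exact div_self (hν0 j)
  have hcost : ∑ i, ∑ j, M i j * (hammingDist (f i) (g j) : ℝ) = ∑ x, ∑ y, π x y * (hammingDist x y : ℝ) := by
    have h1 : ∀ i, ∑ j, M i j * (hammingDist (f i) (g j) : ℝ) =
        ∑ y, ν y * (π (f i) y / (μ (f i) * ν y) * (hammingDist (f i) y : ℝ)) := fun i =>
      (ex_sum_fiber g (fun y => π (f i) y / (μ (f i) * ν y) * (hammingDist (f i) y : ℝ))).symm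
    simp_rw [h1]
    rw [← ex_sum_fiber f (fun x => ∑ y, ν y * (π x y / (μ x * ν y) * (hammingDist x y : ℝ)))]
    refine Finset.sum_congr rfl fun x _ => ?_
    rw [Finset.mul_sum]
    refine Finset.sum_congr rfl fun y _ => ?_
    show μ x * (ν y * (π x y / (μ x * ν y) * (hammingDist x y : ℝ))) = _
    by_cases hx : μ x = 0
    · rw [hz1 _ _ hx]; simp
    · by_cases hy : ν y = 0
      · rw [hz2 _ _ hy]; simp
      · field_simp
  obtain ⟨w, hw0, hw1, hwM⟩ := exists_eq_sum_perm_of_mem_doublyStochastic hMds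
  set cost : Equiv.Perm ι → ℝ := fun σ => ∑ i, (hammingDist (f i) (g (σ i)) : ℝ) with hcostdef
  have hsum : ∑ σ, w σ * cost σ = ∑ i, ∑ j, M i j * (hammingDist (f i) (g j) : ℝ) := by
    have hMij : ∀ i j, M i j = ∑ σ, w σ * (if σ i = j then 1 else 0) := by
      intro i j
      rw [← hwM]
      simp [Matrix.sum_apply, PEquiv.toMatrix_apply, eq_comm]
    simp_rw [hMij, Finset.sum_mul]
    have h1 : ∀ i, ∑ j, ∑ σ, w σ * (if σ i = j then (1 : ℝ) else 0) * (hammingDist (f i) (g j) : ℝ) =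
        ∑ σ, w σ * (hammingDist (f i) (g (σ i)) : ℝ) := by
      intro i
      rw [Finset.sum_comm]
      refine Finset.sum_congr rfl fun σ _ => ?_
      simp
    simp_rw [h1]
    rw [Finset.sum_comm]
    refine Finset.sum_congr rfl fun σ _ => ?_
    rw [hcostdef, Finset.mul_sum]
  obtain ⟨σ, -, hσ⟩ := Finset.exists_min_image (univ : Finset (Equiv.Perm ι)) cost ⟨1, mem_univ _⟩
  refine ⟨σ, ?_⟩
  calc cost σ = ∑ τ, w τ * cost σ := by rw [← Finset.sum_mul, hw1, one_mul]
    _ ≤ ∑ τ, w τ * cost τ := Finset.sum_le_sum fun τ _ => mul_le_mul_of_nonneg_left (hσ τ (mem_univ _)) (hw0 τ)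
    _ = ∑ x, ∑ y, π x y * (hammingDist x y : ℝ) := by rw [hsum, hcost]
    _ ≤ c := hc

-- TASK E (from transport to a bijection, Birkhoff)
lemma exists_equiv (ψ : Q n → Q n) (A : Finset (Fin (n + 1) → Bool)) (hA : A.card = 2 ^ n) {c : ℝ}
    (h : Tr (fun v => ((univ.filter (fun z => ψ z = v)).card : ℝ))
      (fun v => ((A.filter (fun y => Fin.tail y = v)).card : ℝ)) c) :
    ∃ φ : Q n ≃ A, ∑ z, (hammingDist (ψ z) (Fin.tail (φ z).1) : ℝ) ≤ c := by
  classical
  obtain ⟨π, h0, h1, h2, h3⟩ := h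
  have hcard : Fintype.card (Q n) = Fintype.card A := by
    rw [Fintype.card_coe, hA]; simp [Q]
  let e : Q n ≃ A := Fintype.equivOfCardEq hcard
  obtain ⟨σ, hσ⟩ := ex_exists_perm ψ (fun z => (Fin.tail (e z).1 : Q n)) π h0 h1 (fun y => by
    rw [h2 y]
    show ((A.filter (fun y' => Fin.tail y' = y)).card : ℝ) =
      ((univ.filter (fun z => (Fin.tail (e z).1 : Q n) = y)).card : ℝ)
    congr 1
    symm
    refine Finset.card_bij (fun z _ => (e z).1) ?_ ?_ ?_
    · intro z hz
      simp only [Finset.mem_filter, mem_univ, true_and] at hz ⊢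
      exact ⟨(e z).2, hz⟩
    · intro z1 _ z2 _ hzz
      exact e.injective (Subtype.ext hzz)
    · intro a ha
      have ha' := Finset.mem_filter.1 ha
      refine ⟨e.symm ⟨a, ha'.1⟩, ?_, ?_⟩
      · simp only [Finset.mem_filter, mem_univ, true_and, Equiv.apply_symm_apply]
        exact ha'.2
      · simp) h3
  exact ⟨σ.trans e, by simpa using hσ⟩

lemma ex_hd_tail (y y' : Fin (n + 1) → Bool) :
    (hammingDist y y' : ℝ) ≤ 1 + (hammingDist (Fin.tail y : Q n) (Fin.tail y') : ℝ) := by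
  have h : hammingDist y y' ≤ 1 + hammingDist (Fin.tail y : Q n) (Fin.tail y') := by
    unfold hammingDist
    rw [Finset.card_filter, Finset.card_filter, Fin.sum_univ_succ]
    refine add_le_add ?_ le_rfl
    split_ifs <;> simp
  exact_mod_cast h

lemma ex_flip_sum (i : Fin n) (F : Q n → ℝ) : ∑ x, F (flip i x) = ∑ x, F x := by
  have hinv : Function.Involutive (flip i : Q n → Q n) := by
    intro v
    unfold flip
    simp
  exact Equiv.sum_comp (hinv.toPerm) F

lemma stretch_le (ψ : Q n → Q n) (A : Finset (Fin (n + 1) → Bool)) (φ : Q n ≃ A) :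
    (∑ x : Q n, ∑ i : Fin n,
      (hammingDist (φ x).1 (φ (Function.update x i (!x i))).1 : ℝ)) ≤
    n * 2 ^ n + (∑ x : Q n, ∑ i : Fin n, (hammingDist (ψ x) (ψ (flip i x)) : ℝ)) +
      2 * n * ∑ z, (hammingDist (ψ z) (Fin.tail (φ z).1) : ℝ) := by
  set D : Q n → ℝ := fun z => (hammingDist (ψ z) (Fin.tail (φ z).1) : ℝ) with hD
  have hpt : ∀ (x : Q n) (i : Fin n), (hammingDist (φ x).1 (φ (flip i x)).1 : ℝ) ≤
      1 + (hammingDist (ψ x) (ψ (flip i x)) : ℝ) + (D x + D (flip i x)) := by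
    intro x i
    have h1 := ex_hd_tail (φ x).1 (φ (flip i x)).1
    have h2 : (hammingDist (Fin.tail (φ x).1 : Q n) (Fin.tail (φ (flip i x)).1) : ℝ) ≤
        D x + (hammingDist (ψ x) (ψ (flip i x)) : ℝ) + D (flip i x) := by
      have a1 := hammingDist_triangle (Fin.tail (φ x).1 : Q n) (ψ x) (Fin.tail (φ (flip i x)).1)
      have a2 := hammingDist_triangle (ψ x) (ψ (flip i x)) (Fin.tail (φ (flip i x)).1)
      have a3 := hammingDist_comm (Fin.tail (φ x).1 : Q n) (ψ x)
      simp only [hD]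
      have : hammingDist (Fin.tail (φ x).1 : Q n) (Fin.tail (φ (flip i x)).1) ≤
          hammingDist (ψ x) (Fin.tail (φ x).1) + hammingDist (ψ x) (ψ (flip i x)) +
            hammingDist (ψ (flip i x)) (Fin.tail (φ (flip i x)).1) := by omega
      exact_mod_cast this
    linarith
  calc (∑ x : Q n, ∑ i : Fin n, (hammingDist (φ x).1 (φ (Function.update x i (!x i))).1 : ℝ))
      ≤ ∑ x : Q n, ∑ i : Fin n, (1 + (hammingDist (ψ x) (ψ (flip i x)) : ℝ) + (D x + D (flip i x))) :=
        Finset.sum_le_sum fun x _ => Finset.sum_le_sum fun i _ => hpt x i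
    _ = n * 2 ^ n + (∑ x : Q n, ∑ i : Fin n, (hammingDist (ψ x) (ψ (flip i x)) : ℝ)) + 2 * n * ∑ z, D z := by
        simp only [Finset.sum_add_distrib]
        have e1 : ∑ x : Q n, ∑ i : Fin n, (1 : ℝ) = n * 2 ^ n := by
          simp [Q]; ring
        have e2 : ∑ x : Q n, ∑ _i : Fin n, D x = n * ∑ z, D z := by
          rw [Finset.mul_sum]
          exact Finset.sum_congr rfl fun x _ => by simp
        have e3 : ∑ x : Q n, ∑ i : Fin n, D (flip i x) = n * ∑ z, D z := by
          rw [Finset.sum_comm]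
          simp_rw [ex_flip_sum]
          simp
        rw [e1, e2, e3]
        ring

end H29Str
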