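import Pool.Agent.H29Str.Defs

set_option autoImplicit false

namespace H29Str

open Finset

variable {n : ℕ}

lemma fx_mask_iff {r : ℕ} (b : Fin n → Fin (r + 1)) (z1 z2 : Q n) :
    mask b z1 = mask b z2 ↔ ∀ i, b i = 0 → z1 i = z2 i := by
  constructor
  · intro h i hi
    have := congrFun h i
    simpa [mask, hi] using this
  · intro h
    funext i
    by_cases hi : b i = 0
    · simp [mask, hi, h i hi]
    · simp [mask, hi]

-- TASK F (hash averaging)
lemma card_mask (r : ℕ) (z1 z2 : Q n) :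
    ((univ.filter (fun b : Fin n → Fin (r + 1) => mask b z1 = mask b z2)).card : ℝ) =
      (r / (r + 1)) ^ (hammingDist z1 z2) * (r + 1) ^ n := by
  classical
  have h1 : (univ.filter (fun b : Fin n → Fin (r + 1) => mask b z1 = mask b z2)) =
      Fintype.piFinset (fun i => univ.filter (fun c : Fin (r + 1) => c = 0 → z1 i = z2 i)) := by
    ext b
    simp [fx_mask_iff]
  rw [h1, Fintype.card_piFinset]
  have h2 : ∀ i, (univ.filter (fun c : Fin (r + 1) => c = 0 → z1 i = z2 i)).card =
      if z1 i ≠ z2 i then r else r + 1 := by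
    intro i
    by_cases hi : z1 i = z2 i
    · simp [hi]
    · have : (univ.filter (fun c : Fin (r + 1) => c = 0 → z1 i = z2 i)) = univ.erase 0 := by
        ext c
        simp [hi]
      rw [this, Finset.card_erase_of_mem (mem_univ _)]
      simp [hi]
  simp only [h2]
  rw [Finset.prod_ite]
  simp only [prod_const]
  have h3 : (univ.filter (fun i => z1 i ≠ z2 i)).card = hammingDist z1 z2 := rfl
  have h4 : (univ.filter (fun i => ¬ z1 i ≠ z2 i)).card = n - hammingDist z1 z2 := by
    have := Finset.card_filter_add_card_filter_not (s := (univ : Finset (Fin n)))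
      (fun i => z1 i ≠ z2 i)
    rw [Finset.card_univ, Fintype.card_fin] at this
    omega
  rw [h3, h4]
  have h5 : hammingDist z1 z2 ≤ n := by
    simpa using hammingDist_le_card_fintype (x := z1) (y := z2)
  push_cast
  rw [div_pow, div_mul_eq_mul_div, eq_div_iff (by positivity), mul_assoc, ← pow_add]
  congr 2
  omega

lemma fx_sum1 {A Ω : Type} [Fintype A] [DecidableEq A] [Fintype Ω] (x : A) (g : Ω → ℝ) :
    (∑ F : A → Ω, g (F x)) * Fintype.card Ω = Fintype.card (A → Ω) * ∑ o, g o := by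
  have h1 : (∑ F : A → Ω, g (F x)) = ∑ q : Ω × ({j // j ≠ x} → Ω), g q.1 :=
    Fintype.sum_equiv (Equiv.funSplitAt x Ω) _ _ (fun F => by simp)
  have h2 : Fintype.card (A → Ω) = Fintype.card Ω * Fintype.card ({j // j ≠ x} → Ω) := by
    rw [Fintype.card_congr (Equiv.funSplitAt x Ω), Fintype.card_prod]
  rw [h1, h2, Fintype.sum_prod_type]
  simp only [sum_const, card_univ, nsmul_eq_mul]
  rw [← Finset.mul_sum]
  push_cast
  ring

lemma fx_sum2 {A Ω : Type} [Fintype A] [DecidableEq A] [Fintype Ω] (x y : A) (hxy : y ≠ x)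
    (f : Ω → Ω → ℝ) :
    (∑ F : A → Ω, f (F x) (F y)) * (Fintype.card Ω * Fintype.card Ω) =
      Fintype.card (A → Ω) * ∑ o, ∑ o', f o o' := by
  have h1 : (∑ F : A → Ω, f (F x) (F y)) =
      ∑ q : Ω × ({j // j ≠ x} → Ω), f q.1 (q.2 ⟨y, hxy⟩) :=
    Fintype.sum_equiv (Equiv.funSplitAt x Ω) _ _ (fun F => by simp)
  have h2 : Fintype.card (A → Ω) = Fintype.card Ω * Fintype.card ({j // j ≠ x} → Ω) := by
    rw [Fintype.card_congr (Equiv.funSplitAt x Ω), Fintype.card_prod]
  rw [h1, h2, Fintype.sum_prod_type, ← mul_assoc, Finset.sum_mul]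
  simp only [fx_sum1]
  rw [← Finset.mul_sum]
  push_cast
  ring

lemma hash_avg {Ω : Type} [Fintype Ω] [DecidableEq Ω] [Nonempty Ω] (r : ℕ) (z1 z2 : Q n)
    (f : Ω → Ω → ℝ) :
    (∑ b : Fin n → Fin (r + 1), ∑ F : Q n → Ω, f (F (mask b z1)) (F (mask b z2))) /
      ((r + 1 : ℝ) ^ n * Fintype.card (Q n → Ω)) =
    ((r : ℝ) / (r + 1)) ^ (hammingDist z1 z2) * ((∑ ω, f ω ω) / Fintype.card Ω) +
    (1 - ((r : ℝ) / (r + 1)) ^ (hammingDist z1 z2)) *
      ((∑ ω, ∑ ω', f ω ω') / (Fintype.card Ω * Fintype.card Ω)) := by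
  classical
  have hm : (0 : ℝ) < Fintype.card Ω := by exact_mod_cast Fintype.card_pos
  have hM : (0 : ℝ) < Fintype.card (Q n → Ω) := by exact_mod_cast Fintype.card_pos
  have hr : (0 : ℝ) < (r + 1 : ℝ) ^ n := by positivity
  set D : ℝ := ∑ ω, f ω ω with hD
  set S : ℝ := ∑ ω, ∑ ω', f ω ω' with hS
  set M : ℝ := (Fintype.card (Q n → Ω) : ℝ) with hMd
  set m : ℝ := (Fintype.card Ω : ℝ) with hmd
  have hb : ∀ b : Fin n → Fin (r + 1), (∑ F : Q n → Ω, f (F (mask b z1)) (F (mask b z2))) =
      if mask b z1 = mask b z2 then M * D / m else M * S / (m * m) := by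
    intro b
    split_ifs with h
    · rw [eq_div_iff hm.ne', h]
      exact fx_sum1 (mask b z2) (fun o => f o o)
    · rw [eq_div_iff (mul_pos hm hm).ne']
      exact fx_sum2 (mask b z1) (mask b z2) (fun hh => h hh.symm) f
  simp only [hb]
  rw [Finset.sum_ite]
  simp only [sum_const, nsmul_eq_mul]
  have hc := card_mask (n := n) r z1 z2
  have hc2 : ((univ.filter (fun b : Fin n → Fin (r + 1) => ¬ mask b z1 = mask b z2)).card : ℝ) =
      (r + 1 : ℝ) ^ n - ((univ.filter
        (fun b : Fin n → Fin (r + 1) => mask b z1 = mask b z2)).card : ℝ) := by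
    have := Finset.card_filter_add_card_filter_not (s := (univ : Finset (Fin n → Fin (r + 1))))
      (fun b => mask b z1 = mask b z2)
    rw [Finset.card_univ, Fintype.card_fun, Fintype.card_fin, Fintype.card_fin] at this
    have h2 : (((univ.filter (fun b : Fin n → Fin (r + 1) => mask b z1 = mask b z2)).card +
      (univ.filter (fun b : Fin n → Fin (r + 1) => ¬ mask b z1 = mask b z2)).card : ℕ) : ℝ) =
        (((r + 1) ^ n : ℕ) : ℝ) := by rw [this]
    push_cast at h2
    linarith
  rw [hc2, hc]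
  field_simp

end H29Str
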