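import Pool.Agent.H29Str.Assemble
set_option autoImplicit false
namespace H29Str
open Finset
variable {n : ℕ}

lemma flip_comm' (i j : Fin n) (v : Q n) : flip i (flip j v) = flip j (flip i v) := by
  haveI : NeZero n := ⟨by rintro rfl; exact i.elim0⟩
  exact flip_comm i j v

lemma P_sub (ρ : ℝ) (h k : Q n → ℝ) (v : Q n) : P ρ (fun u => h u - k u) v = P ρ h v - P ρ k v := by
  unfold P
  rw [← Finset.sum_sub_distrib]
  exact Finset.sum_congr rfl (fun u _ => by ring)

lemma P_finsum {ι : Type} (s : Finset ι) (ρ : ℝ) (h : ι → Q n → ℝ) (v : Q n) :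
    P ρ (fun u => ∑ i ∈ s, h i u) v = ∑ i ∈ s, P ρ (h i) v := by
  unfold P
  rw [Finset.sum_comm]
  exact Finset.sum_congr rfl (fun u _ => by rw [Finset.mul_sum])

lemma hess {ρ : ℝ} (h0 : 0 ≤ ρ) (h1 : ρ < 1) (h : Q n → ℝ) (hh : ∀ u, |h u| ≤ 2) (v : Q n) :
    ∑ i, ∑ j, (P ρ h (flip i (flip j v)) - P ρ h (flip i v) - P ρ h (flip j v) + P ρ h v) ^ 2 ≤
      4 * (4 * ρ / (1 - ρ)) ^ 2 := by
  set r : ℝ := Real.sqrt ρ with hr
  have hr0 : 0 ≤ r := Real.sqrt_nonneg _
  have hrr : r * r = ρ := Real.mul_self_sqrt h0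
  have hr1 : r < 1 := by
    rw [hr, Real.sqrt_lt' one_pos]; linarith
  have hV : 4 * r ^ 2 / (1 - r ^ 2) = 4 * ρ / (1 - ρ) := by rw [pow_two, hrr]
  set V : ℝ := 4 * ρ / (1 - ρ) with hVdef
  have hV0 : 0 ≤ V := by
    rw [hVdef]; apply div_nonneg <;> linarith
  have hcomp : P ρ h = P r (P r h) := by rw [P_comp, hrr]
  set k : Fin n → Q n → ℝ := fun j u => P r h (flip j u) - P r h u with hk
  have hPk : ∀ j x, P r (k j) x = P ρ h (flip j x) - P ρ h x := by
    intro j x
    rw [hk]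
    simp only
    rw [P_sub, ← P_flip r (P r h) j x, ← hcomp]
  have e1 : ∀ j, ∑ i, (P ρ h (flip i (flip j v)) - P ρ h (flip i v) - P ρ h (flip j v) + P ρ h v) ^ 2 ≤
      V * P r (fun u => (k j u) ^ 2) v := by
    intro j
    have := bessel hr0 hr1 (k j) v
    rw [hV] at this
    refine le_trans (le_of_eq ?_) this
    apply Finset.sum_congr rfl
    intro i _
    rw [hPk, hPk]
    congr 1
    rw [flip_comm' i j v]
    ring
  rw [Finset.sum_comm]
  calc _ ≤ ∑ j, V * P r (fun u => (k j u) ^ 2) v := Finset.sum_le_sum (fun j _ => e1 j)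
    _ = V * P r (fun u => ∑ j, (k j u) ^ 2) v := by rw [← Finset.mul_sum, P_finsum]
    _ ≤ V * (V * 4) := by
        apply mul_le_mul_of_nonneg_left _ hV0
        apply P_le hr0 hr1.le
        intro u
        have := bessel hr0 hr1 h u
        rw [hV] at this
        refine this.trans (mul_le_mul_of_nonneg_left ?_ hV0)
        apply P_le hr0 hr1.le
        intro x
        have := hh x
        nlinarith [abs_le.1 this, sq_abs (h x), abs_nonneg (h x)]
    _ = 4 * V ^ 2 := by ring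

end H29Str
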