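import Pool.Agent.H29Str.TaskA
import Pool.Agent.H29Str.TaskB
import Pool.Agent.H29Str.TaskC
import Pool.Agent.H29Str.TaskD
import Pool.Agent.H29Str.TaskE
import Pool.Agent.H29Str.TaskF
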